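import Pool.Agent.Helper15.WA.Conc

/-!
# The completions of `ℚ(i)`
-/

namespace GWA

open NumberField IsDedekindDomain Module

section frac

variable {K : Type*} [Field K] [Algebra GaussianInt K]

theorem gi_norm (α : GaussianInt) : ((α.norm : ℤ) : GaussianInt) = α * star α := by
  have := Zsqrtd.norm_eq_mul_conj α
  simpa using this

theorem gi_map (a b : ℤ) : algebraMap GaussianInt K ⟨a, b⟩ = a + b * II K := by
  have : (⟨a, b⟩ : GaussianInt) = (a : GaussianInt) + (b : GaussianInt) * ⟨0, 1⟩ := by
    ext <;> simp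
  rw [this, map_add, map_mul, map_intCast, map_intCast]
  rfl

variable [CharZero K]

theorem gi_inj : Function.Injective (algebraMap GaussianInt K) := by
  rw [injective_iff_map_eq_zero]
  intro α hα
  have h1 : algebraMap GaussianInt K ((α.norm : ℤ) : GaussianInt) = 0 := by
    rw [gi_norm, map_mul, hα, zero_mul]
  rw [map_intCast, Int.cast_eq_zero] at h1
  exact GaussianInt.norm_eq_zero.1 h1

theorem gi_lin (p q : ℚ) (h : (p : K) + q * II K = 0) : p = 0 ∧ q = 0 := by
  by_cases hq : q = 0
  · subst hq
    refine ⟨?_, rfl⟩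
    simpa using h
  · exfalso
    have hq' : (q : K) ≠ 0 := by exact_mod_cast hq
    have h1 : II K = ((-p / q : ℚ) : K) := by
      push_cast
      rw [eq_div_iff hq']
      linear_combination h
    have h2 := II_sq K
    rw [h1] at h2
    have h3 : ((-p / q) ^ 2 : ℚ) = -1 := by exact_mod_cast h2
    have h4 := sq_nonneg (-p / q)
    linarith

theorem gi_span (h2 : finrank ℚ K = 2) (z : K) : ∃ p q : ℚ, z = p + q * II K := by
  have hli : LinearIndependent ℚ ![(1 : K), II K] := by
    rw [LinearIndependent.pair_iff]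
    intro s t hst
    apply gi_lin (K := K) s t
    rw [← hst, Rat.smul_def, Rat.smul_def, mul_one]
  haveI : FiniteDimensional ℚ K := FiniteDimensional.of_finrank_pos (by omega)
  have hsp := hli.span_eq_top_of_card_eq_finrank' (by simp [h2])
  have hz : z ∈ Submodule.span ℚ (Set.range ![(1 : K), II K]) := by rw [hsp]; trivial
  rw [Matrix.range_cons, Matrix.range_cons, Matrix.range_empty, Set.union_empty,
    Set.singleton_union, Submodule.mem_span_pair] at hz
  obtain ⟨p, q, h⟩ := hz
  refine ⟨p, q, ?_⟩
  rw [← h, Rat.smul_def, Rat.smul_def, mul_one]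

theorem gi_frac (h2 : finrank ℚ K = 2) : IsFractionRing GaussianInt K := by
  have : FaithfulSMul GaussianInt K := (faithfulSMul_iff_algebraMap_injective _ _).2 gi_inj
  apply IsFractionRing.of_field
  intro z
  obtain ⟨p, q, rfl⟩ := gi_span h2 z
  refine ⟨⟨p.num * q.den, q.num * p.den⟩, ((p.den * q.den : ℤ) : GaussianInt), ?_⟩
  rw [gi_map, map_intCast]
  have hp : ((p.den : ℚ) : K) ≠ 0 := by exact_mod_cast p.den_nz
  have hq : ((q.den : ℚ) : K) ≠ 0 := by exact_mod_cast q.den_nz
  have e1 : (p : K) = p.num / p.den := by exact_mod_cast (Rat.num_div_den p).symm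
  have e2 : (q : K) = q.num / q.den := by exact_mod_cast (Rat.num_div_den q).symm
  rw [e1, e2]
  push_cast at hp hq ⊢
  field_simp

theorem gi_integral : Algebra.IsIntegral ℤ GaussianInt := ⟨fun α => by
    refine ⟨Polynomial.X ^ 2 - Polynomial.C (2 * α.re) * Polynomial.X + Polynomial.C α.norm, ?_, ?_⟩
    · monicity!
    · simp only [Polynomial.eval₂_add, Polynomial.eval₂_sub, Polynomial.eval₂_mul,
        Polynomial.eval₂_X, Polynomial.eval₂_C, Polynomial.eval₂_pow]
      ext <;> simp [Zsqrtd.norm, sq] <;> ring⟩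

theorem gi_integralClosure (h2 : finrank ℚ K = 2) : IsIntegralClosure GaussianInt ℤ K := by
  have := gi_frac (K := K) h2
  have : IsScalarTower ℤ GaussianInt K := IsScalarTower.of_algebraMap_eq' (RingHom.ext_int _ _)
  have := gi_integral
  infer_instance

end frac

section places

variable {K : Type*} [Field K] [NumberField K] [Algebra GaussianInt K]

/-- the Gaussian integers are the ring of integers -/
noncomputable def gie (h2 : finrank ℚ K = 2) : 𝓞 K ≃+* GaussianInt :=
  haveI := gi_integralClosure (K := K) h2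
  RingOfIntegers.equiv GaussianInt

theorem gie_spec (h2 : finrank ℚ K = 2) (x : 𝓞 K) :
    algebraMap GaussianInt K (gie h2 x) = algebraMap (𝓞 K) K x := by
  have := gi_integralClosure (K := K) h2
  exact IsIntegralClosure.algebraMap_equiv ℤ (𝓞 K) K GaussianInt x

variable (v : HeightOneSpectrum (𝓞 K))

/-- generators of the maximal ideals -/
theorem exists_pi (h2 : finrank ℚ K = 2) : ∃ π : GaussianInt, Prime π ∧
    ∀ x : 𝓞 K, x ∈ v.asIdeal ↔ π ∣ gie h2 x := by
  obtain ⟨π, hπ⟩ := (IsPrincipalIdealRing.principal (v.asIdeal.map (gie (K := K) h2))).principal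
  have hmem : ∀ x : 𝓞 K, x ∈ v.asIdeal ↔ π ∣ gie h2 x := by
    intro x
    rw [← Ideal.mem_span_singleton]
    change _ ↔ gie h2 x ∈ Submodule.span _ {π}
    rw [← hπ, Ideal.mem_map_of_equiv]
    constructor
    · intro hx
      exact ⟨x, hx, rfl⟩
    · rintro ⟨y, hy, hyx⟩
      rwa [(gie h2).injective hyx] at hy
  refine ⟨π, ?_, hmem⟩
  have hπ0 : π ≠ 0 := by
    rintro rfl
    apply v.ne_bot
    rw [eq_bot_iff]
    intro x hx
    have := (hmem x).1 hx
    rw [zero_dvd_iff] at this
    exact (map_eq_zero_iff _ (gie h2).injective).1 this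
  refine ⟨hπ0, ?_, ?_⟩
  · intro hu
    apply v.isPrime.ne_top
    rw [Ideal.eq_top_iff_one, hmem]
    exact hu.dvd
  · intro a b hab
    have h1 : (gie h2).symm a * (gie h2).symm b ∈ v.asIdeal := by
      rw [hmem, map_mul]; simpa using hab
    rcases v.isPrime.mem_or_mem h1 with h | h
    · left; rw [hmem] at h; simpa using h
    · right; rw [hmem] at h; simpa using h

/-- the places are determined by their prime elements -/
theorem pi_inj (h2 : finrank ℚ K = 2) {v w : HeightOneSpectrum (𝓞 K)} {π π' : GaussianInt}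
    (h : ∀ x : 𝓞 K, x ∈ v.asIdeal ↔ π ∣ gie h2 x) (h' : ∀ x : 𝓞 K, x ∈ w.asIdeal ↔ π' ∣ gie h2 x)
    (ha : Associated π π') : v = w := by
  apply HeightOneSpectrum.ext
  ext x
  rw [h, h', ha.dvd_iff_dvd_left]

end places

section lochyp

variable {K : Type} [Field K] [NumberField K] [Algebra GaussianInt K]
  (v : HeightOneSpectrum (𝓞 K))

open FinitePlace HeightOneSpectrum WithZero

theorem algebraMap_gi (h2 : finrank ℚ K = 2) (a : GaussianInt) :
    algebraMap GaussianInt (v.adicCompletion K) a =
      embedding v (algebraMap (𝓞 K) K ((gie h2).symm a)) := by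
  have h1 := gie_spec h2 ((gie h2).symm a)
  rw [RingEquiv.apply_symm_apply] at h1
  rw [← h1]
  rfl

theorem toNNReal_exp {e : NNReal} (he : e ≠ 0) (n : ℤ) :
    WithZeroMulInt.toNNReal he (exp n) = e ^ n := by
  rw [WithZeroMulInt.toNNReal_neg_apply he (exp_ne_zero)]
  rfl

theorem locHyp_adic (h2 : finrank ℚ K = 2) {π : GaussianInt} (hp : Prime π)
    (h : ∀ x : 𝓞 K, x ∈ v.asIdeal ↔ π ∣ gie h2 x) : LocHyp (v.adicCompletion K) π where
  prime := hp
  ultra x y := IsUltrametricDist.norm_add_le_max x y
  complete := inferInstance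
  char0 := charZero_of_injective_algebraMap (algebraMap K (v.adicCompletion K)).injective
  norm_pi := by
    rw [algebraMap_gi v h2, FinitePlace.norm_lt_one_iff_mem, h, RingEquiv.apply_symm_apply]
  unif x hx := by
    have hπ : v.asIdeal = Ideal.span {(gie h2).symm π} := by
      ext y
      rw [h, Ideal.mem_span_singleton]
      constructor
      · rintro ⟨z, hz⟩
        refine ⟨(gie h2).symm z, (gie h2).injective ?_⟩
        rw [map_mul, RingEquiv.apply_symm_apply, RingEquiv.apply_symm_apply, hz]
      · rintro ⟨z, rfl⟩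
        rw [map_mul, RingEquiv.apply_symm_apply]
        exact dvd_mul_right _ _
    have hπ0 : (gie h2).symm π ≠ 0 := by
      rw [ne_eq, map_eq_zero_iff _ (gie h2).symm.injective]
      exact hp.ne_zero
    have h1 : ‖algebraMap GaussianInt (v.adicCompletion K) π‖ =
        ((Ideal.absNorm v.asIdeal : NNReal) ^ (-1 : ℤ) : NNReal) := by
      rw [algebraMap_gi v h2, FinitePlace.norm_embedding_int, intValuation_singleton v hπ0 hπ,
        toNNReal_exp]
    have h3 : (Valued.v x : ℤᵐ⁰) ≠ 0 := by
      rw [ne_eq, Valuation.zero_iff]; exact hx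
    obtain ⟨n, hn⟩ : ∃ n : ℤ, (Valued.v x : ℤᵐ⁰) = exp n := ⟨log (Valued.v x), (exp_log h3).symm⟩
    refine ⟨-n, ?_⟩
    rw [FinitePlace.norm_def, hn, toNNReal_exp, h1]
    push_cast
    rw [← zpow_mul]
    congr 1
    ring
  res x hx := by
    have h1 : Dense (Set.range (algebraMap K (v.adicCompletion K))) := v.denseRange_algebraMap K
    obtain ⟨_, hy, ⟨y, rfl⟩⟩ := Metric.dense_iff.1 h1 x 1 one_pos
    rw [mem_ball_iff_norm] at hy
    have hy1 : ‖algebraMap K (v.adicCompletion K) y‖ ≤ 1 := by
      have : algebraMap K (v.adicCompletion K) y = (algebraMap K (v.adicCompletion K) y - x) + x := by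
        ring
      rw [this]
      exact (IsUltrametricDist.norm_add_le_max _ _).trans (max_le hy.le hx)
    have hval : ∀ z : K, ‖algebraMap K (v.adicCompletion K) z‖ ≤ 1 ↔ v.valuation K z ≤ 1 := by
      intro z
      change ‖embedding v z‖ ≤ 1 ↔ _
      rw [FinitePlace.norm_embedding']
      have := (WithZeroMulInt.toNNReal_strictMono (one_lt_absNorm_nnreal v)).le_iff_le
        (a := v.valuation K z) (b := 1)
      rw [map_one] at this
      rw [← this]
      norm_cast
    have hval' : ∀ z : K, ‖algebraMap K (v.adicCompletion K) z‖ < 1 ↔ v.valuation K z < 1 := by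
      intro z
      change ‖embedding v z‖ < 1 ↔ _
      rw [FinitePlace.norm_embedding']
      have := (WithZeroMulInt.toNNReal_strictMono (one_lt_absNorm_nnreal v)).lt_iff_lt
        (a := v.valuation K z) (b := 1)
      rw [map_one] at this
      rw [← this]
      norm_cast
    obtain ⟨a, ha⟩ := v.exists_valuation_sub_lt_of_integer ((hval y).1 hy1) 1
    rw [Units.val_one, ← hval'] at ha
    refine ⟨gie h2 a, ?_⟩
    have e1 : algebraMap GaussianInt (v.adicCompletion K) (gie h2 a) =
        algebraMap K (v.adicCompletion K) (algebraMap (𝓞 K) K a) := by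
      rw [← gie_spec h2]; rfl
    rw [e1]
    have e2 : x - algebraMap K (v.adicCompletion K) (algebraMap (𝓞 K) K a) =
        -(algebraMap K (v.adicCompletion K) y - x) +
          -(algebraMap K (v.adicCompletion K) (algebraMap (𝓞 K) K a - y)) := by
      rw [map_sub]; ring
    rw [e2]
    refine lt_of_le_of_lt (IsUltrametricDist.norm_add_le_max _ _) (max_lt ?_ ?_)
    · rwa [norm_neg]
    · rwa [norm_neg]

end lochyp

end GWA
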