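import Pool.Agent.Helper9.GWA.GPt

/-!
# Approximable systems over `ℚ(i)`-like fields: the predicate `App` is stable
-/

namespace GWA

open Topology Filter

/-! ### compatibility of `tr` with the complex multiplication -/

section tr

variable {k K : Type*} [Field k] [Field K] [DecidableEq k] [DecidableEq K] [NeZero (2 : k)]
  [NeZero (2 : K)]

theorem tr_T (φ : k →+* K) {r : K} (hr : r ≠ 0) {d : k} {e : K} (hd : d ≠ 0) (he : e ≠ 0)
    (h : φ d = e * r ^ 2) : tr φ hr he h (T hd) = T he := by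
  apply eq_T_of_xc he (tr_ne φ hr he h (T_ne hd))
  rw [xc_tr, xc_T, h]; field_simp

variable [Algebra GaussianInt k] [Algebra GaussianInt K]

theorem tr_im (φ : k →+* K) (hφ : ∀ a, φ (algebraMap GaussianInt k a) = algebraMap GaussianInt K a)
    {r : K} (hr : r ≠ 0) {d : k} {e : K} (hd : d ≠ 0) (he : e ≠ 0)
    (h : φ d = e * r ^ 2) (P : E d) : tr φ hr he h (im hd P) = im he (tr φ hr he h P) := by
  by_cases hP : P = 0
  · rw [hP]; simp
  · apply pt_ext (tr_ne φ hr he h (im_ne hd hP)) (im_ne he (tr_ne φ hr he h hP))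
    · rw [xc_tr, xc_im, xc_im, xc_tr, map_neg, neg_div]
    · rw [yc_tr, yc_im, yc_im, yc_tr, map_mul]
      have : φ (II k) = II K := hφ _
      rw [this, mul_div_assoc]

theorem tr_smul (φ : k →+* K) (hφ : ∀ a, φ (algebraMap GaussianInt k a) = algebraMap GaussianInt K a)
    {r : K} (hr : r ≠ 0) {d : kˣ} {e : Kˣ} (h : φ (d : k) = (e : K) * r ^ 2) (α : GaussianInt)
    (P : E (d : k)) : tr φ hr e.ne_zero h (α • P) = α • tr φ hr e.ne_zero h P := by
  rw [smul_def, smul_def, map_add, map_zsmul, map_zsmul, tr_im φ hφ]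

end tr

/-! ### continuity of the module operations -/

section cont

variable {K : Type*} [NormedField K] [DecidableEq K] [NeZero (2 : K)]

omit [DecidableEq K] [NeZero (2 : K)] in
theorem nbh_zero' {c : ℝ} {d : K} {n : ℕ} : (0 : E d) ∈ nbh c d n := Or.inl rfl

theorem nbh_nsmul_shift {c : ℝ} (hc : 1 < c) {d : K} (hd : d ≠ 0) (j : ℕ) (n : ℕ) :
    ∃ m : ℕ, n ≤ m ∧ ∀ P ∈ nbh c d m, j • P ∈ nbh c d n := by
  induction j generalizing n with
  | zero => exact ⟨n, le_rfl, fun P _ => by rw [zero_smul]; exact nbh_zero'⟩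
  | succ j ih =>
    obtain ⟨m, hm, H⟩ := nbh_add_shift hc hd n
    obtain ⟨m', hm', H'⟩ := ih m
    refine ⟨m', hm.trans hm', fun P hP => ?_⟩
    rw [succ_nsmul]
    exact H _ (H' P hP) _ (nbh_anti' hc hm' hP)

theorem nbh_zsmul_shift {c : ℝ} (hc : 1 < c) {d : K} (hd : d ≠ 0) (j : ℤ) (n : ℕ) :
    ∃ m : ℕ, n ≤ m ∧ ∀ P ∈ nbh c d m, j • P ∈ nbh c d n := by
  rcases Int.natAbs_eq j with h | h
  · obtain ⟨m, hm, H⟩ := nbh_nsmul_shift hc hd j.natAbs n
    refine ⟨m, hm, fun P hP => ?_⟩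
    rw [h, natCast_zsmul]
    exact H P hP
  · obtain ⟨m, hm, H⟩ := nbh_nsmul_shift hc hd j.natAbs n
    refine ⟨m, hm, fun P hP => ?_⟩
    rw [h, neg_smul, natCast_zsmul]
    exact nbh_neg' (H P hP)

variable [Algebra GaussianInt K]

theorem nbh_im {c : ℝ} {d : K} (hd : d ≠ 0) {n : ℕ} {P : E d} (hP : P ∈ nbh c d n) :
    im hd P ∈ nbh c d n := by
  rcases hP with h | h
  · left; rw [h, map_zero]
  · right; rwa [xc_im, norm_neg]

theorem nbh_smul_shift {c : ℝ} (hc : 1 < c) (d : Kˣ) (α : GaussianInt) (n : ℕ) :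
    ∃ m : ℕ, n ≤ m ∧ ∀ P ∈ nbh c (d : K) m, α • P ∈ nbh c (d : K) n := by
  obtain ⟨m, hm, H⟩ := nbh_add_shift hc d.ne_zero n
  obtain ⟨m₁, hm₁, H₁⟩ := nbh_zsmul_shift hc d.ne_zero α.re m
  obtain ⟨m₂, hm₂, H₂⟩ := nbh_zsmul_shift hc d.ne_zero α.im m
  refine ⟨max m₁ m₂, (hm.trans hm₁).trans (le_max_left _ _), fun P hP => ?_⟩
  rw [smul_def]
  exact H _ (H₁ P (nbh_anti' hc (le_max_left _ _) hP)) _
    (H₂ _ (nbh_im _ (nbh_anti' hc (le_max_right _ _) hP)))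

theorem nbh_lin_shift {c : ℝ} (hc : 1 < c) (d : Kˣ) (α β : GaussianInt) (n : ℕ) :
    ∃ m : ℕ, n ≤ m ∧ ∀ P ∈ nbh c (d : K) m, ∀ Q ∈ nbh c (d : K) m,
      α • P + β • Q ∈ nbh c (d : K) n := by
  obtain ⟨m, hm, H⟩ := nbh_add_shift hc d.ne_zero n
  obtain ⟨m₁, hm₁, H₁⟩ := nbh_smul_shift hc d α m
  obtain ⟨m₂, hm₂, H₂⟩ := nbh_smul_shift hc d β m
  refine ⟨max m₁ m₂, (hm.trans hm₁).trans (le_max_left _ _), fun P hP Q hQ => ?_⟩
  exact H _ (H₁ P (nbh_anti' hc (le_max_left _ _) hP)) _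
    (H₂ _ (nbh_anti' hc (le_max_right _ _) hQ))

end cont

/-! ### approximation at one place -/

section one

variable {k K : Type*} [Field k] [NormedField K] [DecidableEq k] [DecidableEq K] [NeZero (2 : k)]
  [NeZero (2 : K)]

/-- the global datum `(e, P, Q)` approximates the local datum `t` -/
def AppAt (φ : k →+* K) (c : ℝ) (n : ℕ) (e : kˣ) (P Q : E (e : k))
    (t : Σ d : Kˣ, E (d : K) × E (d : K)) : Prop :=
  ∃ (r : K) (hr : r ≠ 0) (h : φ (e : k) = (t.1 : K) * r ^ 2),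
    tr φ hr t.1.ne_zero h P - t.2.1 ∈ nbh c (t.1 : K) n ∧
    tr φ hr t.1.ne_zero h Q - t.2.2 ∈ nbh c (t.1 : K) n

end one

/-! ### global predicates -/

section glob

variable {k : Type} [Field k] [DecidableEq k] [NeZero (2 : k)] [Algebra GaussianInt k]
  {ι : Type} {K : ι → Type} [∀ v, NormedField (K v)] [∀ v, DecidableEq (K v)]
  [∀ v, NeZero (2 : K v)] [∀ v, Algebra GaussianInt (K v)]

/-- a family of local points which is a limit of rational points at the places of `A` -/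
def Near (φ : ∀ v, k →+* K v) (A : Finset ι) (w : ∀ v, Pt (K v)) : Prop :=
  ∀ U : ∀ v, Set (Pt (K v)), (∀ v ∈ A, U v ∈ 𝓝 (w v)) →
    ∃ u : Pt k, ∀ v ∈ A, Pt.map (φ v) u ∈ U v

/-- approximable systems -/
def App (φ : ∀ v, k →+* K v) (c : ι → ℝ) (A : Finset ι)
    (s : ∀ v, Σ d : (K v)ˣ, E (d : K v) × E (d : K v)) : Prop :=
  ∀ n : ℕ, ∃ (e : kˣ) (P Q : E (e : k)), ∀ v ∈ A, AppAt (φ v) (c v) n e P Q (s v)

/-- a rational point -/
def pt0 (k : Type*) [Field k] [NeZero (2 : k)] [Algebra GaussianInt k] : Pt k :=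
  ⟨(II k, II k, ff (II k)), by
    refine ⟨by ring, ?_⟩
    change ff (II k) ≠ 0
    have : ff (II k) = -2 * II k := by
      unfold ff
      linear_combination II k * II_sq k
    rw [this]
    exact mul_ne_zero (neg_ne_zero.2 two_ne_zero) II_ne⟩

variable {φ : ∀ v, k →+* K v} {c : ι → ℝ} {A : Finset ι}

theorem sup_le_mem {ι : Type*} (A : Finset ι) (m : ι → ℕ) {v : ι} (hv : v ∈ A) : m v ≤ A.sup m :=
  Finset.le_sup hv

omit [∀ v, Algebra GaussianInt (K v)] [Algebra GaussianInt k] in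
theorem App.dep {s s' : ∀ v, Σ d : (K v)ˣ, E (d : K v) × E (d : K v)} (h : ∀ v ∈ A, s v = s' v)
    (hs : App φ c A s) : App φ c A s' := by
  intro n
  obtain ⟨e, P, Q, H⟩ := hs n
  refine ⟨e, P, Q, fun v hv => ?_⟩
  rw [← h v hv]
  exact H v hv

omit [Algebra GaussianInt k] in
theorem App.cl (hc : ∀ v, 1 < c v) {s : ∀ v, Σ d : (K v)ˣ, E (d : K v) × E (d : K v)}
    (h : ∀ n : ℕ, ∃ s', App φ c A s' ∧ ∀ v ∈ A, (KLD (K v) (c v)).close n (s' v) (s v)) :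
    App φ c A s := by
  intro n
  choose m hm H using fun v => nbh_add_shift (hc v) (s v).1.ne_zero n
  obtain ⟨s', hs', hcl⟩ := h (A.sup m)
  obtain ⟨e, P, Q, h1⟩ := hs' (A.sup m)
  refine ⟨e, P, Q, fun v hv => ?_⟩
  obtain ⟨P', Q', h2, h3, h4⟩ : ∃ P' Q' : E ((s v).1 : K v), s' v = ⟨(s v).1, P', Q'⟩ ∧
      P' - (s v).2.1 ∈ nbh (c v) _ (A.sup m) ∧ Q' - (s v).2.2 ∈ nbh (c v) _ (A.sup m) := hcl v hv
  have h5 := h1 v hv
  rw [h2] at h5
  obtain ⟨r, hr, hre, h6, h7⟩ := h5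
  change tr (φ v) hr (s v).1.ne_zero hre P - P' ∈ nbh (c v) ((s v).1 : K v) _ at h6
  change tr (φ v) hr (s v).1.ne_zero hre Q - Q' ∈ nbh (c v) ((s v).1 : K v) _ at h7
  have hle := sup_le_mem A m hv
  refine ⟨r, hr, hre, ?_, ?_⟩
  · have := H v _ (nbh_anti' (hc v) hle h6) _ (nbh_anti' (hc v) hle h3)
    rwa [sub_add_sub_cancel] at this
  · have := H v _ (nbh_anti' (hc v) hle h7) _ (nbh_anti' (hc v) hle h4)
    rwa [sub_add_sub_cancel] at this

theorem App.aff (hφ : ∀ v a, φ v (algebraMap GaussianInt k a) = algebraMap GaussianInt (K v) a)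
    (hc : ∀ v, 1 < c v) {s : ∀ v, Σ d : (K v)ˣ, E (d : K v) × E (d : K v)} (hs : App φ c A s)
    (α β γ δ κ μ : GaussianInt) :
    App φ c A (fun v => (KLD (K v) (c v)).aff α β γ δ κ μ (s v)) := by
  intro n
  choose m₁ hm₁ H₁ using fun v => nbh_lin_shift (hc v) (s v).1 α β n
  choose m₂ hm₂ H₂ using fun v => nbh_lin_shift (hc v) (s v).1 γ δ n
  obtain ⟨e, P, Q, h1⟩ := hs (A.sup (fun v => max (m₁ v) (m₂ v)))
  refine ⟨e, α • P + β • Q + κ • T e.ne_zero, γ • P + δ • Q + μ • T e.ne_zero, fun v hv => ?_⟩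
  obtain ⟨r, hr, hre, h6, h7⟩ := h1 v hv
  have hle := sup_le_mem A (fun v => max (m₁ v) (m₂ v)) hv
  have hle1 := (le_max_left (m₁ v) (m₂ v)).trans hle
  have hle2 := (le_max_right (m₁ v) (m₂ v)).trans hle
  refine ⟨r, hr, hre, ?_, ?_⟩
  · have := H₁ v _ (nbh_anti' (hc v) hle1 h6) _ (nbh_anti' (hc v) hle1 h7)
    have e1 : tr (φ v) hr (s v).1.ne_zero hre (α • P + β • Q + κ • T e.ne_zero) -
        (α • (s v).2.1 + β • (s v).2.2 + κ • T (s v).1.ne_zero) =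
        α • (tr (φ v) hr (s v).1.ne_zero hre P - (s v).2.1) +
        β • (tr (φ v) hr (s v).1.ne_zero hre Q - (s v).2.2) := by
      rw [map_add, map_add, tr_smul (φ v) (hφ v), tr_smul (φ v) (hφ v), tr_smul (φ v) (hφ v),
        tr_T (φ v) hr e.ne_zero, smul_sub, smul_sub]
      abel
    exact e1 ▸ this
  · have := H₂ v _ (nbh_anti' (hc v) hle2 h6) _ (nbh_anti' (hc v) hle2 h7)
    have e1 : tr (φ v) hr (s v).1.ne_zero hre (γ • P + δ • Q + μ • T e.ne_zero) -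
        (γ • (s v).2.1 + δ • (s v).2.2 + μ • T (s v).1.ne_zero) =
        γ • (tr (φ v) hr (s v).1.ne_zero hre P - (s v).2.1) +
        δ • (tr (φ v) hr (s v).1.ne_zero hre Q - (s v).2.2) := by
      rw [map_add, map_add, tr_smul (φ v) (hφ v), tr_smul (φ v) (hφ v), tr_smul (φ v) (hφ v),
        tr_T (φ v) hr e.ne_zero, smul_sub, smul_sub]
      abel
    exact e1 ▸ this

omit [(v : ι) → Algebra GaussianInt (K v)] in
/-- f1 -/
theorem near_of_app (hc : ∀ v, 1 < c v) {s : ∀ v, Σ d : (K v)ˣ, E (d : K v) × E (d : K v)}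
    (h : App φ c A s) {w : ∀ v, Pt (K v)}
    (hw : ∀ v ∈ A, Rep (w v) ((s v).1 : K v) (s v).2.1 (s v).2.2) : Near φ A w := by
  intro U hU
  rcases A.eq_empty_or_nonempty with hA | ⟨v₀, hv₀⟩
  · exact ⟨pt0 k, fun v hv => by rw [hA] at hv; exact absurd hv (Finset.notMem_empty v)⟩
  have key : ∀ v, ∃ n : ℕ, v ∈ A → ∀ A' B' : E ((s v).1 : K v),
      A' - (s v).2.1 ∈ nbh (c v) _ n → B' - (s v).2.2 ∈ nbh (c v) _ n →
      A' ≠ 0 ∧ B' ≠ 0 ∧ yc A' ≠ 0 ∧ yc B' ≠ 0 ∧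
      ∀ u : Pt (K v), Rep u ((s v).1 : K v) A' B' → u ∈ U v := by
    intro v
    by_cases hv : v ∈ A
    · obtain ⟨R, hR⟩ := loc_f1 (hw v hv) (hU v hv)
      obtain ⟨n, hn⟩ := exists_nbh_far (hc v) (s v).1.ne_zero R
      exact ⟨n, fun _ A' B' hA hB => hR A' B' (hn n le_rfl _ hA) (hn n le_rfl _ hB)⟩
    · exact ⟨0, fun h => absurd h hv⟩
  choose n hn using key
  obtain ⟨e, P, Q, H⟩ := h (A.sup n)
  have key2 : ∀ v ∈ A, ∃ (r : K v) (hr : r ≠ 0) (hre : φ v (e : k) = ((s v).1 : K v) * r ^ 2),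
      yc (tr (φ v) hr (s v).1.ne_zero hre P) ≠ 0 ∧ yc (tr (φ v) hr (s v).1.ne_zero hre Q) ≠ 0 ∧
      ∀ u : Pt (K v), Rep u ((s v).1 : K v) (tr (φ v) hr (s v).1.ne_zero hre P)
        (tr (φ v) hr (s v).1.ne_zero hre Q) → u ∈ U v := by
    intro v hv
    obtain ⟨r, hr, hre, h6, h7⟩ := H v hv
    have hle := sup_le_mem A n hv
    obtain ⟨h1, h2, h3, h4, h5⟩ := hn v hv _ _ (nbh_anti' (hc v) hle h6) (nbh_anti' (hc v) hle h7)
    exact ⟨r, hr, hre, h3, h4, h5⟩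
  have hyP : yc P ≠ 0 := by
    obtain ⟨r, hr, hre, h1, -⟩ := key2 v₀ hv₀
    rintro h0
    apply h1
    rw [yc_tr, h0]; simp
  have hyQ : yc Q ≠ 0 := by
    obtain ⟨r, hr, hre, -, h1, -⟩ := key2 v₀ hv₀
    rintro h0
    apply h1
    rw [yc_tr, h0]; simp
  refine ⟨mkPt e.ne_zero P Q hyP hyQ, fun v hv => ?_⟩
  obtain ⟨r, hr, hre, h1, h2, h3⟩ := key2 v hv
  apply h3
  obtain ⟨-, g1, g2, g3, g4, g5⟩ := rep_mkPt e.ne_zero hyP hyQ
  have f3 := congrArg (φ v) g3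
  have f4 := congrArg (φ v) g4
  have f5 := congrArg (φ v) g5
  rw [map_mul, hre] at f3 f4
  rw [map_mul, map_mul, map_pow, hre] at f5
  refine ⟨(s v).1.ne_zero, tr_ne _ hr (s v).1.ne_zero hre g1, tr_ne _ hr (s v).1.ne_zero hre g2,
    ?_, ?_, ?_⟩
  · rw [Pt.map_x, xc_tr, ← f3]; field_simp
  · rw [Pt.map_y, xc_tr, ← f4]; field_simp
  · rw [Pt.map_z, yc_tr, yc_tr]
    field_simp
    linear_combination f5

omit [Algebra GaussianInt k] [(v : ι) → Algebra GaussianInt (K v)] in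
/-- f2 -/
theorem app_of_near [∀ v, CompleteSpace (K v)] (hnt : ∀ v, ∃ x : K v, 1 < ‖x‖)
    {w : ∀ v, Pt (K v)} (hw : Near φ A w)
    {s : ∀ v, Σ d : (K v)ˣ, E (d : K v) × E (d : K v)}
    (hrep : ∀ v ∈ A, Rep (w v) ((s v).1 : K v) (s v).2.1 (s v).2.2) : App φ c A s := by
  intro n
  have key : ∀ v, ∃ V : Set (Pt (K v)), (v ∈ A → V ∈ 𝓝 (w v)) ∧ (v ∈ A → ∀ u ∈ V,
      ∃ r : K v, r ≠ 0 ∧ ff u.x = ((s v).1 : K v) * r ^ 2 ∧ ∀ A' B' : E ((s v).1 : K v),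
        A' ≠ 0 → B' ≠ 0 → xc A' = ((s v).1 : K v) * u.x → yc A' = ((s v).1 : K v) ^ 2 * r →
        xc B' = ((s v).1 : K v) * u.y → yc B' = ((s v).1 : K v) * u.z / r →
        A' - (s v).2.1 ∈ nbh (c v) _ n ∧ B' - (s v).2.2 ∈ nbh (c v) _ n) := by
    intro v
    by_cases hv : v ∈ A
    · exact ⟨_, fun _ => loc_f2 (hnt v) (hrep v hv) (c v ^ (2 * n + 1) * ‖((s v).1 : K v)‖),
        fun _ u hu => hu⟩
    · exact ⟨Set.univ, fun h => absurd h hv, fun h => absurd h hv⟩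
  choose V hV1 hV2 using key
  obtain ⟨u, hu⟩ := hw V (fun v hv => hV1 v hv)
  have he : ff u.x ≠ 0 := u.hfx
  set e : kˣ := Units.mk0 _ he with hedef
  have hee : (e : k) = ff u.x := rfl
  have hAeq : (ff u.x ^ 2) ^ 2 = (ff u.x * u.x) ^ 3 - ff u.x ^ 2 * (ff u.x * u.x) := by
    have : ff u.x = u.x ^ 3 - u.x := rfl
    linear_combination ff u.x ^ 3 * this
  have hBeq : (ff u.x * u.z) ^ 2 = (ff u.x * u.y) ^ 3 - ff u.x ^ 2 * (ff u.x * u.y) := by
    have h3 := u.eqn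
    have : ff u.y = u.y ^ 3 - u.y := rfl
    rw [mul_pow, h3, this]; ring
  refine ⟨e, mkP e.ne_zero (ff u.x * u.x) (ff u.x ^ 2) hAeq,
    mkP e.ne_zero (ff u.x * u.y) (ff u.x * u.z) hBeq, fun v hv => ?_⟩
  obtain ⟨r, hr, hre, H⟩ := hV2 v hv _ (hu v hv)
  have hre' : φ v (e : k) = ((s v).1 : K v) * r ^ 2 := by
    rw [← hre, hee, map_ff]; rfl
  have hre2 : φ v (ff u.x) = ((s v).1 : K v) * r ^ 2 := hre'
  have hd := (s v).1.ne_zero
  refine ⟨r, hr, hre', ?_⟩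
  apply H
  · exact tr_ne _ hr _ hre' (mkP_ne _ _ _ _)
  · exact tr_ne _ hr _ hre' (mkP_ne _ _ _ _)
  · rw [xc_tr, xc_mkP, map_mul, hre2, Pt.map_x]; field_simp
  · rw [yc_tr, yc_mkP, map_pow, hre2]; field_simp
  · rw [xc_tr, xc_mkP, map_mul, hre2, Pt.map_y]; field_simp
  · rw [yc_tr, yc_mkP, map_mul, hre2, Pt.map_z]; field_simp

omit [DecidableEq k] [(v : ι) → DecidableEq (K v)] [(v : ι) → Algebra GaussianInt (K v)] in
/-- f3 : the involution preserves limits of rational points -/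
theorem near_iota {w w' : ∀ v, Pt (K v)} (h : Near φ A w)
    (hw : ∀ v ∈ A, ∃ hI : IOK (w v), w' v = iota (w v) hI) : Near φ A w' := by
  intro U hU
  rcases A.eq_empty_or_nonempty with hA | ⟨v₀, hv₀⟩
  · exact ⟨pt0 k, fun v hv => by rw [hA] at hv; exact absurd hv (Finset.notMem_empty v)⟩
  have key : ∀ v, ∃ V : Set (Pt (K v)), (v ∈ A → V ∈ 𝓝 (w v)) ∧ (v ∈ A → ∀ u ∈ V,
      ∃ hI : IOK u, iota u hI ∈ U v) := by
    intro v
    by_cases hv : v ∈ A
    · obtain ⟨hI, hwI⟩ := hw v hv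
      have := hU v hv
      rw [hwI] at this
      exact ⟨_, fun _ => iota_nhds hI this, fun _ u hu => hu⟩
    · exact ⟨Set.univ, fun h => absurd h hv, fun h => absurd h hv⟩
  choose V hV1 hV2 using key
  obtain ⟨u, hu⟩ := h V (fun v hv => hV1 v hv)
  obtain ⟨hI, -⟩ := hV2 v₀ hv₀ _ (hu v₀ hv₀)
  have hI' : IOK u := (IOK_map _ u).1 hI
  refine ⟨iota u hI', fun v hv => ?_⟩
  obtain ⟨h1, h2⟩ := hV2 v hv _ (hu v hv)
  rw [iota_map]
  exact h2

theorem App.sig [∀ v, CompleteSpace (K v)] (hnt : ∀ v, ∃ x : K v, 1 < ‖x‖) (hc : ∀ v, 1 < c v)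
    {s s' : ∀ v, Σ d : (K v)ˣ, E (d : K v) × E (d : K v)} (hs : App φ c A s)
    (hS : ∀ v ∈ A, SRel (s v) (s' v)) : App φ c A s' := by
  have key : ∀ v, ∃ u u' : Pt (K v), v ∈ A → (∃ hI : IOK u, u' = iota u hI) ∧
      Rep u ((s v).1 : K v) (s v).2.1 (s v).2.2 ∧
      Rep u' ((s' v).1 : K v) (s' v).2.1 (s' v).2.2 := by
    intro v
    by_cases hv : v ∈ A
    · obtain ⟨u, hI, h1, h2⟩ := hS v hv
      exact ⟨u, iota u hI, fun _ => ⟨⟨hI, rfl⟩, h1, h2⟩⟩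
    · exact ⟨pt0 _, pt0 _, fun h => absurd h hv⟩
  choose w w' hw using key
  have h1 := near_of_app hc hs (w := w) (fun v hv => (hw v hv).2.1)
  have h2 := near_iota h1 (w' := w') (fun v hv => (hw v hv).1)
  exact app_of_near hnt h2 (fun v hv => (hw v hv).2.2)

omit [DecidableEq k] [(v : ι) → DecidableEq (K v)] [∀ v, NeZero (2 : K v)] [(v : ι) → Algebra GaussianInt (K v)] in
/-- density for the diagonal points `(t, t, ff t)` -/
theorem near_diag (hwa : ∀ (x : ∀ v, K v) (ε : ℝ), 0 < ε → ∃ t : k, ∀ v ∈ A, ‖φ v t - x v‖ < ε)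
    (w : ∀ v, Pt (K v)) (hw : ∀ v ∈ A, (w v).y = (w v).x ∧ (w v).z = ff (w v).x) :
    Near φ A w := by
  intro U hU
  rcases A.eq_empty_or_nonempty with hA | ⟨v₀, hv₀⟩
  · exact ⟨pt0 k, fun v hv => by rw [hA] at hv; exact absurd hv (Finset.notMem_empty v)⟩
  -- the diagonal map
  have key : ∀ v, ∃ ε : ℝ, 0 < ε ∧ (v ∈ A → ∀ t : K v, ‖t - (w v).x‖ < ε →
      ff t ≠ 0 ∧ ∀ u : Pt (K v), u.1 = (t, t, ff t) → u ∈ U v) := by
    intro v
    by_cases hv : v ∈ A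
    · have h1 : U v ∈ Filter.comap (Subtype.val : Pt (K v) → K v × K v × K v) (𝓝 (w v).1) := by
        have := hU v hv
        rwa [show 𝓝 (w v) = Filter.comap (Subtype.val : Pt (K v) → K v × K v × K v)
          (𝓝 (w v).1) from nhds_induced _ _] at this
      obtain ⟨V, hV, hVU⟩ := Filter.mem_comap.1 h1
      have hc : Continuous fun t : K v => ((t, t, ff t) : K v × K v × K v) := by
        unfold ff
        fun_prop
      have hc2 : Continuous fun t : K v => ff t := by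
        unfold ff
        fun_prop
      have hvi : (w v).1 = ((w v).x, (w v).x, ff (w v).x) := by
        have : (w v).1 = ((w v).x, (w v).y, (w v).z) := rfl
        rw [this, (hw v hv).1, (hw v hv).2]
      rw [hvi] at hV
      have h2 : ∀ᶠ t in 𝓝 (w v).x, ((t, t, ff t) : K v × K v × K v) ∈ V :=
        hc.continuousAt.eventually hV
      have h3 : ∀ᶠ t in 𝓝 (w v).x, ff t ≠ 0 := hc2.continuousAt.eventually_ne (w v).hfx
      obtain ⟨ε, hε, h⟩ := Metric.eventually_nhds_iff.1 (h2.and h3)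
      refine ⟨ε, hε, fun _ t ht => ?_⟩
      have := h (by rwa [dist_eq_norm] : dist t (w v).x < ε)
      refine ⟨this.2, fun u hu => hVU ?_⟩
      change u.1 ∈ V
      rw [hu]
      exact this.1
    · exact ⟨1, one_pos, fun h => absurd h hv⟩
  choose ε hε h using key
  obtain ⟨t, ht⟩ := hwa (fun v => (w v).x) (A.inf' ⟨v₀, hv₀⟩ ε)
    ((Finset.lt_inf'_iff _).2 fun v _ => hε v)
  have ht' : ∀ v ∈ A, ‖φ v t - (w v).x‖ < ε v := fun v hv =>
    lt_of_lt_of_le (ht v hv) (Finset.inf'_le _ hv)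
  have hf : ff t ≠ 0 := by
    intro h0
    apply (h v₀ hv₀ _ (ht' v₀ hv₀)).1
    rw [← map_ff, h0, map_zero]
  refine ⟨⟨(t, t, ff t), by ring, hf⟩, fun v hv => ?_⟩
  apply (h v hv _ (ht' v hv)).2
  change (φ v t, φ v t, φ v (ff t)) = _
  rw [map_ff]

theorem App.diag [∀ v, CompleteSpace (K v)] (hnt : ∀ v, ∃ x : K v, 1 < ‖x‖)
    (hwa : ∀ (x : ∀ v, K v) (ε : ℝ), 0 < ε → ∃ t : k, ∀ v ∈ A, ‖φ v t - x v‖ < ε)
    (s : ∀ v, Σ d : (K v)ˣ, E (d : K v) × E (d : K v)) (hs : ∀ v ∈ A, (s v).2.2 = (s v).2.1)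
    (hy : ∀ v ∈ A, yc (s v).2.1 ≠ 0) : App φ c A s := by
  have key : ∀ v, ∃ u : Pt (K v), v ∈ A → (u.y = u.x ∧ u.z = ff u.x) ∧
      Rep u ((s v).1 : K v) (s v).2.1 (s v).2.2 := by
    intro v
    by_cases hv : v ∈ A
    · refine ⟨mkPt (s v).1.ne_zero (s v).2.1 (s v).2.1 (hy v hv) (hy v hv), fun _ => ⟨⟨rfl, ?_⟩, ?_⟩⟩
      · change yc (s v).2.1 * yc (s v).2.1 / ((s v).1 : K v) ^ 3 = ff (xc (s v).2.1 / ((s v).1 : K v))
        have := yc_sq_ff (s v).1.ne_zero (s v).2.1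
        have hd := (s v).1.ne_zero
        rw [← sq, this]
        field_simp
      · rw [hs v hv]
        exact rep_mkPt _ _ _
    · exact ⟨pt0 _, fun h => absurd h hv⟩
  choose w hw using key
  exact app_of_near hnt (near_diag hwa w (fun v hv => (hw v hv).1)) (fun v hv => (hw v hv).2)

theorem App.base [∀ v, CompleteSpace (K v)] (hnt : ∀ v, ∃ x : K v, 1 < ‖x‖) (hc : ∀ v, 1 < c v)
    (hφ : ∀ v a, φ v (algebraMap GaussianInt k a) = algebraMap GaussianInt (K v) a)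
    (hwa : ∀ (x : ∀ v, K v) (ε : ℝ), 0 < ε → ∃ t : k, ∀ v ∈ A, ‖φ v t - x v‖ < ε)
    (s : ∀ v, Σ d : (K v)ˣ, E (d : K v) × E (d : K v)) (hs : ∀ v ∈ A, (s v).2.2 = 0) :
    App φ c A s := by
  apply App.cl hc
  intro n
  -- perturb the first coordinates
  have key : ∀ v, ∃ P' : E ((s v).1 : K v), yc P' ≠ 0 ∧ P' - (s v).2.1 ∈ nbh (c v) _ n := by
    intro v
    by_cases hy : yc (s v).2.1 = 0
    · obtain ⟨F, hF0, hF⟩ := exists_far (hnt v) (s v).1.ne_zero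
        (max (‖((s v).1 : K v)‖ + 1) ((c v) ^ (2 * n + 1) * ‖((s v).1 : K v)‖))
      refine ⟨(s v).2.1 + F, ?_, ?_⟩
      · intro h0
        have h1 := add_self_of_yc h0
        have h2 := add_self_of_yc hy
        have h3 : F + F = 0 := by
          have : (s v).2.1 + F + ((s v).2.1 + F) = ((s v).2.1 + (s v).2.1) + (F + F) := by abel
          rw [this, h2, zero_add] at h1
          exact h1
        have h4 := two_tors_eq h3
        have h5 := curve_eq F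
        rw [h4] at h5
        have hX : ‖((s v).1 : K v)‖ + 1 ≤ ‖xc F‖ := (le_max_left _ _).trans hF
        have hX0 : xc F ≠ 0 := norm_pos_iff.1 (by
          have := norm_nonneg ((s v).1 : K v)
          linarith)
        have h6 : xc F ^ 2 = ((s v).1 : K v) ^ 2 := by
          apply mul_right_cancel₀ hX0
          linear_combination -h5
        have h7 := congrArg norm h6
        rw [norm_pow, norm_pow] at h7
        have h8 : ‖((s v).1 : K v)‖ ^ 2 < ‖xc F‖ ^ 2 := by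
          apply pow_lt_pow_left₀ (by linarith) (norm_nonneg _) two_ne_zero
        linarith
      · rw [add_sub_cancel_left]
        right
        exact (le_max_right _ _).trans hF
    · exact ⟨(s v).2.1, hy, by rw [sub_self]; exact nbh_zero'⟩
  choose P' hP1 hP2 using key
  have h1 : App φ c A (fun v => (⟨(s v).1, P' v, P' v⟩ : Σ d : (K v)ˣ, E (d : K v) × E (d : K v))) :=
    App.diag hnt hwa _ (fun _ _ => rfl) (fun v _ => hP1 v)
  have h2 := h1.aff hφ hc 1 0 1 (-1) 0 0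
  refine ⟨_, h2, fun v hv => ?_⟩
  refine ⟨P' v, 0, ?_, hP2 v, ?_⟩
  · change (⟨(s v).1, (1 : GaussianInt) • P' v + (0 : GaussianInt) • P' v +
      (0 : GaussianInt) • T (s v).1.ne_zero, (1 : GaussianInt) • P' v + (-1 : GaussianInt) • P' v +
      (0 : GaussianInt) • T (s v).1.ne_zero⟩ : Σ d : (K v)ˣ, E (d : K v) × E (d : K v)) = _
    have e1 : (1 : GaussianInt) • P' v + (0 : GaussianInt) • P' v +
      (0 : GaussianInt) • T (s v).1.ne_zero = P' v := by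
      rw [one_smul, zero_smul, zero_smul, add_zero, add_zero]
    have e2 : (1 : GaussianInt) • P' v + (-1 : GaussianInt) • P' v +
      (0 : GaussianInt) • T (s v).1.ne_zero = 0 := by
      rw [one_smul, zero_smul, neg_smul, one_smul, add_zero, add_neg_cancel]
    rw [e1, e2]
    rfl
  · rw [hs v hv]
    have : (0 : E ((s v).1 : K v)) - 0 ∈ nbh (c v) ((s v).1 : K v) n := by
      rw [sub_zero]; exact nbh_zero'
    exact this

/-- `App` is stable -/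
theorem app_stable [∀ v, CompleteSpace (K v)] (hnt : ∀ v, ∃ x : K v, 1 < ‖x‖)
    (hc : ∀ v, 1 < c v)
    (hφ : ∀ v a, φ v (algebraMap GaussianInt k a) = algebraMap GaussianInt (K v) a)
    (hwa : ∀ (x : ∀ v, K v) (ε : ℝ), 0 < ε → ∃ t : k, ∀ v ∈ A, ‖φ v t - x v‖ < ε) :
    Stable (fun v => KLD (K v) (c v)) A (App φ c A) where
  dep _ _ h hs := App.dep h hs
  cl _ h := App.cl hc h
  aff α β γ δ κ μ _ _ hs := App.aff hφ hc hs α β γ δ κ μ
  sig _ _ hs hS := App.sig hnt hc hs hS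
  base s hs := App.base hnt hc hφ hwa s hs

/-- density in the product over all places -/
theorem dense_of_app [∀ v, CompleteSpace (K v)] (hc : ∀ v, 1 < c v)
    (h : ∀ (A : Finset ι) (s : ∀ v, Σ d : (K v)ˣ, E (d : K v) × E (d : K v)), App φ c A s) :
    DenseRange (fun (u : Pt k) (v : ι) => Pt.map (φ v) u) := by
  intro w
  rw [mem_closure_iff_nhds]
  intro N hN
  rw [nhds_pi, Filter.mem_pi] at hN
  obtain ⟨I, hI, U, hU, hUN⟩ := hN
  choose d P Q hrep using fun v => exists_rep (w v)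
  have h1 : Near φ hI.toFinset w := near_of_app hc
    (h hI.toFinset (fun v => ⟨d v, P v, Q v⟩)) (fun v _ => hrep v)
  obtain ⟨u, hu⟩ := h1 U (fun v _ => hU v)
  refine ⟨_, hUN ?_, u, rfl⟩
  intro v hv
  exact hu v (hI.mem_toFinset.2 hv)

end glob

end GWA
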