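import Pool.Agent.Helper9.GWA.Asm

/-!
# From the complex embedding to the infinite places
-/

namespace GWA

open NumberField IsDedekindDomain Module

section

variable {K : Type} [Field K] [NumberField K] [Algebra GaussianInt K]

theorem sigma_cases (h2 : finrank ℚ K = 2) (σ τ : K →+* ℂ) :
    (∀ x, τ x = σ x) ∨ (∀ x, τ x = (starRingEnd ℂ) (σ x)) := by
  have h1 : ∀ σ : K →+* ℂ, σ (II K) ^ 2 = -1 := by
    intro σ
    rw [← map_pow, II_sq, map_neg, map_one]
  have h3 : ∀ σ : K →+* ℂ, σ (II K) = Complex.I ∨ σ (II K) = -Complex.I := by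
    intro σ
    have : (σ (II K) - Complex.I) * (σ (II K) + Complex.I) = 0 := by
      have : (σ (II K) - Complex.I) * (σ (II K) + Complex.I) = σ (II K) ^ 2 - Complex.I ^ 2 := by
        ring
      rw [this, h1, Complex.I_sq]; ring
    rcases mul_eq_zero.1 this with h | h
    · exact Or.inl (sub_eq_zero.1 h)
    · exact Or.inr (eq_neg_of_add_eq_zero_left h)
  have h4 : τ (II K) = σ (II K) ∨ τ (II K) = (starRingEnd ℂ) (σ (II K)) := by
    rcases h3 σ with h | h <;> rcases h3 τ with h' | h' <;> rw [h, h'] <;> simp
  rcases h4 with h | h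
  · left
    intro x
    obtain ⟨p, q, rfl⟩ := gi_span h2 x
    simp only [map_add, map_mul, map_ratCast, h]
  · right
    intro x
    obtain ⟨p, q, rfl⟩ := gi_span h2 x
    simp only [map_add, map_mul, map_ratCast, h]

theorem isComplex_of_i (w : InfinitePlace K) : w.IsComplex := by
  rcases w.isReal_or_isComplex with h | h
  · exfalso
    have h1 : (w.embedding_of_isReal h) (II K) ^ 2 = -1 := by
      rw [← map_pow, II_sq, map_neg, map_one]
    nlinarith [sq_nonneg ((w.embedding_of_isReal h) (II K))]
  · exact h

/-- the isomorphism of `ℂ` with the completion at an infinite place -/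
theorem exists_psi (h2 : finrank ℚ K = 2) (σ : K →+* ℂ) (w : InfinitePlace K) :
    ∃ ψ : ℂ ≃+* w.Completion, Continuous ψ ∧ ∀ x, ψ (σ x) = algebraMap K w.Completion x := by
  have hw := isComplex_of_i w
  have key : ∀ z : ℂ, ∀ x : K, z = w.embedding x →
      (InfinitePlace.Completion.ringEquivComplexOfIsComplex hw).symm z =
        algebraMap K w.Completion x := by
    intro z x hz
    rw [RingEquiv.symm_apply_eq, InfinitePlace.Completion.ringEquivComplexOfIsComplex_apply]
    rw [hz]
    exact (InfinitePlace.Completion.extensionEmbedding_coe w _).symm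
  have hc : Continuous (InfinitePlace.Completion.ringEquivComplexOfIsComplex hw).symm :=
    (InfinitePlace.Completion.isometryEquivComplexOfIsComplex hw).symm.continuous
  rcases sigma_cases h2 σ w.embedding with h | h
  · exact ⟨(InfinitePlace.Completion.ringEquivComplexOfIsComplex hw).symm, hc,
      fun x => key _ _ (h x).symm⟩
  · refine ⟨Complex.conjAe.toRingEquiv.trans
      (InfinitePlace.Completion.ringEquivComplexOfIsComplex hw).symm, ?_, fun x => ?_⟩
    · exact hc.comp Complex.continuous_conj
    · exact key _ _ (h x).symm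

theorem subsingleton_inf (h2 : finrank ℚ K = 2) : Subsingleton (InfinitePlace K) := by
  constructor
  intro v w
  rw [← InfinitePlace.mk_embedding v, ← InfinitePlace.mk_embedding w, InfinitePlace.mk_eq_iff]
  rcases sigma_cases h2 v.embedding w.embedding with h | h
  · left
    exact RingHom.ext fun x => (h x).symm
  · right
    exact RingHom.ext fun x => (h x).symm

end

theorem Pt.continuous_map {K L : Type*} [Field K] [Field L] [TopologicalSpace K]
    [TopologicalSpace L] (φ : K →+* L) (hφ : Continuous φ) : Continuous (Pt.map φ) := by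
  apply Continuous.subtype_mk
  have h : Continuous fun u : Pt K => (u.1 : K × K × K) := continuous_subtype_val
  exact (hφ.comp h.fst).prodMk ((hφ.comp h.snd.fst).prodMk (hφ.comp h.snd.snd))

theorem Pt.map_comp {K L M : Type*} [Field K] [Field L] [Field M] (φ : K →+* L) (ψ : L →+* M)
    (χ : K →+* M) (h : ∀ x, ψ (φ x) = χ x) (u : Pt K) :
    Pt.map ψ (Pt.map φ u) = Pt.map χ u := by
  apply Pt.ext <;> exact h _

/-- passing to the infinite places -/
theorem final_of_sigma {K : Type} [Field K] [NumberField K] [Algebra GaussianInt K]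
    (h2 : finrank ℚ K = 2) (σ : K →+* ℂ)
    (H : DenseRange (fun (u : Pt K) (o : Option (HeightOneSpectrum (𝓞 K))) =>
      Pt.map (emb σ o) u)) :
    DenseRange (fun u : Pt K => ((fun v : HeightOneSpectrum (𝓞 K) =>
      Pt.map (algebraMap K (v.adicCompletion K)) u), (fun w : InfinitePlace K =>
        Pt.map (algebraMap K w.Completion) u))) := by
  choose ψ hψc hψ using exists_psi h2 σ
  have := subsingleton_inf (K := K) h2
  let G : (∀ o, Pt (KK K o)) → (∀ v : HeightOneSpectrum (𝓞 K), Pt (v.adicCompletion K)) ×
      (∀ w : InfinitePlace K, Pt w.Completion) := fun f =>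
    (fun v => f (some v), fun w => Pt.map (ψ w).toRingHom (f none))
  have hG : Continuous G := by
    refine Continuous.prodMk ?_ ?_
    · exact continuous_pi fun v => continuous_apply (some v)
    · refine continuous_pi fun w => ?_
      exact (Pt.continuous_map _ (hψc w)).comp (continuous_apply none)
  have hs : Function.Surjective G := by
    rintro ⟨a, b⟩
    obtain ⟨w₀⟩ : Nonempty (InfinitePlace K) := inferInstance
    refine ⟨fun o => match o with
      | none => Pt.map (ψ w₀).symm.toRingHom (b w₀)
      | some v => a v, ?_⟩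
    refine Prod.ext rfl ?_
    funext w
    obtain rfl : w = w₀ := Subsingleton.elim _ _
    change Pt.map (ψ w).toRingHom (Pt.map (ψ w).symm.toRingHom (b w)) = b w
    rw [Pt.map_comp _ _ (RingHom.id _) (fun x => (ψ w).apply_symm_apply x)]
    rfl
  have h3 := hs.denseRange.comp H hG
  have h4 : (G ∘ fun (u : Pt K) (o : Option (HeightOneSpectrum (𝓞 K))) => Pt.map (emb σ o) u) =
      (fun u : Pt K => ((fun v : HeightOneSpectrum (𝓞 K) =>
        Pt.map (algebraMap K (v.adicCompletion K)) u), (fun w : InfinitePlace K =>
        Pt.map (algebraMap K w.Completion) u))) := by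
    funext u
    refine Prod.ext rfl ?_
    funext w
    exact Pt.map_comp _ _ _ (hψ w) u
  rw [h4] at h3
  exact h3

end GWA

namespace GWA

open NumberField IsDedekindDomain Module

/-- the final assembly -/
theorem final_of_local (K : Type) [Field K] [NumberField K] (i : K) (hi : i ^ 2 = -1)
    (h2 : finrank ℚ K = 2)
    (hT : ∀ (L : Type) [NormedField L] [Algebra GaussianInt L] [NeZero (2 : L)] [DecidableEq L]
      (π : GaussianInt), LocHyp L π → ¬ π ∣ 2 →
        (KLD L ‖algebraMap GaussianInt L π‖⁻¹).TameAx π)
    (hL : ∀ (L : Type) [NormedField L] [Algebra GaussianInt L] [NeZero (2 : L)] [DecidableEq L],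
      LocHyp L lam → (KLD L ‖algebraMap GaussianInt L lam‖⁻¹).LamAx)
    (hI : letI : Algebra GaussianInt ℂ := GaussianInt.toComplex.toAlgebra
      ∀ [DecidableEq ℂ], (KLD ℂ 2).InfAx) :
    DenseRange (fun u : Pt K => ((fun v : HeightOneSpectrum (𝓞 K) =>
      Pt.map (algebraMap K (v.adicCompletion K)) u), (fun w : InfinitePlace K =>
        Pt.map (algebraMap K w.Completion) u))) := by
  letI : Algebra GaussianInt K := (Zsqrtd.lift ⟨i, by
    rw [← pow_two, hi, Int.cast_neg, Int.cast_one]⟩ : GaussianInt →+* K).toAlgebra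
  obtain ⟨σ, hσ⟩ := exists_sigma (K := K)
  exact final_of_sigma h2 σ (density_of_local h2 σ hσ hT hL hI)

end GWA
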