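import Pool.Agent.Helper9.GWA.Fax
import Pool.Agent.Helper31.GWA.SIGA
import Pool.Agent.Helper64.GWA.SIGB
import Pool.Agent.Helper42.GWA.SIGC
import Pool.Agent.Helper10.GWA.Cyc

/-!
# The axioms `TameAx` at the places not above 2, given local transitivity
-/

namespace GWA

variable {K : Type} [NormedField K] [Algebra GaussianInt K] [NeZero (2 : K)] [DecidableEq K]
  {π : GaussianInt}

theorem two_mul_smul_T (d : Kˣ) (α : GaussianInt) : (2 * α) • T d.ne_zero = (0 : E (d : K)) := by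
  rw [mul_comm, mul_smul, two_smul_T, smul_zero]

theorem smul_T_cases (d : Kˣ) (κ : GaussianInt) :
    κ • T d.ne_zero = (0 : E (d : K)) ∨ κ • T d.ne_zero = T d.ne_zero ∨
      κ • T d.ne_zero = gi • T d.ne_zero ∨ κ • T d.ne_zero = T₀ d.ne_zero := by
  obtain ⟨a, b⟩ := κ
  obtain ⟨a', r, hr, rfl⟩ : ∃ a' r : ℤ, (r = 0 ∨ r = 1) ∧ a = 2 * a' + r := by
    rcases Int.even_or_odd' a with ⟨k, rfl | rfl⟩
    · exact ⟨k, 0, Or.inl rfl, by ring⟩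
    · exact ⟨k, 1, Or.inr rfl, rfl⟩
  obtain ⟨b', s, hs, rfl⟩ : ∃ b' s : ℤ, (s = 0 ∨ s = 1) ∧ b = 2 * b' + s := by
    rcases Int.even_or_odd' b with ⟨k, rfl | rfl⟩
    · exact ⟨k, 0, Or.inl rfl, by ring⟩
    · exact ⟨k, 1, Or.inr rfl, rfl⟩
  have e : (⟨2 * a' + r, 2 * b' + s⟩ : GaussianInt) = 2 * ⟨a', b'⟩ + ⟨r, s⟩ := by
    ext <;> simp
  rw [e, add_smul, two_mul_smul_T, zero_add]
  rcases hr with rfl | rfl <;> rcases hs with rfl | rfl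
  · left; exact zero_smul _ _
  · right; right; left; rfl
  · right; left; exact one_smul _ _
  · right; right; right; exact lam_smul_T d

theorem sig_swap {d : Kˣ} {P Q : E (d : K)}
    (h : ∃ t' ∈ (FLD K π).NN, (FLD K π).S t' ⟨d, P, Q⟩) :
    ∃ t' ∈ (FLD K π).NN, (FLD K π).S t' ⟨d, Q, P⟩ := by
  obtain ⟨⟨d', P', Q'⟩, ⟨κ, μ, η₁, hη₁, η₂, hη₂, e⟩, hS⟩ := h
  refine ⟨⟨d', Q', P'⟩, ⟨μ, κ, η₂, hη₂, η₁, hη₁, ?_⟩, SRel.swap hS⟩
  rw [Sigma.mk.injEq] at e ⊢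
  refine ⟨rfl, ?_⟩
  have e2 := eq_of_heq e.2
  rw [Prod.mk.injEq] at e2
  exact heq_of_eq (Prod.ext e2.2 e2.1)

theorem LocHyp.tameAx_of_trans (h : LocHyp K π) (hodd : ¬ π ∣ 2)
    (htr : ∀ A : Set (FLD K π).Sys, (FLD K π).LStable A → (FLD K π).NN ⊆ A → A = Set.univ) :
    (FLD K π).TameAx π := by
  have hη0 : ∀ {d : Kˣ} {c : ℕ} {η : E (d : K)}, η ∈ nb π (d : K) c →
      η ∉ nb π (d : K) (c + 1) → η ∈ nb π (d : K) 0 ∧ η ≠ 0 := by
    intro d c η h1 h2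
    refine ⟨nbh_anti h.one_lt_inv.le _ (Nat.zero_le c) h1, ?_⟩
    rintro rfl
    exact h2 (zero_mem_nbh _ _ _)
  refine { h.finAx_of_expo (h.expo_tame hodd) with
    odd := hodd
    sigNN := ?_
    sigTT := ?_
    sigT1 := ?_
    trans := htr }
  · intro (d : Kˣ) c (η : E (d : K)) hη hη' κ μ
    change η ∈ nb π (d : K) c at hη
    change η ∉ nb π (d : K) (c + 1) at hη'
    obtain ⟨h0, hne⟩ := hη0 hη hη'
    have main : ∀ X Y : E (d : K), (X = 0 ∨ X = T d.ne_zero ∨ X = gi • T d.ne_zero ∨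
        X = T₀ d.ne_zero) → (Y = 0 ∨ Y = T d.ne_zero ∨ Y = gi • T d.ne_zero ∨
        Y = T₀ d.ne_zero) → ∃ η₁ ∈ nb π (d : K) c, ∃ η₂ ∈ nb π (d : K) c,
        (η₁ ∉ nb π (d : K) (c + 1) ∨ η₂ ∉ nb π (d : K) (c + 1)) ∧
        ∃ t' ∈ (FLD K π).NN, (FLD K π).S t' ⟨d, X + η₁, Y + η₂⟩ := by
      have same : ∀ X Y : E (d : K), (∃ t' ∈ (FLD K π).NN, (FLD K π).S t' ⟨d, X + η, Y + η⟩) →
          ∃ η₁ ∈ nb π (d : K) c, ∃ η₂ ∈ nb π (d : K) c,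
          (η₁ ∉ nb π (d : K) (c + 1) ∨ η₂ ∉ nb π (d : K) (c + 1)) ∧
          ∃ t' ∈ (FLD K π).NN, (FLD K π).S t' ⟨d, X + η₁, Y + η₂⟩ := fun X Y hh =>
        ⟨η, hη, η, hη, Or.inl hη', hh⟩
      have nn : ∀ {X Y : E (d : K)} {κ' μ' : GaussianInt},
          (∃ t' ∈ (FLD K π).NNε κ' μ', (FLD K π).S t' ⟨d, X, Y⟩) →
          ∃ t' ∈ (FLD K π).NN, (FLD K π).S t' ⟨d, X, Y⟩ := by
        rintro X Y κ' μ' ⟨t', h1, h2⟩
        exact ⟨t', ⟨κ', μ', h1⟩, h2⟩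
      intro X Y hX hY
      rcases hX with rfl | rfl | rfl | rfl <;> rcases hY with rfl | rfl | rfl | rfl
      · obtain ⟨η₁, h1, η₂, h2, h3, h4⟩ := h.sig_inf_inf hodd d c η hη hη'
        exact ⟨η₁, h1, η₂, h2, h3, by rw [zero_add, zero_add]; exact nn h4⟩
      · exact same _ _ (by rw [zero_add]; exact nn (h.sig_inf_T hodd d η h0 hne))
      · exact same _ _ (by rw [zero_add]; exact nn (h.sig_inf_r2 hodd d η h0 hne))
      · exact same _ _ (by rw [zero_add]; exact nn (h.sig_inf_r1 hodd d η h0 hne))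
      · exact same _ _ (sig_swap (by rw [zero_add]; exact nn (h.sig_inf_T hodd d η h0 hne)))
      · obtain ⟨η₁, h1, η₂, h2, h3, h4⟩ := h.sig_T_T hodd d c η hη hη'
        exact ⟨η₁, h1, η₂, h2, h3, nn h4⟩
      · exact same _ _ (nn (h.sig_T_r2 hodd d η h0 hne))
      · exact same _ _ (nn (h.sig_T_r1 hodd d η h0 hne))
      · exact same _ _ (sig_swap (by rw [zero_add]; exact nn (h.sig_inf_r2 hodd d η h0 hne)))
      · exact same _ _ (sig_swap (nn (h.sig_T_r2 hodd d η h0 hne)))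
      · exact same _ _ (nn (h.sig_r2_r2 hodd d η h0 hne))
      · obtain ⟨η₁, h1, η₂, h2, h3, h4⟩ := h.sig_r1_r2 hodd d c η hη hη'
        exact ⟨η₂, h2, η₁, h1, h3.symm, sig_swap (nn h4)⟩
      · exact same _ _ (sig_swap (by rw [zero_add]; exact nn (h.sig_inf_r1 hodd d η h0 hne)))
      · exact same _ _ (sig_swap (nn (h.sig_T_r1 hodd d η h0 hne)))
      · obtain ⟨η₁, h1, η₂, h2, h3, h4⟩ := h.sig_r1_r2 hodd d c η hη hη'
        exact ⟨η₁, h1, η₂, h2, h3, nn h4⟩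
      · exact same _ _ (nn (h.sig_r1_r1 hodd d η h0 hne))
    exact main _ _ (smul_T_cases d κ) (smul_T_cases d μ)
  · intro d c η hη hη'
    exact h.sig_T_T hodd d c η hη hη'
  · intro (d : Kˣ) c (η : E (d : K)) hη hη'
    change η ∈ nb π (d : K) c at hη
    change η ∉ nb π (d : K) (c + 1) at hη'
    obtain ⟨h0, hne⟩ := hη0 hη hη'
    refine ⟨η, hη, η, hη, Or.inl hη', ?_⟩
    have h1 := h.sig_T_r1 hodd d η h0 hne
    rw [← lam_smul_T] at h1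
    exact h1

end GWA
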