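import Pool.Agent.Helper15.WA.Com
import Pool.Agent.Helper10.GWA.Ind
import Pool.Agent.Helper10.GWA.LB

/-!
# The place above 2
-/

namespace GWA

open LD

namespace LamP

/-! ### ultrametric inequalities -/

section um

variable {K : Type*} [NormedField K] (hu : ∀ x y : K, ‖x + y‖ ≤ max ‖x‖ ‖y‖)

include hu in
theorem add_le {x y : K} {r : ℝ} (hx : ‖x‖ ≤ r) (hy : ‖y‖ ≤ r) : ‖x + y‖ ≤ r :=
  (hu x y).trans (max_le hx hy)

include hu in
theorem add_lt {x y : K} {r : ℝ} (hx : ‖x‖ < r) (hy : ‖y‖ < r) : ‖x + y‖ < r :=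
  lt_of_le_of_lt (hu x y) (max_lt hx hy)

include hu in
theorem sub_le {x y : K} {r : ℝ} (hx : ‖x‖ ≤ r) (hy : ‖y‖ ≤ r) : ‖x - y‖ ≤ r := by
  rw [sub_eq_add_neg]; exact add_le hu hx (by rwa [norm_neg])

include hu in
theorem sub_lt {x y : K} {r : ℝ} (hx : ‖x‖ < r) (hy : ‖y‖ < r) : ‖x - y‖ < r := by
  rw [sub_eq_add_neg]; exact add_lt hu hx (by rwa [norm_neg])

include hu in
theorem add_eq {x y : K} (h : ‖y‖ < ‖x‖) : ‖x + y‖ = ‖x‖ := by
  apply le_antisymm (add_le hu le_rfl h.le)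
  by_contra hlt
  rw [not_le] at hlt
  have h1 : ‖x + y - y‖ < ‖x‖ := sub_lt hu hlt h
  rw [add_sub_cancel_right] at h1
  exact lt_irrefl _ h1

include hu in
theorem sub_eq {x y : K} (h : ‖y‖ < ‖x‖) : ‖x - y‖ = ‖x‖ := by
  rw [sub_eq_add_neg]; exact add_eq hu (by rwa [norm_neg])

include hu in
theorem add_eq' {x y : K} (h : ‖x‖ < ‖y‖) : ‖x + y‖ = ‖y‖ := by
  rw [add_comm]; exact add_eq hu h

include hu in
theorem sub_eq' {x y : K} (h : ‖x‖ < ‖y‖) : ‖x - y‖ = ‖y‖ := by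
  rw [← norm_neg, neg_sub]; exact sub_eq hu h

include hu in
theorem nat_le (n : ℕ) : ‖(n : K)‖ ≤ 1 := by
  induction n with
  | zero => simp
  | succ n ih => push_cast; exact add_le hu ih (by simp)

include hu in
theorem int_le (n : ℤ) : ‖(n : K)‖ ≤ 1 := by
  obtain ⟨m, rfl | rfl⟩ := n.eq_nat_or_neg
  · rw [Int.cast_natCast]; exact nat_le hu m
  · rw [Int.cast_neg, Int.cast_natCast, norm_neg]; exact nat_le hu m

end um

section base

variable {K : Type} [NormedField K] [Algebra GaussianInt K]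

/-- the absolute value of the uniformizer -/
noncomputable abbrev q (K : Type) [NormedField K] [Algebra GaussianInt K] : ℝ :=
  ‖algebraMap GaussianInt K lam‖

theorem map_lam : algebraMap GaussianInt K lam = 1 + II K := by
  have : lam = 1 + (⟨0, 1⟩ : GaussianInt) := by decide
  rw [this, map_add, map_one]; rfl

theorem norm_II : ‖II K‖ = 1 := by
  have h := congrArg norm (II_sq K)
  rw [norm_pow, norm_neg, norm_one] at h
  exact (pow_eq_one_iff_of_nonneg (norm_nonneg _) two_ne_zero).1 h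

theorem norm_two : ‖(2 : K)‖ = q K ^ 2 := by
  have h : (1 + II K) ^ 2 = 2 * II K := by linear_combination II_sq K
  have h2 := congrArg norm h
  rw [norm_pow, norm_mul, norm_II, mul_one, ← map_lam] at h2
  exact h2.symm

theorem norm_sub_II : ‖(1 : K) - II K‖ = q K := by
  have h : (1 : K) - II K = -II K * (1 + II K) := by linear_combination II_sq K
  rw [h, norm_mul, norm_neg, norm_II, one_mul, ← map_lam]

variable (h : LocHyp K lam)

include h

theorem q_lt : q K < 1 := h.norm_pi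

theorem q_pos : 0 < q K := by
  have := h.char0
  rw [norm_pos_iff, map_lam]
  intro h0
  have h1 := II_sq K
  have h2 : (2 : K) = 0 := by linear_combination (1 - II K) * h0 + h1
  exact two_ne_zero h2

theorem disc {x : K} {n : ℕ} (hx : ‖x‖ < q K ^ n) : ‖x‖ ≤ q K ^ (n + 1) := by
  by_cases hx0 : x = 0
  · rw [hx0, norm_zero]; exact pow_nonneg (norm_nonneg _) _
  obtain ⟨m, hm⟩ := h.unif x hx0
  rw [hm] at hx ⊢
  have h1 : (n : ℤ) < m := by
    by_contra hle
    rw [not_lt] at hle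
    have := zpow_le_zpow_right_of_le_one₀ (q_pos h) (q_lt h).le hle
    rw [zpow_natCast] at this
    exact absurd hx (not_lt.2 this)
  have h2 : ((n + 1 : ℕ) : ℤ) ≤ m := by push_cast; omega
  have := zpow_le_zpow_right_of_le_one₀ (q_pos h) (q_lt h).le h2
  rwa [zpow_natCast] at this

/-- large elements -/
theorem disc_inv {x : K} (hx : 1 < ‖x‖) : (q K)⁻¹ ≤ ‖x‖ := by
  have h1 : ‖x⁻¹‖ < q K ^ 0 := by
    rw [norm_inv, pow_zero]; exact inv_lt_one_of_one_lt₀ hx
  have h2 := disc h h1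
  rw [zero_add, pow_one, norm_inv] at h2
  exact inv_le_of_inv_le₀ (by linarith) h2

theorem res_two {x : K} (hx : ‖x‖ ≤ 1) : ‖x‖ < 1 ∨ ‖x - 1‖ < 1 := by
  obtain ⟨a, ha⟩ := h.res x hx
  obtain ⟨α, β⟩ := a
  have e1 : algebraMap GaussianInt K ⟨α, β⟩ = ((α + β : ℤ) : K) - β * (1 - II K) := by
    have : (⟨α, β⟩ : GaussianInt) = (α : GaussianInt) + (β : GaussianInt) * ⟨0, 1⟩ := by
      ext <;> simp
    rw [this, map_add, map_mul, map_intCast, map_intCast]
    have : algebraMap GaussianInt K ⟨0, 1⟩ = II K := rfl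
    rw [this]
    push_cast; ring
  have h2 : ‖(β : K) * (1 - II K)‖ < 1 := by
    rw [norm_mul, norm_sub_II]
    calc ‖(β : K)‖ * q K ≤ 1 * q K := by
          apply mul_le_mul_of_nonneg_right (int_le h.ultra β) (norm_nonneg _)
      _ < 1 := by rw [one_mul]; exact q_lt h
  have h3 : ‖x - ((α + β : ℤ) : K)‖ < 1 := by
    have : x - ((α + β : ℤ) : K) = (x - algebraMap GaussianInt K ⟨α, β⟩) - β * (1 - II K) := by
      rw [e1]; ring
    rw [this]
    exact sub_lt h.ultra ha h2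
  have h22 : ‖(2 : K)‖ < 1 := by
    rw [norm_two]
    exact pow_lt_one₀ (norm_nonneg _) (q_lt h) two_ne_zero
  have hev : ∀ n : ℤ, ‖((2 * n : ℤ) : K)‖ < 1 := by
    intro n
    push_cast
    rw [norm_mul]
    calc ‖(2 : K)‖ * ‖(n : K)‖ ≤ ‖(2 : K)‖ * 1 := by
          apply mul_le_mul_of_nonneg_left (int_le h.ultra n) (norm_nonneg _)
      _ < 1 := by rwa [mul_one]
  rcases Int.even_or_odd' (α + β) with ⟨n, hn | hn⟩
  · left
    rw [hn] at h3
    have : x = (x - ((2 * n : ℤ) : K)) + ((2 * n : ℤ) : K) := by ring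
    rw [this]
    exact add_lt h.ultra h3 (hev n)
  · right
    rw [hn] at h3
    have : x - 1 = (x - ((2 * n + 1 : ℤ) : K)) + ((2 * n : ℤ) : K) := by push_cast; ring
    rw [this]
    exact add_lt h.ultra h3 (hev n)

/-- two elements of the same absolute value -/
theorem same_sub {a b : K} (hab : ‖a‖ = ‖b‖) (hb : b ≠ 0) : ‖a - b‖ < ‖b‖ := by
  have hb' : 0 < ‖b‖ := norm_pos_iff.2 hb
  have h1 : ‖a / b‖ = 1 := by rw [norm_div, hab, div_self hb'.ne']
  rcases res_two h h1.le with h2 | h2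
  · rw [h1] at h2; exact absurd h2 (lt_irrefl _)
  · have : a - b = (a / b - 1) * b := by field_simp
    rw [this, norm_mul]
    exact mul_lt_of_lt_one_left hb' h2

theorem same_add {a b : K} (hab : ‖a‖ = ‖b‖) (hb : b ≠ 0) : ‖a + b‖ < ‖b‖ := by
  have := same_sub h (a := a) (b := -b) (by rwa [norm_neg]) (neg_ne_zero.2 hb)
  rwa [sub_neg_eq_add, norm_neg] at this

end base

section pts

variable {K : Type} [NormedField K] [Algebra GaussianInt K] [NeZero (2 : K)] [DecidableEq K]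

theorem two_T_zero (d : Kˣ) (α : GaussianInt) : α • T d.ne_zero + α • T d.ne_zero = 0 := by
  have h1 := two_smul_T d
  have : α • T d.ne_zero + α • T d.ne_zero = α • ((2 : GaussianInt) • T d.ne_zero) := by
    rw [two_smul, smul_add]
  rw [this, h1, smul_zero]

/-- `P` is in `E[2] + nb 0` -/
def E2F (d : Kˣ) (P : E (d : K)) : Prop :=
  ∃ κ : GaussianInt, P - κ • T d.ne_zero ∈ nb lam (d : K) 0

/-- `P` is of the third type -/
def J1 (d : Kˣ) (P : E (d : K)) : Prop := ‖nx P‖ = 1 ∧ ‖nx P - 1‖ = q K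

variable (h : LocHyp K lam)

include h

theorem mem_nb0 {d : Kˣ} {P : E (d : K)} (hP : 1 < ‖nx P‖) : P ∈ nb lam (d : K) 0 := by
  rw [mem_nbh_iff d.ne_zero]
  right
  rw [mul_zero, zero_add, pow_one]
  exact disc_inv h hP

omit [DecidableEq K] in
theorem nb0_iff {d : Kˣ} {P : E (d : K)} (hP : P ∈ nb lam (d : K) 0) : P = 0 ∨ 1 < ‖nx P‖ := by
  rw [mem_nbh_iff d.ne_zero, mul_zero, zero_add, pow_one] at hP
  refine hP.imp_right fun h1 => lt_of_lt_of_le ?_ h1
  exact (one_lt_inv₀ (q_pos h)).2 (q_lt h)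

theorem near_T₀ {d : Kˣ} {P : E (d : K)} (hP : P ≠ 0) (hx : ‖nx P‖ < 1) :
    P + T₀ d.ne_zero ∈ nb lam (d : K) 0 := by
  by_cases h0 : nx P = 0
  · have : P = T₀ d.ne_zero := by
      apply eq_T₀_of_xc _ hP
      rw [xc_eq d.ne_zero, h0, mul_zero]
    rw [this, T₀_add_T₀]
    exact zero_mem_nbh _ _ _
  · obtain ⟨h1, h2⟩ := nx_add_T₀ d.ne_zero hP h0
    apply mem_nb0 h
    rw [h2, norm_div, norm_neg, norm_one, lt_div_iff₀ (norm_pos_iff.2 h0), one_mul]
    exact hx

theorem near_T {d : Kˣ} {P : E (d : K)} (hP : P ≠ 0) (hx : ‖nx P - 1‖ < q K ^ 2) :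
    P + T d.ne_zero ∈ nb lam (d : K) 0 := by
  by_cases h0 : nx P = 1
  · have : P = T d.ne_zero := by
      apply eq_T_of_xc _ hP
      rw [xc_eq d.ne_zero, h0, mul_one]
    rw [this, T_add_T]
    exact zero_mem_nbh _ _ _
  · obtain ⟨h1, h2⟩ := nx_add_T d.ne_zero hP h0
    apply mem_nb0 h
    have h3 : ‖nx P + 1‖ = q K ^ 2 := by
      have : nx P + 1 = 2 + (nx P - 1) := by ring
      rw [this, add_eq h.ultra, norm_two]
      rwa [norm_two]
    rw [h2, norm_div, h3, lt_div_iff₀ (norm_pos_iff.2 (sub_ne_zero.2 h0)), one_mul]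
    exact hx

theorem nb_add' {d : Kˣ} {n : ℕ} {P Q : E (d : K)} (hP : P ∈ nb lam (d : K) n)
    (hQ : Q ∈ nb lam (d : K) n) : P + Q ∈ nb lam (d : K) n := h.nb_add d.ne_zero n hP hQ

theorem nb_smul' {d : Kˣ} {n : ℕ} {P : E (d : K)} (α : GaussianInt) (hP : P ∈ nb lam (d : K) n) :
    α • P ∈ nb lam (d : K) n := h.nb_smul d n α hP

theorem nb_neg' {d : Kˣ} {n : ℕ} {P : E (d : K)} (hP : P ∈ nb lam (d : K) n) :
    -P ∈ nb lam (d : K) n := neg_mem_nbh hP

theorem nb_sub' {d : Kˣ} {n : ℕ} {P Q : E (d : K)} (hP : P ∈ nb lam (d : K) n)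
    (hQ : Q ∈ nb lam (d : K) n) : P - Q ∈ nb lam (d : K) n := by
  rw [sub_eq_add_neg]
  exact nb_add' h hP (nb_neg' h hQ)

theorem near_iT {d : Kˣ} {P : E (d : K)} (hP : P ≠ 0) (hx : ‖nx P + 1‖ < q K ^ 2) :
    P + gi • T d.ne_zero ∈ nb lam (d : K) 0 := by
  have h1 : gi • P + T d.ne_zero ∈ nb lam (d : K) 0 := by
    apply near_T h (gi_smul_ne d hP)
    rw [nx_gi_smul]
    have : -nx P - 1 = -(nx P + 1) := by ring
    rwa [this, norm_neg]
  have h2 := nb_smul' h (-gi) h1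
  have e1 : (-gi) • (gi • P + T d.ne_zero) = P + gi • T d.ne_zero := by
    rw [smul_add, smul_smul]
    have : -gi * gi = 1 := by decide
    rw [this, one_smul, neg_smul]
    congr 1
    rw [neg_eq_iff_add_eq_zero]
    exact two_T_zero d gi
  rwa [e1] at h2

theorem E2F.of_add {d : Kˣ} {P : E (d : K)} (κ : GaussianInt)
    (hP : P + κ • T d.ne_zero ∈ nb lam (d : K) 0) : E2F d P := by
  refine ⟨κ, ?_⟩
  have : P - κ • T d.ne_zero = P + κ • T d.ne_zero := by
    rw [sub_eq_add_neg]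
    congr 1
    rw [neg_eq_iff_add_eq_zero]
    exact two_T_zero d κ
  rwa [this]

/-- classification of the points -/
theorem classify (d : Kˣ) (P : E (d : K)) : E2F d P ∨ J1 d P := by
  by_cases hP : P = 0
  · left
    refine ⟨0, ?_⟩
    rw [hP, zero_smul, sub_zero]
    exact zero_mem_nbh _ _ _
  rcases lt_trichotomy ‖nx P‖ 1 with hx | hx | hx
  · left
    apply E2F.of_add h lam
    rw [lam_smul_T]
    exact near_T₀ h hP hx
  · have h1 : ‖nx P - 1‖ < 1 := by
      rcases res_two h hx.le with h2 | h2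
      · rw [hx] at h2; exact absurd h2 (lt_irrefl _)
      · exact h2
    have h2 : ‖nx P - 1‖ ≤ q K := by
      have := disc h (n := 0) (by simpa using h1)
      simpa using this
    rcases h2.lt_or_eq with h3 | h3
    · left
      have h4 : ‖nx P - 1‖ ≤ q K ^ 2 := disc h (n := 1) (by simpa using h3)
      rcases h4.lt_or_eq with h5 | h5
      · apply E2F.of_add h 1
        rw [one_smul]
        exact near_T h hP h5
      · apply E2F.of_add h gi
        apply near_iT h hP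
        have h6 := same_add h (a := nx P - 1) (b := 2) (by rw [h5, norm_two]) two_ne_zero
        have : nx P - 1 + 2 = nx P + 1 := by ring
        rwa [this, norm_two] at h6
    · right; exact ⟨hx, h3⟩
  · left
    refine ⟨0, ?_⟩
    rw [zero_smul, sub_zero]
    exact mem_nb0 h hx

omit [DecidableEq K] in
theorem J1.norm_ff {d : Kˣ} {P : E (d : K)} (hP : J1 d P) : ‖ff (nx P)‖ = q K ^ 2 := by
  have h1 : ‖nx P + 1‖ = q K := by
    have : nx P + 1 = (nx P - 1) + 2 := by ring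
    rw [this, add_eq h.ultra, hP.2]
    rw [hP.2, norm_two, pow_two]
    exact mul_lt_of_lt_one_left (q_pos h) (q_lt h)
  have e : ff (nx P) = nx P * (nx P - 1) * (nx P + 1) := by unfold ff; ring
  rw [e, norm_mul, norm_mul, hP.1, hP.2, h1]; ring

omit [DecidableEq K] in
theorem ne_zero_of_norm {d : Kˣ} {P : E (d : K)} (hP : nx P ≠ 0) : P ≠ 0 := by
  rintro rfl
  exact hP nx_zero

omit [DecidableEq K] in
theorem yc_norm {d : Kˣ} {P : E (d : K)} (hf : ff (nx P) ≠ 0) :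
    ∃ k : ℤ, ‖(d : K)‖ * ‖ff (nx P)‖ = q K ^ (2 * k) := by
  have h1 := sq_ff_nx d.ne_zero P
  have h2 := congrArg norm h1
  rw [norm_pow, norm_mul] at h2
  have h3 : yc P / d ≠ 0 := by
    intro h0
    rw [h0] at h1
    have : (d : K) * ff (nx P) = 0 := by rw [← h1]; ring
    exact (mul_ne_zero d.ne_zero hf) this
  obtain ⟨k, hk⟩ := h.unif _ h3
  refine ⟨k, ?_⟩
  rw [← h2, hk, mul_comm 2 k, zpow_mul]
  norm_cast

omit [DecidableEq K] in
theorem J1.even {d : Kˣ} {P : E (d : K)} (hP : J1 d P) : ∃ k : ℤ, ‖(d : K)‖ = q K ^ (2 * k) := by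
  have h1 := hP.norm_ff h
  have hf : ff (nx P) ≠ 0 := by
    rw [← norm_pos_iff, h1]; exact pow_pos (q_pos h) 2
  obtain ⟨k, hk⟩ := yc_norm h hf
  rw [h1] at hk
  refine ⟨k - 1, ?_⟩
  have hq := (q_pos h).ne'
  have e : q K ^ (2 * (k - 1)) = q K ^ (2 * k) / q K ^ 2 := by
    rw [mul_sub, zpow_sub₀ hq]; norm_cast
  rw [e, ← hk]
  field_simp

omit [DecidableEq K] in
theorem even_odd {j k : ℤ} (hjk : q K ^ (2 * j) = q K ^ (2 * k + 1)) : False := by
  have := zpow_right_injective₀ (q_pos h) (q_lt h).ne hjk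
  omega

theorem J1.lam_smul {d : Kˣ} {P : E (d : K)} (hP : J1 d P) :
    lam • P + T d.ne_zero ∈ nb lam (d : K) 0 ∨
      lam • P + gi • T d.ne_zero ∈ nb lam (d : K) 0 := by
  have hq := q_pos h
  have hx0 : nx P ≠ 0 := by rw [← norm_pos_iff, hP.1]; exact one_pos
  have hP0 := ne_zero_of_norm h hx0
  obtain ⟨h1, h2⟩ := nx_lam_smul d hP0 hx0
  have hI : II K ≠ 0 := II_ne
  have h2' : (2 : K) ≠ 0 := two_ne_zero
  have hIsq := II_sq K
  set x := nx P with hx
  set w := nx (lam • P) with hw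
  have e1 : w - 1 = (x - II K) ^ 2 / (2 * II K * x) := by
    rw [h2]
    field_simp
    linear_combination -hIsq
  have e2 : w + 1 = (x + II K) ^ 2 / (2 * II K * x) := by
    rw [h2]
    field_simp
    linear_combination -hIsq
  have hden : ‖2 * II K * x‖ = q K ^ 2 := by
    rw [norm_mul, norm_mul, norm_two, norm_II, hP.1]; ring
  -- x - i, x + i
  have n1 : ‖x - II K‖ ≤ q K ^ 2 := by
    apply disc h (n := 1)
    have := same_add h (a := x - 1) (b := 1 - II K) (by rw [hP.2, norm_sub_II]) (by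
      rw [← norm_pos_iff, norm_sub_II]; exact hq)
    have e : x - 1 + (1 - II K) = x - II K := by ring
    rwa [e, norm_sub_II, ← pow_one (q K)] at this
  have n2 : ‖x + II K‖ ≤ q K ^ 2 := by
    apply disc h (n := 1)
    have hl : ‖(1 : K) + II K‖ = q K := by rw [← map_lam]
    have := same_add h (a := x - 1) (b := 1 + II K) (by rw [hP.2, hl]) (by
      rw [← norm_pos_iff, hl]; exact hq)
    have e : x - 1 + (1 + II K) = x + II K := by ring
    rwa [e, hl, ← pow_one (q K)] at this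
  have n3 : ‖x - II K‖ < q K ^ 2 ∨ ‖x + II K‖ < q K ^ 2 := by
    by_contra hcon
    push Not at hcon
    have e1 := le_antisymm n1 hcon.1
    have e2 := le_antisymm n2 hcon.2
    have h3 := same_sub h (a := x + II K) (b := x - II K) (by rw [e1, e2]) (by
      rw [← norm_pos_iff, e1]; positivity)
    have e : x + II K - (x - II K) = 2 * II K := by ring
    rw [e, norm_mul, norm_II, norm_two, e1, mul_one] at h3
    exact lt_irrefl _ h3
  have key : ∀ z : K, ‖z‖ < q K ^ 2 → ‖z ^ 2 / (2 * II K * x)‖ < q K ^ 2 := by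
    intro z hz
    rw [norm_div, hden, norm_pow, div_lt_iff₀ (by positivity), ← pow_two]
    exact pow_lt_pow_left₀ hz (norm_nonneg _) two_ne_zero
  rcases n3 with h3 | h3
  · left
    apply near_T h h1
    rw [← hw, e1]
    exact key _ h3
  · right
    apply near_iT h h1
    rw [← hw, e2]
    exact key _ h3

theorem T₀_not_mem (d : Kˣ) : T₀ d.ne_zero ∉ nb lam (d : K) 0 := by
  intro hm
  rcases nb0_iff h hm with h1 | h1
  · exact T₀_ne d.ne_zero h1
  · rw [nx_T₀, norm_zero] at h1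
    linarith

theorem J1.lam_lam {d : Kˣ} {P : E (d : K)} (hP : J1 d P) :
    lam • lam • P + T₀ d.ne_zero ∈ nb lam (d : K) 0 := by
  rcases hP.lam_smul h with h1 | h1
  · have h2 := nb_smul' h lam h1
    rwa [smul_add, lam_smul_T] at h2
  · have h2 := nb_smul' h lam h1
    rwa [smul_add, smul_comm lam gi (T d.ne_zero), lam_smul_T, gi_smul, im_T₀] at h2

theorem not_J1_of_E2F {d : Kˣ} {P : E (d : K)} (hP : E2F d P) : ¬ J1 d P := by
  intro hJ
  obtain ⟨κ, hκ⟩ := hP
  have h1 := hJ.lam_lam h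
  have h2 := nb_smul' h (lam * lam) hκ
  have e : (lam * lam) • (P - κ • T d.ne_zero) = lam • lam • P := by
    rw [smul_sub, smul_smul, smul_smul]
    have h3 : lam * lam * κ = (gi * κ) * 2 := by
      have : lam * lam = gi * 2 := by decide
      rw [this]; ring
    rw [h3, mul_smul _ (2 : GaussianInt), two_smul_T, smul_zero, sub_zero]
  rw [e] at h2
  have h4 := nb_sub' h h1 h2
  rw [add_sub_cancel_left] at h4
  exact T₀_not_mem h d h4

theorem J1.add {d : Kˣ} {P P' : E (d : K)} (hP : J1 d P) (hP' : J1 d P') : E2F d (P + P') := by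
  rcases classify h d (P + P') with h1 | h1
  · exact h1
  · exfalso
    have a1 := hP.lam_lam h
    have a2 := hP'.lam_lam h
    have a3 := h1.lam_lam h
    have a4 := nb_sub' h (nb_add' h a1 a2) a3
    have e : lam • lam • P + T₀ d.ne_zero + (lam • lam • P' + T₀ d.ne_zero) -
        (lam • lam • (P + P') + T₀ d.ne_zero) = T₀ d.ne_zero := by
      rw [smul_add, smul_add]; abel
    rw [e] at a4
    exact T₀_not_mem h d a4

/-- the exponent -/
theorem expo (d : Kˣ) (P : E (d : K)) : (2 * lam : GaussianInt) • P ∈ nb lam (d : K) 0 := by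
  have key : ∀ κ : GaussianInt, ∀ R : E (d : K), R + κ • T d.ne_zero ∈ nb lam (d : K) 0 →
      (2 : GaussianInt) • R ∈ nb lam (d : K) 0 := by
    intro κ R hR
    have h1 := nb_smul' h 2 hR
    have e : (2 : GaussianInt) • (R + κ • T d.ne_zero) = (2 : GaussianInt) • R := by
      rw [smul_add, smul_comm (2 : GaussianInt) κ, two_smul_T, smul_zero, add_zero]
    rwa [e] at h1
  rw [mul_smul]
  rcases classify h d P with ⟨κ, hκ⟩ | hJ
  · have h1 := nb_smul' h lam hκ
    rw [smul_sub, sub_eq_add_neg, ← smul_neg, ← neg_smul, smul_smul] at h1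
    exact key _ _ h1
  · rcases hJ.lam_smul h with h1 | h1
    · exact key 1 _ (by rwa [one_smul])
    · exact key gi _ h1


/-! ### the transitivity -/

section trans

variable (hF : (FLD K lam).FinAx lam)

include hF

variable {A : Set (FLD K lam).Sys} (hA : (FLD K lam).LStable A)
  (hb : ∀ d : Kˣ, ∀ P : E (d : K), (⟨d, P, (0 : E (d : K))⟩ : (FLD K lam).Sys) ∈ A)

include hA in
omit h hF in
theorem affm {d : Kˣ} {P Q : E (d : K)} (α β γ δ κ μ : GaussianInt)
    (hu : IsUnit (α * δ - β * γ)) (hm : (⟨d, P, Q⟩ : (FLD K lam).Sys) ∈ A) {P' Q' : E (d : K)}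
    (hP' : α • P + β • Q + κ • T d.ne_zero = P') (hQ' : γ • P + δ • Q + μ • T d.ne_zero = Q') :
    (⟨d, P', Q'⟩ : (FLD K lam).Sys) ∈ A := by
  have := hA.aff α β γ δ κ μ hu _ hm
  subst hP' hQ'
  exact this

include hA in
omit h hF in
theorem swapm {d : Kˣ} {P Q : E (d : K)} (hm : (⟨d, P, Q⟩ : (FLD K lam).Sys) ∈ A) :
    (⟨d, Q, P⟩ : (FLD K lam).Sys) ∈ A := by
  refine affm hA 0 1 1 0 0 0 ?_ hm ?_ ?_
  · exact ⟨-1, by simp⟩
  · simp
  · simp

omit [DecidableEq K] hF in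
theorem exists_level {d : Kˣ} {P : E (d : K)} (hP : P ≠ 0) : ∃ n, P ∉ nb lam (d : K) n := by
  have hc : 1 < (q K)⁻¹ := (one_lt_inv₀ (q_pos h)).2 (q_lt h)
  obtain ⟨n, hn⟩ := pow_unbounded_of_one_lt ‖nx P‖ hc
  refine ⟨n, fun hm => ?_⟩
  rw [mem_nbh_iff d.ne_zero] at hm
  have h1 := hm.resolve_left hP
  have h2 : (q K)⁻¹ ^ n ≤ (q K)⁻¹ ^ (2 * n + 1) := pow_le_pow_right₀ hc.le (by omega)
  linarith

include hA hb in
/-- pairs of points close to zero -/
theorem typeI0 {d : Kˣ} {P Q : E (d : K)} (hP : P ∈ nb lam (d : K) 0)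
    (hQ : Q ∈ nb lam (d : K) 0) : (⟨d, P, Q⟩ : (FLD K lam).Sys) ∈ A := by
  have main : ∀ {P Q : E (d : K)} (n : ℕ), P ∈ nb lam (d : K) n → P ∉ nb lam (d : K) (n + 1) →
      Q ∈ nb lam (d : K) n → (⟨d, P, Q⟩ : (FLD K lam).Sys) ∈ A := by
    intro P Q n h1 h2 h3
    apply hA.cl
    intro m
    obtain ⟨α, hα⟩ := hF.gen d n P h1 h2 Q h3 m
    refine ⟨⟨d, P, α • P⟩, ?_, P, α • P, rfl, ?_, ?_⟩
    · refine affm hA 1 0 α 1 0 0 ?_ (hb d P) ?_ ?_
      · exact ⟨1, by simp⟩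
      · simp
      · simp
    · change P - P ∈ nb lam (d : K) m
      rw [sub_self]; exact zero_mem_nbh _ _ _
    · change α • P - Q ∈ nb lam (d : K) m
      have h4 : Q - α • P ∈ nb lam (d : K) m := hα
      have := nb_neg' h h4
      rwa [neg_sub] at this
  by_cases hP0 : P = 0
  · rw [hP0]
    exact swapm hA (hb d Q)
  by_cases hQ0 : Q = 0
  · rw [hQ0]; exact hb d P
  obtain ⟨m, hm⟩ := exists_level h hP0
  obtain ⟨m', hm'⟩ := exists_level h hQ0
  obtain ⟨n, -, h1, h2⟩ := exists_lv hF (d := d) (η := P) (n := 0) hP hm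
  obtain ⟨n', -, h1', h2'⟩ := exists_lv hF (d := d) (η := Q) (n := 0) hQ hm'
  rcases le_total n n' with hnn | hnn
  · exact main n h1 h2 (fin_mono hF hnn h1')
  · exact swapm hA (main n' h1' h2' (fin_mono hF hnn h1))

include hA hb in
theorem typeI {d : Kˣ} {P Q : E (d : K)} (hP : E2F d P) (hQ : E2F d Q) :
    (⟨d, P, Q⟩ : (FLD K lam).Sys) ∈ A := by
  obtain ⟨κ, hκ⟩ := hP
  obtain ⟨μ, hμ⟩ := hQ
  refine affm hA 1 0 0 1 κ μ ?_ (typeI0 h hF hA hb hκ hμ) ?_ ?_
  · exact ⟨1, by simp⟩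
  · simp
  · simp

omit [DecidableEq K] hF in
theorem no_J1 {d : Kˣ} {k : ℤ} (hk : ‖(d : K)‖ = q K ^ (2 * k + 1)) (P : E (d : K)) : ¬ J1 d P := by
  intro hJ
  obtain ⟨j, hj⟩ := hJ.even h
  rw [hj] at hk
  exact even_odd h hk

omit [DecidableEq K] hF in
/-- the image of a point of type `(J1, nb 0)` lies on a ramified twist -/
theorem image {d : Kˣ} {P Q : E (d : K)} (hP : J1 d P) (hQ : Q ∈ nb lam (d : K) 0)
    (hQ0 : Q ≠ 0) : ∃ (d' : Kˣ) (P' Q' : E (d' : K)) (k : ℤ), SRel ⟨d, P, Q⟩ ⟨d', P', Q'⟩ ∧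
      ‖(d' : K)‖ = q K ^ (2 * k + 1) := by
  have hq := q_pos h
  have hq1 := q_lt h
  have hy1 := (nb0_iff h hQ).resolve_left hQ0
  have hx0 : nx P ≠ 0 := by rw [← norm_pos_iff, hP.1]; exact one_pos
  obtain ⟨k, hk⟩ := hP.even h
  set x := nx P with hx
  set y := nx Q with hy
  have hy0 : 0 < ‖y‖ := by linarith
  -- `‖y‖` is an even power
  have hffy : ‖ff y‖ = ‖y‖ ^ 3 := by
    have e : ff y = y * ((y - 1) * (y + 1)) := by unfold ff; ring
    have h1 : ‖y - 1‖ = ‖y‖ := sub_eq h.ultra (by rwa [norm_one])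
    have h2 : ‖y + 1‖ = ‖y‖ := add_eq h.ultra (by rwa [norm_one])
    rw [e, norm_mul, norm_mul, h1, h2]; ring
  have hffy0 : ff y ≠ 0 := by rw [← norm_pos_iff, hffy]; positivity
  have hffx := hP.norm_ff h
  rw [← hx] at hffx
  have hffx0 : ff x ≠ 0 := by rw [← norm_pos_iff, hffx]; positivity
  obtain ⟨j, hj⟩ := yc_norm h hffy0
  obtain ⟨m, hm⟩ := h.unif y (norm_pos_iff.1 hy0)
  have hm2 : ∃ m', m = 2 * m' := by
    rw [hk, hffy, hm] at hj
    have e1 : q K ^ (2 * k) * (q K ^ m) ^ 3 = q K ^ (2 * k + 3 * m) := by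
      rw [zpow_add₀ hq.ne', mul_comm (3 : ℤ), zpow_mul (q K) m 3]; norm_cast
    rw [e1] at hj
    have := zpow_right_injective₀ hq hq1.ne hj
    exact ⟨j - k - m, by omega⟩
  have hy2 : 1 ≤ q K ^ 2 * ‖y‖ := by
    obtain ⟨m', hm'⟩ := hm2
    have hm0 : m < 0 := by
      by_contra hle
      rw [not_lt] at hle
      have := zpow_le_one₀ hq hq1.le hle
      rw [← hm] at this
      linarith
    have : q K ^ 2 * ‖y‖ = q K ^ (2 + m) := by
      rw [zpow_add₀ hq.ne', hm]; norm_cast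
    rw [this]
    exact one_le_zpow_of_nonpos₀ hq hq1.le (by omega)
  -- norms
  have h3 : ‖(3 : K)‖ ≤ 1 := by
    have := nat_le h.ultra 3
    exact_mod_cast this
  have h3' : ‖(3 : K)‖ = 1 := by
    have : (3 : K) = 1 + 2 := by norm_num
    rw [this, add_eq h.ultra, norm_one]
    rw [norm_two, norm_one]
    exact pow_lt_one₀ hq.le hq1 two_ne_zero
  have hxn := hP.1
  rw [← hx] at hxn
  have hx1 := hP.2
  rw [← hx] at hx1
  have nS : ‖sS x y‖ = ‖y‖ := by
    have : sS x y = (x + 1) + y := by unfold sS; ring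
    rw [this, add_eq' h.ultra]
    exact lt_of_le_of_lt (add_le h.ultra hxn.le (by simp)) hy1
  have nQ1 : ‖2 * x - y - 1‖ = ‖y‖ := by
    have : 2 * x - y - 1 = (2 * x - 1) - y := by ring
    rw [this, sub_eq' h.ultra]
    refine lt_of_le_of_lt (sub_le h.ultra ?_ (by simp)) hy1
    rw [norm_mul, hxn, mul_one, norm_two]
    exact pow_le_one₀ hq.le hq1.le
  have nQ2 : ‖x - 2 * y + 1‖ = q K ^ 2 * ‖y‖ := by
    have : x - 2 * y + 1 = (x - 1) - (2 * y - 2) := by ring
    have h22 : ‖2 * y - 2‖ = q K ^ 2 * ‖y‖ := by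
      have h4 : ‖y - 1‖ = ‖y‖ := sub_eq h.ultra (by rwa [norm_one])
      have : 2 * y - 2 = 2 * (y - 1) := by ring
      rw [this, norm_mul, norm_two, h4]
    rw [this, sub_eq' h.ultra, h22]
    rw [h22, hx1]
    linarith
  have nQ : ‖sQ x y‖ = q K ^ 2 * ‖y‖ ^ 2 := by
    unfold sQ
    rw [norm_mul, nQ1, nQ2]; ring
  have nD : ‖sD x y‖ = q K * ‖y‖ := by
    have h4 : ‖y - 1‖ = ‖y‖ := sub_eq h.ultra (by rwa [norm_one])
    have e : sD x y = 3 * ((x - 1) * (y - 1)) + (2 * (y - 1) + 2 * (x - 1)) := by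
      unfold sD; ring
    have n1 : ‖3 * ((x - 1) * (y - 1))‖ = q K * ‖y‖ := by
      rw [norm_mul, norm_mul, h3', hx1, h4]; ring
    have n2 : ‖2 * (y - 1) + 2 * (x - 1)‖ < q K * ‖y‖ := by
      apply add_lt h.ultra
      · rw [norm_mul, norm_two, h4, pow_two]
        apply mul_lt_mul_of_pos_right _ hy0
        exact mul_lt_of_lt_one_left hq hq1
      · rw [norm_mul, norm_two, hx1]
        have : q K ^ 2 < ‖y‖ := lt_of_le_of_lt (pow_le_one₀ hq.le hq1.le) hy1
        nlinarith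
    rw [e, add_eq h.ultra, n1]
    rwa [n1]
  have hS0 : sS x y ≠ 0 := by rw [← norm_pos_iff, nS]; exact hy0
  have hQq0 : sQ x y ≠ 0 := by rw [← norm_pos_iff, nQ]; positivity
  have hD0 : sD x y ≠ 0 := by rw [← norm_pos_iff, nD]; positivity
  have hyP := (yc_ne_iff d.ne_zero P).2 hffx0
  have hyQ := (yc_ne_iff d.ne_zero Q).2 hffy0
  set u := mkPt d.ne_zero P Q hyP hyQ with hu
  have hux : u.x = x := rfl
  have huy : u.y = y := rfl
  have hI : IOK u := by
    refine ⟨?_, ?_, ?_⟩ <;> rw [hux, huy] <;> assumption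
  obtain ⟨d', P', Q', hrep⟩ := exists_rep (iota u hI)
  have hPx : nx P' = (iota u hI).x := by
    unfold nx; rw [← hrep.2.2.2.1, mul_div_cancel_right₀ _ hrep.1]
  have hff' : ff (nx P') = kap x y * ff x := by
    rw [hPx, iota_x, hux, huy]; exact ff_sx hD0
  have nkap : ‖kap x y‖ = q K ^ 3 := by
    unfold kap
    have h4 : ‖(-4 : K)‖ = q K ^ 4 := by
      have : (-4 : K) = -(2 * 2) := by norm_num
      rw [this, norm_neg, norm_mul, norm_two]; ring
    rw [norm_div, norm_mul, norm_mul, norm_pow, h4, nS, nQ, nD]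
    field_simp
  have hf0 : ff (nx P') ≠ 0 := by
    rw [hff', ← norm_pos_iff, norm_mul, nkap, hffx]; positivity
  obtain ⟨l, hl⟩ := yc_norm h hf0
  rw [hff', norm_mul, nkap, hffx] at hl
  refine ⟨d', P', Q', l - 3, ⟨u, hI, rep_mkPt d.ne_zero hyP hyQ, hrep⟩, ?_⟩
  have e : q K ^ (2 * (l - 3) + 1) = q K ^ (2 * l) / q K ^ 5 := by
    have : 2 * (l - 3) + 1 = 2 * l - 5 := by ring
    rw [this, zpow_sub₀ hq.ne']; norm_cast
  rw [e, ← hl]
  field_simp

include hA hb in
theorem typeII {d : Kˣ} {P Q : E (d : K)} (hP : J1 d P) (hQ : Q ∈ nb lam (d : K) 0) :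
    (⟨d, P, Q⟩ : (FLD K lam).Sys) ∈ A := by
  by_cases hQ0 : Q = 0
  · rw [hQ0]; exact hb d P
  obtain ⟨d', P', Q', k, hS, hk⟩ := image h hP hQ hQ0
  have h1 : (⟨d', P', Q'⟩ : (FLD K lam).Sys) ∈ A :=
    typeI h hF hA hb ((classify h d' P').resolve_right (no_J1 h hk _))
      ((classify h d' Q').resolve_right (no_J1 h hk _))
  exact hA.sig _ _ hS.symm h1

include hA hb in
theorem typeII' {d : Kˣ} {P Q : E (d : K)} (hP : J1 d P) (hQ : E2F d Q) :
    (⟨d, P, Q⟩ : (FLD K lam).Sys) ∈ A := by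
  obtain ⟨μ, hμ⟩ := hQ
  refine affm hA 1 0 0 1 0 μ ?_ (typeII h hF hA hb hP hμ) ?_ ?_
  · exact ⟨1, by simp⟩
  · simp
  · simp

include hA hb in
theorem all_mem (t : (FLD K lam).Sys) : t ∈ A := by
  obtain ⟨d, P, Q⟩ := t
  rcases classify h d P with hP | hP
  · rcases classify h d Q with hQ | hQ
    · exact typeI h hF hA hb hP hQ
    · exact swapm hA (typeII' h hF hA hb hQ hP)
  · rcases classify h d Q with hQ | hQ
    · exact typeII' h hF hA hb hP hQ
    · refine affm hA 1 0 (-1) 1 0 0 ?_ (typeII' h hF hA hb hP (hP.add h hQ)) ?_ ?_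
      · exact ⟨1, by simp⟩
      · simp
      · simp

end trans

end pts

end LamP

/-- the exponent at the place above 2 -/
theorem LocHyp.lam_expo {K : Type} [NormedField K] [Algebra GaussianInt K] [NeZero (2 : K)]
    [DecidableEq K] (h : LocHyp K lam) (d : Kˣ) :
    ∃ a : GaussianInt, a ≠ 0 ∧ (∀ P : E (d : K), a • P ∈ nb lam (d : K) 0) ∧
      ∀ π' : GaussianInt, Prime π' → ¬ π' ∣ 2 → lam.norm.natAbs ≤ π'.norm.natAbs →
        ¬ π' ∣ a := by
  refine ⟨2 * lam, by decide, LamP.expo h d, ?_⟩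
  intro π' hp h2 _ hd
  rcases hp.dvd_or_dvd hd with h3 | h3
  · exact h2 h3
  · exact h2 (h3.trans ⟨1 - gi, by decide⟩)

/-- transitivity at the place above 2 -/
theorem lam_trans {K : Type} [NormedField K] [Algebra GaussianInt K] [NeZero (2 : K)]
    [DecidableEq K] (h : LocHyp K lam) (hF : (FLD K lam).FinAx lam) :
    ∀ A : Set (FLD K lam).Sys, (FLD K lam).LStable A →
      (∀ d, ∀ P : (FLD K lam).M d, (⟨d, P, 0⟩ : (FLD K lam).Sys) ∈ A) → A = Set.univ := by
  intro A hA hb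
  rw [Set.eq_univ_iff_forall]
  exact fun t => LamP.all_mem h hF hA hb t

theorem lamAx_of_finAx {K : Type} [NormedField K] [Algebra GaussianInt K] [NeZero (2 : K)]
    [DecidableEq K] (h : LocHyp K lam) (hF : (FLD K lam).FinAx lam) : (FLD K lam).LamAx :=
  { hF with trans := lam_trans h hF }

end GWA
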