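import Pool.Agent.Helper9.GWA.Tame
import Pool.Agent.Helper9.GWA.Lam

/-!
# The axioms `LamAx` at the place above 2
-/

namespace GWA

variable {K : Type} [NormedField K] [Algebra GaussianInt K] [NeZero (2 : K)] [DecidableEq K]

theorem LocHyp.lamAx (h : LocHyp K lam) : (FLD K lam).LamAx :=
  lamAx_of_finAx h (h.finAx_of_expo h.lam_expo)

end GWA
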