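import Pool.Agent.Helper9.GWA.GPt
import Pool.Agent.Helper15.WA.Com

/-!
# Wrappers in terms of `nbh` and `nx`
-/

namespace GWA

variable {K : Type*} [NormedField K] [DecidableEq K]

/-- group-close implies coordinate-close -/
theorem coord_of_near {c : ℝ} (hc : 1 < c) {d : K} (hd : d ≠ 0) {P₀ : E d} (hP₀ : P₀ ≠ 0) {ε : ℝ}
    (hε : 0 < ε) : ∃ n : ℕ, ∀ P : E d, P - P₀ ∈ nbh c d n →
      P ≠ 0 ∧ ‖nx P - nx P₀‖ < ε ∧ ‖yc P - yc P₀‖ < ε := by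
  have hd' : 0 < ‖d‖ := norm_pos_iff.2 hd
  obtain ⟨R, -, H⟩ := close_of_far hP₀ (ε := min ε (ε * ‖d‖)) (lt_min hε (by positivity))
  obtain ⟨n, hn⟩ := exists_nbh_far hc hd R
  refine ⟨n, fun P hP => ?_⟩
  obtain ⟨h1, h2, h3⟩ := H (P - P₀) (hn n le_rfl _ hP)
  rw [add_sub_cancel] at h1 h2 h3
  refine ⟨h1, ?_, lt_of_lt_of_le h3 (min_le_left _ _)⟩
  have e : nx P - nx P₀ = (xc P - xc P₀) / d := by unfold nx; ring
  rw [e, norm_div, div_lt_iff₀ hd']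
  exact lt_of_lt_of_le h2 (min_le_right _ _)

/-- coordinate-close implies group-close -/
theorem near_of_coord [NeZero (2 : K)] {c : ℝ} {d : K} (hd : d ≠ 0) {P₀ : E d} (hP₀ : P₀ ≠ 0)
    (hy : yc P₀ ≠ 0) (n : ℕ) : ∃ ε : ℝ, 0 < ε ∧ ∀ P : E d, P ≠ 0 → ‖nx P - nx P₀‖ < ε →
      ‖yc P - yc P₀‖ < ε → P - P₀ ∈ nbh c d n := by
  have hd' : 0 < ‖d‖ := norm_pos_iff.2 hd
  obtain ⟨ε, hε, H⟩ := far_of_close hP₀ hy (c ^ (2 * n + 1) * ‖d‖)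
  refine ⟨min ε (ε / ‖d‖), lt_min hε (by positivity), fun P hP h1 h2 => ?_⟩
  apply H P hP
  · have e : xc P - xc P₀ = d * (nx P - nx P₀) := by unfold nx; field_simp
    rw [e, norm_mul]
    have h3 := lt_of_lt_of_le h1 (min_le_right _ _)
    rw [lt_div_iff₀ hd'] at h3
    linarith
  · exact lt_of_lt_of_le h2 (min_le_left _ _)

omit [DecidableEq K] in
/-- small nonzero points -/
theorem exists_small [CompleteSpace K] [NeZero (2 : K)] (hnt : ∃ x : K, 1 < ‖x‖) (c : ℝ) {d : K}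
    (hd : d ≠ 0) (n : ℕ) : ∃ P : E d, P ≠ 0 ∧ P ∈ nbh c d n := by
  obtain ⟨F, h1, h2⟩ := exists_far hnt hd (c ^ (2 * n + 1) * ‖d‖)
  exact ⟨F, h1, Or.inr h2⟩

end GWA
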