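import Pool.Agent.Helper15.WA.LocDefs
import Pool.Agent.Helper10.GWA.LB
import Pool.Agent.Helper9.GWA.GNear

/-!
# The filtration of the group at a finite place
-/

namespace GWA

section

variable {K : Type} [NormedField K] [Algebra GaussianInt K] {π : GaussianInt}

@[simp] theorem ftt_zero {K : Type*} [Field K] {d : K} : tt (0 : E d) = 0 := by simp [tt]

theorem ftt_neg {K : Type*} [Field K] {d : K} (P : E d) : tt (-P) = - tt P := by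
  unfold tt; rw [xc_neg, yc_neg, div_neg]

theorem LocHyp.hntr (h : LocHyp K π) : ∃ x : K, 1 < ‖x‖ :=
  ⟨(algebraMap GaussianInt K π)⁻¹, by rw [norm_inv]; exact h.one_lt_inv⟩

theorem LocHyp.disc1 (h : LocHyp K π) {x : K} (hx : ‖x‖ < 1) :
    ‖x‖ ≤ ‖algebraMap GaussianInt K π‖ := by
  by_cases hx0 : x = 0
  · rw [hx0, norm_zero]; exact norm_nonneg _
  have h1 : 1 < ‖x⁻¹‖ := by
    rw [norm_inv]; exact (one_lt_inv₀ (norm_pos_iff.2 hx0)).2 hx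
  have h2 := h.inv_le_of_one_lt h1
  rw [norm_inv] at h2
  exact (inv_le_inv₀ h.norm_pi_pos (norm_pos_iff.2 hx0)).1 h2

theorem LocHyp.norm_nx_sq (h : LocHyp K π) {d : K} (hd : d ≠ 0) {P : E d} (hP0 : P ≠ 0)
    (hP : P ∈ nb π d 0) : 1 < ‖nx P‖ := ((h.mem_nb_zero_iff hd).1 hP).resolve_left hP0

theorem LocHyp.xc_ge (h : LocHyp K π) {d : K} (hd : d ≠ 0) {P : E d} (hP0 : P ≠ 0)
    (hP : P ∈ nb π d 0) : ‖d‖ * ‖algebraMap GaussianInt K π‖⁻¹ ≤ ‖xc P‖ := by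
  have h1 := h.inv_le_of_one_lt (h.norm_nx_sq hd hP0 hP)
  rw [xc_eq hd, norm_mul]
  exact mul_le_mul_of_nonneg_left h1 (norm_nonneg _)

theorem LocHyp.norm_yc (h : LocHyp K π) {d : K} (hd : d ≠ 0) {P : E d} (hP0 : P ≠ 0)
    (hP : P ∈ nb π d 0) : xc P ≠ 0 ∧ ‖yc P‖ ^ 2 = ‖xc P‖ ^ 3 := by
  have h1 := h.norm_nx_sq hd hP0 hP
  have hd' : 0 < ‖d‖ := norm_pos_iff.2 hd
  have hx : ‖d‖ < ‖xc P‖ := by
    rw [xc_eq hd, norm_mul]
    exact lt_mul_of_one_lt_right hd' h1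
  have hx0 : xc P ≠ 0 := norm_pos_iff.1 (hd'.trans hx)
  refine ⟨hx0, ?_⟩
  rw [← norm_pow, curve_eq P]
  have hlt : ‖-(d ^ 2 * xc P)‖ < ‖xc P ^ 3‖ := by
    rw [norm_neg, norm_mul, norm_pow, norm_pow]
    have : ‖d‖ ^ 2 < ‖xc P‖ ^ 2 := pow_lt_pow_left₀ hx (norm_nonneg _) two_ne_zero
    calc ‖d‖ ^ 2 * ‖xc P‖ < ‖xc P‖ ^ 2 * ‖xc P‖ :=
          mul_lt_mul_of_pos_right this (norm_pos_iff.2 hx0)
      _ = ‖xc P‖ ^ 3 := by ring
  rw [sub_eq_add_neg, h.norm_sum_eq hlt, norm_pow]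

theorem LocHyp.norm_tt (h : LocHyp K π) {d : K} (hd : d ≠ 0) {P : E d} (hP0 : P ≠ 0)
    (hP : P ∈ nb π d 0) : yc P ≠ 0 ∧ ‖tt P‖ ^ 2 * ‖xc P‖ = 1 := by
  obtain ⟨hx0, hy⟩ := h.norm_yc hd hP0 hP
  have hx : 0 < ‖xc P‖ := norm_pos_iff.2 hx0
  have hy0 : yc P ≠ 0 := by
    intro h0
    rw [h0, norm_zero] at hy
    have : 0 < ‖xc P‖ ^ 3 := by positivity
    rw [← hy] at this
    norm_num at this
  refine ⟨hy0, ?_⟩
  unfold tt
  rw [norm_div, div_pow, hy]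
  field_simp

theorem LocHyp.tt_ne (h : LocHyp K π) {d : K} (hd : d ≠ 0) {P : E d} (hP0 : P ≠ 0)
    (hP : P ∈ nb π d 0) : tt P ≠ 0 := by
  intro h0
  have := (h.norm_tt hd hP0 hP).2
  rw [h0, norm_zero] at this
  norm_num at this

/-- `|tt|² ≤ |π| / |d|` -/
theorem LocHyp.tt_sq_le (h : LocHyp K π) {d : K} (hd : d ≠ 0) {P : E d}
    (hP : P ∈ nb π d 0) : ‖tt P‖ ^ 2 * ‖d‖ ≤ ‖algebraMap GaussianInt K π‖ := by
  by_cases hP0 : P = 0
  · rw [hP0, ftt_zero, norm_zero]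
    simp
  have h1 := (h.norm_tt hd hP0 hP).2
  have h2 := h.xc_ge hd hP0 hP
  have h3 := h.norm_pi_pos
  have h4 : ‖tt P‖ ^ 2 * (‖d‖ * ‖algebraMap GaussianInt K π‖⁻¹) ≤ 1 := by
    rw [← h1]
    exact mul_le_mul_of_nonneg_left h2 (by positivity)
  rw [← mul_assoc, ← div_eq_mul_inv, div_le_one h3] at h4
  exact h4

theorem LocHyp.mem_nb_iff_tt (h : LocHyp K π) {d : K} (hd : d ≠ 0) {P : E d}
    (hP : P ∈ nb π d 0) (n : ℕ) : P ∈ nb π d n ↔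
      ‖tt P‖ ^ 2 * ‖d‖ ≤ ‖algebraMap GaussianInt K π‖ ^ (2 * n + 1) := by
  have h3 := h.norm_pi_pos
  have hd' : 0 < ‖d‖ := norm_pos_iff.2 hd
  by_cases hP0 : P = 0
  · rw [hP0, ftt_zero, norm_zero]
    refine ⟨fun _ => ?_, fun _ => zero_mem_nbh _ _ _⟩
    simp
  obtain ⟨-, h1⟩ := h.norm_tt hd hP0 hP
  rw [mem_nbh_iff hd]
  simp only [hP0, false_or]
  have ht : 0 < ‖tt P‖ := norm_pos_iff.2 (h.tt_ne hd hP0 hP)
  have e : ‖nx P‖ = (‖tt P‖ ^ 2 * ‖d‖)⁻¹ := by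
    unfold nx
    rw [norm_div, eq_comm, inv_eq_iff_eq_inv, inv_div, eq_div_iff (by
      intro h0; rw [h0, mul_zero] at h1; norm_num at h1)]
    linear_combination ‖d‖ * h1
  rw [e, inv_pow]
  exact inv_le_inv₀ (by positivity) (by positivity)

end

section

variable {K : Type} [NormedField K] [Algebra GaussianInt K] [NeZero (2 : K)] [DecidableEq K]
  {π : GaussianInt}

omit [NeZero (2 : K)] in
theorem LocHyp.tt_sum (h : LocHyp K π) {d : K} (hd : d ≠ 0) {P Q R : E d}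
    (hP : P ∈ nb π d 0) (hQ : Q ∈ nb π d 0) (hR : R ∈ nb π d 0) (hP0 : P ≠ 0) (hQ0 : Q ≠ 0)
    (hR0 : R ≠ 0) (hs : P + Q + R = 0) :
    ‖tt P + tt Q + tt R‖ ≤ ‖algebraMap GaussianInt K π‖ ^ 2 * ‖tt P‖ := by
  obtain ⟨L, c, h1, h2, h3, h4, h5, h6⟩ := line_of_add_eq_zero hP0 hQ0 hR0 hs
  obtain ⟨p2, -⟩ := h.norm_yc hd hP0 hP
  obtain ⟨q2, -⟩ := h.norm_yc hd hQ0 hQ
  obtain ⟨r2, -⟩ := h.norm_yc hd hR0 hR
  obtain ⟨p3, p4⟩ := h.norm_tt hd hP0 hP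
  obtain ⟨q3, q4⟩ := h.norm_tt hd hQ0 hQ
  obtain ⟨r3, r4⟩ := h.norm_tt hd hR0 hR
  have hc : c ≠ 0 := by
    rintro rfl
    have : xc P * xc Q * xc R = 0 := by linear_combination h6
    exact mul_ne_zero (mul_ne_zero p2 q2) r2 this
  have key : tt P + tt Q + tt R = -2 * (d ^ 2 * (L / c)) * (tt P * (tt Q * tt R)) := by
    have hy : yc P * yc Q * yc R ≠ 0 := mul_ne_zero (mul_ne_zero p3 q3) r3
    rw [tt, tt, tt]
    field_simp
    rw [h1, h2, h3]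
    linear_combination (-c^3) * h4 * (-1) + (2 * L * c^2) * h5 + (3 * L^2 * c) * h6 + (2 * L * d ^ 2) * h6
  set ϖ := ‖algebraMap GaussianInt K π‖ with hϖ
  have hϖ0 : 0 < ϖ := h.norm_pi_pos
  have hd' : 0 < ‖d‖ := norm_pos_iff.2 hd
  set r : ℝ := ‖d‖ * ϖ⁻¹ with hr
  have hr0 : 0 < r := by positivity
  have hrP : r ≤ ‖xc P‖ := h.xc_ge hd hP0 hP
  have hrQ : r ≤ ‖xc Q‖ := h.xc_ge hd hQ0 hQ
  have hrR : r ≤ ‖xc R‖ := h.xc_ge hd hR0 hR
  have hcn : 0 < ‖c‖ := norm_pos_iff.2 hc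
  have hc2 : ‖c‖ ^ 2 = ‖xc P‖ * ‖xc Q‖ * ‖xc R‖ := by
    rw [← norm_pow, ← h6, norm_mul, norm_mul]
  have bP : ‖xc P‖ ≤ ‖c‖ ^ 2 / r ^ 2 := by
    rw [le_div_iff₀ (by positivity), hc2]
    have : r * r ≤ ‖xc Q‖ * ‖xc R‖ := mul_le_mul hrQ hrR hr0.le (norm_nonneg _)
    nlinarith [norm_nonneg (xc P)]
  have bQ : ‖xc Q‖ ≤ ‖c‖ ^ 2 / r ^ 2 := by
    rw [le_div_iff₀ (by positivity), hc2]
    have : r * r ≤ ‖xc P‖ * ‖xc R‖ := mul_le_mul hrP hrR hr0.le (norm_nonneg _)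
    nlinarith [norm_nonneg (xc Q)]
  have bR : ‖xc R‖ ≤ ‖c‖ ^ 2 / r ^ 2 := by
    rw [le_div_iff₀ (by positivity), hc2]
    have : r * r ≤ ‖xc P‖ * ‖xc Q‖ := mul_le_mul hrP hrQ hr0.le (norm_nonneg _)
    nlinarith [norm_nonneg (xc R)]
  have bL : ‖L‖ ^ 2 ≤ ‖c‖ ^ 2 / r ^ 2 := by
    rw [← norm_pow]
    have : L ^ 2 = xc P + xc Q + xc R := by linear_combination -h4
    rw [this]
    exact (h.ultra _ _).trans (max_le ((h.ultra _ _).trans (max_le bP bQ)) bR)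
  have bLc : ‖L / c‖ ≤ r⁻¹ := by
    rw [norm_div, div_le_iff₀ hcn]
    apply le_of_sq_le_sq _ (by positivity)
    refine bL.trans (le_of_eq ?_)
    field_simp
  have b2 : ‖(-2 : K)‖ ≤ 1 := by
    rw [norm_neg]; exact h.norm_ofNat_le 2
  have bQR : ‖tt Q‖ * ‖tt R‖ ≤ r⁻¹ := by
    have h1 := h.tt_sq_le hd hQ
    have h2 := h.tt_sq_le hd hR
    have e1 : ‖tt Q‖ ^ 2 ≤ r⁻¹ := by
      rw [hr, mul_inv, inv_inv, inv_mul_eq_div, le_div_iff₀ hd']; exact h1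
    have e2 : ‖tt R‖ ^ 2 ≤ r⁻¹ := by
      rw [hr, mul_inv, inv_inv, inv_mul_eq_div, le_div_iff₀ hd']; exact h2
    nlinarith [sq_nonneg (‖tt Q‖ - ‖tt R‖)]
  rw [key, norm_mul, norm_mul, norm_mul (d ^ 2), norm_mul (tt P), norm_mul (tt Q), norm_pow]
  have ht := norm_nonneg (tt P)
  calc ‖(-2 : K)‖ * (‖d‖ ^ 2 * ‖L / c‖) * (‖tt P‖ * (‖tt Q‖ * ‖tt R‖))
      ≤ 1 * (‖d‖ ^ 2 * r⁻¹) * (‖tt P‖ * r⁻¹) := by gcongr
    _ = ϖ ^ 2 * ‖tt P‖ := by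
        rw [hr]; field_simp

theorem LocHyp.tt_add (h : LocHyp K π) {d : K} (hd : d ≠ 0) {P Q : E d}
    (hP : P ∈ nb π d 0) (hQ : Q ∈ nb π d 0) :
    ‖tt (P + Q) - tt P - tt Q‖ ≤
      ‖algebraMap GaussianInt K π‖ ^ 2 * min ‖tt P‖ ‖tt Q‖ := by
  by_cases hP0 : P = 0
  · rw [hP0, zero_add, ftt_zero, sub_zero, sub_self, norm_zero]
    positivity
  by_cases hQ0 : Q = 0
  · rw [hQ0, add_zero, ftt_zero, sub_self, sub_zero, norm_zero]
    positivity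
  by_cases hPQ : P + Q = 0
  · have : Q = -P := (neg_eq_of_add_eq_zero_right hPQ).symm
    rw [hPQ, this, ftt_neg, ftt_zero, zero_sub, sub_neg_eq_add, neg_add_cancel, norm_zero]
    positivity
  have hR := neg_mem_nbh (h.nb_add hd 0 hP hQ)
  have h1 := h.tt_sum hd hP hQ hR hP0 hQ0 (neg_ne hPQ) (add_neg_cancel _)
  have h2 := h.tt_sum hd hQ hP hR hQ0 hP0 (neg_ne hPQ) (by rw [add_comm Q P]; exact add_neg_cancel _)
  rw [ftt_neg] at h1 h2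
  have e1 : ‖tt (P + Q) - tt P - tt Q‖ = ‖tt P + tt Q + -tt (P + Q)‖ := by
    rw [← norm_neg]; congr 1; ring
  have e2 : ‖tt (P + Q) - tt P - tt Q‖ = ‖tt Q + tt P + -tt (P + Q)‖ := by
    rw [← norm_neg]; congr 1; ring
  rw [← e1] at h1
  rw [← e2] at h2
  rcases min_choice ‖tt P‖ ‖tt Q‖ with h3 | h3 <;> rw [h3] <;> assumption

theorem LocHyp.tt_nsmul (h : LocHyp K π) {d : K} (hd : d ≠ 0) (n : ℕ) {P : E d}
    (hP : P ∈ nb π d 0) : n • P ∈ nb π d 0 ∧ ‖tt (n • P) - n * tt P‖ ≤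
      ‖algebraMap GaussianInt K π‖ ^ 2 * ‖tt P‖ := by
  induction n with
  | zero => simp [zero_mem_nbh]; positivity
  | succ n ih =>
    rw [succ_nsmul]
    refine ⟨h.nb_add hd 0 ih.1 hP, ?_⟩
    have h1 := h.tt_add hd ih.1 hP
    have e : tt (n • P + P) - (n + 1 : ℕ) * tt P = (tt (n • P + P) - tt (n • P) - tt P) +
        (tt (n • P) - n * tt P) := by push_cast; ring
    rw [e]
    refine (h.ultra _ _).trans (max_le (h1.trans ?_) ih.2)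
    gcongr
    exact min_le_right _ _

theorem LocHyp.tt_zsmul (h : LocHyp K π) {d : K} (hd : d ≠ 0) (n : ℤ) {P : E d}
    (hP : P ∈ nb π d 0) : n • P ∈ nb π d 0 ∧ ‖tt (n • P) - n * tt P‖ ≤
      ‖algebraMap GaussianInt K π‖ ^ 2 * ‖tt P‖ := by
  obtain ⟨m, rfl | rfl⟩ := n.eq_nat_or_neg
  · rw [natCast_zsmul, Int.cast_natCast]
    exact h.tt_nsmul hd m hP
  · rw [neg_smul, natCast_zsmul, Int.cast_neg, Int.cast_natCast, ftt_neg]
    obtain ⟨h1, h2⟩ := h.tt_nsmul hd m hP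
    refine ⟨neg_mem_nbh h1, ?_⟩
    have e : -tt (m • P) - -(m : K) * tt P = -(tt (m • P) - m * tt P) := by ring
    rw [e, norm_neg]
    exact h2

theorem ftt_im {d : K} (hd : d ≠ 0) (P : E d) : tt (im hd P) = II K * tt P := by
  unfold tt
  rw [xc_im, yc_im]
  have hI := II_sq K
  have hI0 : II K ≠ 0 := II_ne
  by_cases hy : yc P = 0
  · rw [hy]; simp
  · field_simp
    linear_combination - xc P * hI

theorem LocHyp.tt_smul (h : LocHyp K π) (d : Kˣ) (α : GaussianInt) {P : E (d : K)}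
    (hP : P ∈ nb π (d : K) 0) :
    ‖tt (α • P) - algebraMap GaussianInt K α * tt P‖ ≤
      ‖algebraMap GaussianInt K π‖ ^ 2 * ‖tt P‖ := by
  have hd := d.ne_zero
  have hiP : im hd P ∈ nb π (d : K) 0 := by
    have := h.nb_smul d 0 gi hP
    rwa [gi_smul] at this
  obtain ⟨h1, h2⟩ := h.tt_zsmul hd α.re hP
  obtain ⟨h3, h4⟩ := h.tt_zsmul hd α.im hiP
  rw [ftt_im] at h4
  have h5 := h.tt_add hd h1 h3
  have hϖ := h.norm_pi
  have hI : ‖II K‖ = 1 := LocHyp.norm_II K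
  rw [norm_mul, hI, one_mul] at h4
  have h6 : ‖tt (α.re • P)‖ ≤ ‖tt P‖ := by
    have e : tt (α.re • P) = (tt (α.re • P) - α.re * tt P) + α.re * tt P := by ring
    rw [e]
    refine (h.ultra _ _).trans (max_le (h2.trans ?_) ?_)
    · have : ‖algebraMap GaussianInt K π‖ ^ 2 ≤ 1 := pow_le_one₀ (norm_nonneg _) hϖ.le
      exact mul_le_of_le_one_left (norm_nonneg _) this
    · rw [norm_mul]
      exact mul_le_of_le_one_left (norm_nonneg _) (h.norm_intCast_le _)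
  rw [smul_def]
  have e : tt (α.re • P + α.im • im hd P) - algebraMap GaussianInt K α * tt P =
      (tt (α.re • P + α.im • im hd P) - tt (α.re • P) - tt (α.im • im hd P)) +
      ((tt (α.re • P) - α.re * tt P) + (tt (α.im • im hd P) - α.im * (II K * tt P))) := by
    rw [LocHyp.algebraMap_eq]; ring
  rw [e]
  refine (h.ultra _ _).trans (max_le (h5.trans ?_) ((h.ultra _ _).trans (max_le h2 h4)))
  gcongr
  exact (min_le_left _ _).trans h6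

theorem LocHyp.tt_smul_le (h : LocHyp K π) (d : Kˣ) (α : GaussianInt) {P : E (d : K)}
    (hP : P ∈ nb π (d : K) 0) : ‖tt (α • P)‖ ≤
      max (‖algebraMap GaussianInt K α‖ * ‖tt P‖) (‖algebraMap GaussianInt K π‖ ^ 2 * ‖tt P‖) := by
  have h1 := h.tt_smul d α hP
  have e : tt (α • P) = algebraMap GaussianInt K α * tt P +
    (tt (α • P) - algebraMap GaussianInt K α * tt P) := by ring
  rw [e, ← norm_mul]
  exact (h.ultra _ _).trans (max_le_max le_rfl h1)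

theorem LocHyp.tt_smul_eq (h : LocHyp K π) (d : Kˣ) {α : GaussianInt} {P : E (d : K)}
    (hP0 : P ≠ 0) (hP : P ∈ nb π (d : K) 0)
    (hα : ‖algebraMap GaussianInt K π‖ ^ 2 < ‖algebraMap GaussianInt K α‖) :
    ‖tt (α • P)‖ = ‖algebraMap GaussianInt K α‖ * ‖tt P‖ := by
  have h1 := h.tt_smul d α hP
  have ht : 0 < ‖tt P‖ := norm_pos_iff.2 (h.tt_ne d.ne_zero hP0 hP)
  have e : tt (α • P) = algebraMap GaussianInt K α * tt P +
    (tt (α • P) - algebraMap GaussianInt K α * tt P) := by ring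
  rw [e, h.norm_sum_eq, norm_mul]
  rw [norm_mul]
  exact lt_of_le_of_lt h1 (mul_lt_mul_of_pos_right hα ht)

theorem LocHyp.tt_pi (h : LocHyp K π) (d : Kˣ) {P : E (d : K)} (hP : P ∈ nb π (d : K) 0) :
    ‖tt (π • P)‖ = ‖algebraMap GaussianInt K π‖ * ‖tt P‖ := by
  by_cases hP0 : P = 0
  · rw [hP0, smul_zero, ftt_zero, norm_zero, mul_zero]
  · apply h.tt_smul_eq d hP0 hP
    rw [pow_two]
    exact mul_lt_of_lt_one_left h.norm_pi_pos h.norm_pi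

theorem LocHyp.tt_pi_pow (h : LocHyp K π) (d : Kˣ) {P : E (d : K)} (hP : P ∈ nb π (d : K) 0)
    (k : ℕ) : ‖tt (π ^ k • P)‖ = ‖algebraMap GaussianInt K π‖ ^ k * ‖tt P‖ := by
  induction k with
  | zero => rw [pow_zero, one_smul, pow_zero, one_mul]
  | succ k ih =>
    rw [pow_succ', mul_smul, h.tt_pi d (h.nb_smul d 0 _ hP), ih]; ring

theorem LocHyp.tt_coprime (h : LocHyp K π) (d : Kˣ) {α : GaussianInt} (hα : ¬ π ∣ α)
    {P : E (d : K)} (hP : P ∈ nb π (d : K) 0) : ‖tt (α • P)‖ = ‖tt P‖ := by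
  by_cases hP0 : P = 0
  · rw [hP0, smul_zero]
  · have h1 := h.norm_eq_one hα
    rw [h.tt_smul_eq d hP0 hP, h1, one_mul]
    rw [h1]
    exact pow_lt_one₀ (norm_nonneg _) h.norm_pi two_ne_zero

theorem LocHyp.nb_le0 (h : LocHyp K π) {d : K} {n : ℕ} {P : E d} (hP : P ∈ nb π d n) :
    P ∈ nb π d 0 := nbh_anti h.one_lt_inv.le d (Nat.zero_le n) hP

theorem LocHyp.nb_pi_smul (h : LocHyp K π) (d : Kˣ) (n : ℕ) {P : E (d : K)}
    (hP : P ∈ nb π (d : K) n) : π • P ∈ nb π (d : K) (n + 1) := by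
  have h0 := h.nb_le0 hP
  rw [h.mem_nb_iff_tt d.ne_zero (h.nb_smul d 0 _ h0), h.tt_pi d h0]
  rw [h.mem_nb_iff_tt d.ne_zero h0] at hP
  calc (‖algebraMap GaussianInt K π‖ * ‖tt P‖) ^ 2 * ‖(d : K)‖ =
      ‖algebraMap GaussianInt K π‖ ^ 2 * (‖tt P‖ ^ 2 * ‖(d : K)‖) := by ring
    _ ≤ ‖algebraMap GaussianInt K π‖ ^ 2 * ‖algebraMap GaussianInt K π‖ ^ (2 * n + 1) := by gcongr
    _ = ‖algebraMap GaussianInt K π‖ ^ (2 * (n + 1) + 1) := by ring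

/-- multiplication by an element prime to `π` preserves the level -/
theorem LocHyp.nb_coprime (h : LocHyp K π) (d : Kˣ) {n m : ℕ} {α : GaussianInt} (hα : ¬ π ∣ α)
    {P : E (d : K)} (hP : P ∈ nb π (d : K) n) (hP' : α • P ∈ nb π (d : K) m) :
    P ∈ nb π (d : K) m := by
  have h0 := h.nb_le0 hP
  rw [h.mem_nb_iff_tt d.ne_zero (h.nb_smul d 0 _ h0), h.tt_coprime d hα h0] at hP'
  rwa [h.mem_nb_iff_tt d.ne_zero h0]

/-- `nb 0` is torsion-free -/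
theorem LocHyp.nb_tf (h : LocHyp K π) (d : Kˣ) {P : E (d : K)} (hP : P ∈ nb π (d : K) 0)
    {α : GaussianInt} (hα : α ≠ 0) (h0 : α • P = 0) : P = 0 := by
  by_contra hP0
  have ht : 0 < ‖tt P‖ := norm_pos_iff.2 (h.tt_ne d.ne_zero hP0 hP)
  have hfin : FiniteMultiplicity π α := FiniteMultiplicity.of_prime_left h.prime hα
  obtain ⟨β, hβ, hβ'⟩ := hfin.exists_eq_pow_mul_and_not_dvd
  rw [hβ, mul_smul] at h0
  have h1 := h.tt_pi_pow d (h.nb_smul d 0 β hP) (multiplicity π α)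
  rw [h0, ftt_zero, norm_zero, h.tt_coprime d hβ' hP] at h1
  have : 0 < ‖algebraMap GaussianInt K π‖ ^ multiplicity π α * ‖tt P‖ := by
    have := h.norm_pi_pos
    positivity
  linarith

omit [NeZero (2 : K)] [DecidableEq K] in
theorem LocHyp.nb_exit (h : LocHyp K π) {d : K} (hd : d ≠ 0) {P : E d} (hP0 : P ≠ 0) :
    ∃ m, P ∉ nb π d m := by
  obtain ⟨n, hn⟩ := pow_unbounded_of_one_lt ‖nx P‖ h.one_lt_inv
  refine ⟨n, fun hm => ?_⟩
  rw [mem_nbh_iff hd] at hm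
  have h1 := hm.resolve_left hP0
  have h2 : (‖algebraMap GaussianInt K π‖)⁻¹ ^ n ≤ (‖algebraMap GaussianInt K π‖)⁻¹ ^ (2 * n + 1) :=
    pow_le_pow_right₀ h.one_lt_inv.le (by omega)
  linarith

omit [NeZero (2 : K)] [DecidableEq K] in
theorem LocHyp.nb_level (h : LocHyp K π) {d : K} (hd : d ≠ 0) {P : E d} (hP0 : P ≠ 0) {n : ℕ}
    (hP : P ∈ nb π d n) : ∃ m, n ≤ m ∧ P ∈ nb π d m ∧ P ∉ nb π d (m + 1) := by
  classical
  have hex := h.nb_exit hd hP0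
  set k := Nat.find hex with hk
  have h1 : P ∉ nb π d k := Nat.find_spec hex
  have h2 : n < k := by
    by_contra hle
    rw [not_lt] at hle
    exact h1 (nbh_anti h.one_lt_inv.le d hle hP)
  refine ⟨k - 1, by omega, ?_, ?_⟩
  · have := Nat.find_min hex (m := k - 1) (by omega)
    rwa [not_not] at this
  · rwa [Nat.sub_add_cancel (by omega)]

omit [DecidableEq K] in
theorem LocHyp.nb_lev (h : LocHyp K π) {d : K} (hd : d ≠ 0) (n : ℕ) :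
    ∃ η ∈ nb π d n, ∃ m, η ∉ nb π d m := by
  have := h.complete
  obtain ⟨P, h1, h2⟩ := exists_small (h.hntr) (‖algebraMap GaussianInt K π‖)⁻¹ hd n
  exact ⟨P, h2, h.nb_exit hd h1⟩

theorem LocHyp.nb_infinite (h : LocHyp K π) {d : K} (hd : d ≠ 0) (n : ℕ) :
    (nb π d n).Infinite := by
  obtain ⟨u, rfl⟩ : ∃ u : Kˣ, (u : K) = d := ⟨Units.mk0 d hd, rfl⟩
  have := h.complete
  obtain ⟨P, h1, h2⟩ := exists_small (h.hntr) (‖algebraMap GaussianInt K π‖)⁻¹ hd n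
  have hinj : Function.Injective (fun k : ℕ => (k : GaussianInt) • P) := by
    intro k l hkl
    by_contra hne
    apply h1
    have h3 : ((k : GaussianInt) - l) • P = 0 := by
      rw [sub_smul, sub_eq_zero]; exact hkl
    refine h.nb_tf u (h.nb_le0 h2) ?_ h3
    intro h0
    apply hne
    have : (k : GaussianInt) = l := sub_eq_zero.1 h0
    exact_mod_cast this
  apply (Set.infinite_range_of_injective hinj).mono
  rintro _ ⟨k, rfl⟩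
  exact h.nb_smul u n _ h2

theorem LocHyp.nb_gen (h : LocHyp K π) (d : Kˣ) (n : ℕ) {η ξ : E (d : K)}
    (hη : η ∈ nb π (d : K) n) (hη' : η ∉ nb π (d : K) (n + 1)) (hξ : ξ ∈ nb π (d : K) n) (m : ℕ) :
    ∃ α : GaussianInt, ξ - α • η ∈ nb π (d : K) m := by
  have hd := d.ne_zero
  have hd' : 0 < ‖(d : K)‖ := norm_pos_iff.2 hd
  have η0 := h.nb_le0 hη
  have ξ0 := h.nb_le0 hξ
  have hη0 : η ≠ 0 := by
    rintro rfl
    exact hη' (zero_mem_nbh _ _ _)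
  have htη : 0 < ‖tt η‖ := norm_pos_iff.2 (h.tt_ne hd hη0 η0)
  have hϖ := h.norm_pi_pos
  have hϖ1 := h.norm_pi
  set ϖ := ‖algebraMap GaussianInt K π‖ with hϖdef
  have hle : ‖tt ξ‖ ≤ ‖tt η‖ := by
    by_contra hlt
    rw [not_le] at hlt
    have h1 : 1 < ‖tt ξ / tt η‖ := by rw [norm_div, one_lt_div htη]; exact hlt
    have h2 := h.inv_le_of_one_lt h1
    rw [norm_div, ← hϖdef, le_div_iff₀ htη] at h2
    rw [h.mem_nb_iff_tt hd η0, not_le] at hη'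
    rw [h.mem_nb_iff_tt hd ξ0] at hξ
    have h3 : (ϖ⁻¹ * ‖tt η‖) ^ 2 ≤ ‖tt ξ‖ ^ 2 := pow_le_pow_left₀ (by positivity) h2 2
    have h4 : ϖ ^ (2 * (n + 1) + 1) * (ϖ⁻¹) ^ 2 < ‖tt η‖ ^ 2 * ‖(d : K)‖ * (ϖ⁻¹) ^ 2 :=
      mul_lt_mul_of_pos_right hη' (by positivity)
    have h5 : ϖ ^ (2 * (n + 1) + 1) * (ϖ⁻¹) ^ 2 = ϖ ^ (2 * n + 1) := by
      have : 2 * (n + 1) + 1 = (2 * n + 1) + 2 := by ring
      rw [this, pow_add]; field_simp
    rw [h5] at h4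
    have h6 : ‖tt η‖ ^ 2 * ‖(d : K)‖ * (ϖ⁻¹) ^ 2 ≤ ‖tt ξ‖ ^ 2 * ‖(d : K)‖ := by
      calc _ = (ϖ⁻¹ * ‖tt η‖) ^ 2 * ‖(d : K)‖ := by ring
        _ ≤ _ := by gcongr
    linarith
  have key : ∀ k : ℕ, ∃ α : GaussianInt, ‖tt (ξ - α • η)‖ ≤ ϖ ^ k * ‖tt η‖ := by
    intro k
    induction k with
    | zero => exact ⟨0, by rwa [zero_smul, sub_zero, pow_zero, one_mul]⟩
    | succ k ih =>
      obtain ⟨α, hα⟩ := ih
      set ξ' := ξ - α • η with hξ'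
      have ξ'0 : ξ' ∈ nb π (d : K) 0 := by
        rw [hξ', sub_eq_add_neg]
        exact h.nb_add hd 0 ξ0 (neg_mem_nbh (h.nb_smul d 0 α η0))
      set ηk := π ^ k • η with hηk
      have ηk0 : ηk ∈ nb π (d : K) 0 := h.nb_smul d 0 _ η0
      have htk : ‖tt ηk‖ = ϖ ^ k * ‖tt η‖ := h.tt_pi_pow d η0 k
      have htk0 : 0 < ‖tt ηk‖ := by rw [htk]; positivity
      obtain ⟨β, hβ⟩ := h.res (tt ξ' / tt ηk) (by
        rw [norm_div, div_le_one htk0, htk]; exact hα)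
      have hβ' : ‖tt ξ' - algebraMap GaussianInt K β * tt ηk‖ ≤ ϖ * ‖tt ηk‖ := by
        have h1 := h.disc1 hβ
        have e : tt ξ' - algebraMap GaussianInt K β * tt ηk =
            (tt ξ' / tt ηk - algebraMap GaussianInt K β) * tt ηk := by
          have : tt ηk ≠ 0 := norm_pos_iff.1 htk0
          field_simp
        rw [e, norm_mul]
        gcongr
      have hβη := h.nb_smul d 0 β ηk0
      have h2 := h.tt_add hd ξ'0 (neg_mem_nbh hβη)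
      have h3 := h.tt_smul d β ηk0
      refine ⟨α + β * π ^ k, ?_⟩
      have e1 : ξ - (α + β * π ^ k) • η = ξ' + -(β • ηk) := by
        rw [hξ', hηk, add_smul, mul_smul]; abel
      rw [e1]
      have e2 : tt (ξ' + -(β • ηk)) = (tt (ξ' + -(β • ηk)) - tt ξ' - tt (-(β • ηk))) +
          ((tt ξ' - algebraMap GaussianInt K β * tt ηk) -
            (tt (β • ηk) - algebraMap GaussianInt K β * tt ηk)) := by
        rw [ftt_neg]; ring
      have hpow : ϖ ^ (k + 1) * ‖tt η‖ = ϖ * ‖tt ηk‖ := by rw [htk]; ring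
      have hsq : ϖ ^ 2 ≤ ϖ := by nlinarith
      rw [e2, hpow]
      refine (h.ultra _ _).trans (max_le (h2.trans ?_) ((h.norm_sub_le _ _).trans
        (max_le hβ' (h3.trans ?_))))
      · have h4 : min ‖tt ξ'‖ ‖tt (-(β • ηk))‖ ≤ ‖tt ηk‖ := by
          refine (min_le_left _ _).trans ?_
          rw [htk]; exact hα
        have := norm_nonneg (tt ηk)
        gcongr
      · gcongr
  obtain ⟨α, hα⟩ := key m
  refine ⟨α, ?_⟩
  have h0 : ξ - α • η ∈ nb π (d : K) 0 := by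
    rw [sub_eq_add_neg]
    exact h.nb_add hd 0 ξ0 (neg_mem_nbh (h.nb_smul d 0 α η0))
  rw [h.mem_nb_iff_tt hd h0]
  have h1 := h.tt_sq_le hd η0
  calc ‖tt (ξ - α • η)‖ ^ 2 * ‖(d : K)‖ ≤ (ϖ ^ m * ‖tt η‖) ^ 2 * ‖(d : K)‖ := by gcongr
    _ = (ϖ ^ m) ^ 2 * (‖tt η‖ ^ 2 * ‖(d : K)‖) := by ring
    _ ≤ (ϖ ^ m) ^ 2 * ϖ := by gcongr
    _ = ϖ ^ (2 * m + 1) := by ring

end

end GWA
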