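import Pool.Agent.Helper9.GWA.Places

/-!
# Weak approximation for `ℚ(i)` and the family of its completions
-/

namespace GWA

open NumberField IsDedekindDomain Module

/-- weak approximation for a family of dense embeddings into normed fields -/
theorem weak_approx_gen {F : Type} [Field F] {ι : Type} {L : ι → Type} [∀ o, NormedField (L o)]
    (φ : ∀ o, F →+* L o) (hd : ∀ o, DenseRange (φ o))
    (hnt : ∀ o, (place (φ o)).IsNontrivial)
    (hne : ∀ o o', o ≠ o' → ¬ (place (φ o)).IsEquiv (place (φ o'))) (A : Finset ι)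
    (x : ∀ o, L o) (ε : ℝ) (hε : 0 < ε) : ∃ t : F, ∀ o ∈ A, ‖φ o t - x o‖ < ε := by
  have hr : ∀ o, ∃ r : F, ‖φ o r - x o‖ < ε / 2 := by
    intro o
    obtain ⟨r, hr⟩ := (hd o).exists_dist_lt (x o) (half_pos hε)
    exact ⟨r, by rwa [dist_comm, dist_eq_norm] at hr⟩
  choose r hr using hr
  have D := AbsoluteValue.denseRange_algebraMap_pi (F := F) (ι := A)
    (v := fun o => place (φ o)) (fun o => hnt o)
    (fun i j hij => hne i j (fun h => hij (Subtype.ext h)))
  have key := D.exists_mem_open (s := Set.univ.pi fun o : A => Metric.ball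
    ((WithAbs.equiv (place (φ o))).symm (r o)) (ε / 2))
    (isOpen_set_pi Set.finite_univ (fun i _ => Metric.isOpen_ball))
    ⟨fun o => (WithAbs.equiv (place (φ o))).symm (r o), fun i _ =>
      Metric.mem_ball_self (half_pos hε)⟩
  obtain ⟨t, ht⟩ := key
  refine ⟨t, fun o ho => ?_⟩
  have h1 := ht ⟨o, ho⟩ (Set.mem_univ _)
  rw [Metric.mem_ball, dist_eq_norm] at h1
  have h2 : ‖φ o (t - r o)‖ < ε / 2 := h1
  have e1 : φ o t - x o = φ o (t - r o) + (φ o (r o) - x o) := by
    rw [map_sub]; ring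
  rw [e1]
  calc _ ≤ ‖φ o (t - r o)‖ + ‖φ o (r o) - x o‖ := norm_add_le _ _
    _ < ε / 2 + ε / 2 := add_lt_add h2 (hr o)
    _ = ε := by ring

variable (K : Type) [Field K] [NumberField K]

/-- the completions: `ℂ` and the completions at the finite places -/
def KK : Option (HeightOneSpectrum (𝓞 K)) → Type
  | none => ℂ
  | some v => v.adicCompletion K

noncomputable instance instNFKK : ∀ o, NormedField (KK K o)
  | none => inferInstanceAs (NormedField ℂ)
  | some v => inferInstanceAs (NormedField (v.adicCompletion K))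

instance instCSKK : ∀ o, CompleteSpace (KK K o)
  | none => inferInstanceAs (CompleteSpace ℂ)
  | some v => inferInstanceAs (CompleteSpace (v.adicCompletion K))

instance instCZKK : ∀ o, CharZero (KK K o)
  | none => inferInstanceAs (CharZero ℂ)
  | some v => (charZero_of_injective_algebraMap (algebraMap K (v.adicCompletion K)).injective :
      CharZero (v.adicCompletion K))

variable {K}

/-- the embeddings of `K` in its completions -/
noncomputable def emb (σ : K →+* ℂ) : ∀ o, K →+* KK K o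
  | none => σ
  | some v => algebraMap K (v.adicCompletion K)

variable [Algebra GaussianInt K]

theorem dense_sigma (h2 : finrank ℚ K = 2) (σ : K →+* ℂ) : DenseRange σ := by
  rw [Metric.denseRange_iff]
  intro z ε hε
  obtain ⟨s, hs, hs2⟩ : ∃ s : ℝ, σ (II K) = s * Complex.I ∧ s ^ 2 = 1 := by
    have h1 : σ (II K) ^ 2 = -1 := by
      rw [← map_pow, II_sq, map_neg, map_one]
    have h3 : (σ (II K) - Complex.I) * (σ (II K) + Complex.I) = 0 := by
      have : (σ (II K) - Complex.I) * (σ (II K) + Complex.I) = σ (II K) ^ 2 - Complex.I ^ 2 := by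
        ring
      rw [this, h1, Complex.I_sq]; ring
    rcases mul_eq_zero.1 h3 with h | h
    · exact ⟨1, by rw [sub_eq_zero.1 h]; simp, by norm_num⟩
    · exact ⟨-1, by rw [eq_neg_of_add_eq_zero_left h]; simp, by norm_num⟩
  obtain ⟨p, hp⟩ := Rat.denseRange_cast (𝕜 := ℝ) |>.exists_dist_lt z.re (half_pos hε)
  obtain ⟨q, hq⟩ := Rat.denseRange_cast (𝕜 := ℝ) |>.exists_dist_lt (s * z.im) (half_pos hε)
  refine ⟨(p : K) + q * II K, ?_⟩
  rw [dist_eq_norm, map_add, map_mul, map_ratCast, map_ratCast, hs]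
  have e1 : z - ((p : ℂ) + q * (s * Complex.I)) = ((z.re - p : ℝ) : ℂ) +
      ((s * (s * z.im - q) : ℝ) : ℂ) * Complex.I := by
    have h5 : ((s : ℂ)) ^ 2 = 1 := by exact_mod_cast hs2
    conv_lhs => rw [← Complex.re_add_im z]
    push_cast
    linear_combination (-(z.im : ℂ) * Complex.I) * h5
  rw [e1]
  rw [dist_eq_norm, Real.norm_eq_abs] at hp hq
  have hs1 : |s| = 1 := by
    have := sq_abs s
    rw [hs2] at this
    have h0 := abs_nonneg s
    nlinarith
  calc _ ≤ ‖((z.re - p : ℝ) : ℂ)‖ + ‖((s * (s * z.im - q) : ℝ) : ℂ) * Complex.I‖ := norm_add_le _ _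
    _ = |z.re - p| + |s * z.im - q| := by
        rw [norm_mul, Complex.norm_I, mul_one, Complex.norm_real, Complex.norm_real,
          Real.norm_eq_abs, Real.norm_eq_abs, abs_mul, hs1, one_mul]
    _ < ε / 2 + ε / 2 := add_lt_add hp hq
    _ = ε := by ring

omit [Algebra GaussianInt K] in
theorem not_equiv_inf (σ : K →+* ℂ) (v : HeightOneSpectrum (𝓞 K)) :
    ¬ (place σ).IsEquiv (place (algebraMap K (v.adicCompletion K))) := by
  intro H
  have h1 : place σ ((2 : K)⁻¹) < 1 := by
    rw [place_apply, map_inv₀, map_ofNat, norm_inv]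
    norm_num
  have h2 := H.lt_one_iff.1 h1
  rw [place_apply, map_inv₀, norm_inv] at h2
  have h3 : ‖algebraMap K (v.adicCompletion K) 2‖ ≤ 1 := by
    have := FinitePlace.norm_le_one K v (2 : 𝓞 K)
    rw [map_ofNat] at this
    exact this
  have h4 : 0 < ‖algebraMap K (v.adicCompletion K) 2‖ := by
    rw [norm_pos_iff, map_ne_zero]
    exact two_ne_zero
  have h5 := one_le_inv₀ h4 |>.2 h3
  linarith

omit [Algebra GaussianInt K] in
theorem not_equiv_fin {v w : HeightOneSpectrum (𝓞 K)} (hvw : v ≠ w) :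
    ¬ (place (algebraMap K (v.adicCompletion K))).IsEquiv
      (place (algebraMap K (w.adicCompletion K))) := by
  intro H
  obtain ⟨x, hx1, hx2⟩ : ∃ x : 𝓞 K, x ∈ v.asIdeal ∧ x ∉ w.asIdeal := by
    by_contra! H'
    exact hvw (HeightOneSpectrum.ext_iff.mpr
      (Ideal.IsMaximal.eq_of_le (HeightOneSpectrum.isMaximal v) Ideal.IsPrime.ne_top' H'))
  have h1 : place (algebraMap K (v.adicCompletion K)) (algebraMap (𝓞 K) K x) < 1 := by
    rw [place_apply]
    exact (FinitePlace.norm_lt_one_iff_mem K v x).2 hx1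
  have h2 := H.lt_one_iff.1 h1
  rw [place_apply] at h2
  have h3 := (FinitePlace.norm_eq_one_iff_notMem K w x).2 hx2
  have h4 : ‖algebraMap K (w.adicCompletion K) (algebraMap (𝓞 K) K x)‖ = 1 := h3
  linarith

omit [Algebra GaussianInt K] in
theorem nontrivial_fin (v : HeightOneSpectrum (𝓞 K)) :
    (place (algebraMap K (v.adicCompletion K))).IsNontrivial := by
  obtain ⟨x, hx, hx0⟩ := v.asIdeal.ne_bot_iff.1 v.ne_bot
  refine ⟨algebraMap (𝓞 K) K x, ?_, ?_⟩
  · simpa using hx0
  · rw [place_apply]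
    have h1 : ‖algebraMap K (v.adicCompletion K) (algebraMap (𝓞 K) K x)‖ < 1 :=
      (FinitePlace.norm_lt_one_iff_mem K v x).2 hx
    exact h1.ne

/-- weak approximation for the family `KK` -/
theorem weak_approx (h2 : finrank ℚ K = 2) (σ : K →+* ℂ)
    (A : Finset (Option (HeightOneSpectrum (𝓞 K)))) (x : ∀ o, KK K o) (ε : ℝ) (hε : 0 < ε) :
    ∃ t : K, ∀ o ∈ A, ‖emb σ o t - x o‖ < ε := by
  apply weak_approx_gen (emb σ)
  · rintro (_ | v)
    · exact dense_sigma h2 σ
    · exact v.denseRange_algebraMap K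
  · rintro (_ | v)
    · refine ⟨2, two_ne_zero, ?_⟩
      change place σ 2 ≠ 1
      rw [place_apply, map_ofNat]
      norm_num
    · exact nontrivial_fin v
  · rintro (_ | v) (_ | w) hvw
    · exact absurd rfl hvw
    · exact not_equiv_inf σ w
    · intro H
      exact not_equiv_inf σ v H.symm
    · apply not_equiv_fin
      rintro rfl
      exact hvw rfl
  · exact hε

end GWA
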