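import Pool.Agent.Helper9.GWA.GApp
import Pool.Agent.Helper9.GWA.WeakAp
import Pool.Agent.Helper10.GWA.Ind

/-!
# Assembly: weak approximation over `ℚ(i)` from the local axioms
-/

namespace GWA

open NumberField IsDedekindDomain Module

theorem lam_norm {π : GaussianInt} (hp : Prime π) (h : π ∣ lam) : Associated π lam := by
  obtain ⟨u, hu⟩ := h
  have h1 : π.norm * u.norm = 2 := by
    rw [← Zsqrtd.norm_mul, ← hu]; decide
  have h2 : 0 ≤ π.norm := GaussianInt.norm_nonneg π
  have h3 : 0 ≤ u.norm := GaussianInt.norm_nonneg u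
  have h4 : π.norm ≠ 1 := by
    intro h
    apply hp.not_isUnit
    rw [← Zsqrtd.norm_eq_one_iff]
    rw [h]; rfl
  have h5 : π.norm ≠ 0 := by
    intro h; rw [h, zero_mul] at h1; norm_num at h1
  have h6 : u.norm ≠ 0 := by
    intro h; rw [h, mul_zero] at h1; norm_num at h1
  have h7 : u.norm = 1 := by
    by_contra h8
    have : 2 ≤ π.norm := by omega
    have : 2 ≤ u.norm := by omega
    nlinarith
  have h8 : IsUnit u := by
    rw [← Zsqrtd.norm_eq_one_iff, h7]; rfl
  obtain ⟨w, rfl⟩ := h8
  exact ⟨w, hu.symm⟩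

section

variable {K : Type} [Field K] [NumberField K] [Algebra GaussianInt K]

open Classical in
/-- the chosen prime element -/
noncomputable def ppi (h2 : finrank ℚ K = 2) (v : HeightOneSpectrum (𝓞 K)) : GaussianInt :=
  if Classical.choose (exists_pi v h2) ∣ lam then lam else Classical.choose (exists_pi v h2)

theorem ppi_spec (h2 : finrank ℚ K = 2) (v : HeightOneSpectrum (𝓞 K)) : Prime (ppi h2 v) ∧
    (∀ x : 𝓞 K, x ∈ v.asIdeal ↔ ppi h2 v ∣ gie h2 x) ∧ (ppi h2 v ∣ lam → ppi h2 v = lam) := by
  obtain ⟨h1, h3⟩ := Classical.choose_spec (exists_pi v h2)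
  unfold ppi
  split_ifs with h
  · have ha := lam_norm h1 h
    refine ⟨ha.prime h1, fun x => ?_, fun _ => rfl⟩
    rw [h3, ha.dvd_iff_dvd_left]
  · exact ⟨h1, h3, fun h' => absurd h' h⟩

/-- the kind of a place -/
noncomputable def knd (h2 : finrank ℚ K = 2) : Option (HeightOneSpectrum (𝓞 K)) → Kind
  | none => .inf
  | some v => open Classical in if ppi h2 v ∣ lam then .lam else .tame (ppi h2 v)

/-- the constants -/
noncomputable def cst (h2 : finrank ℚ K = 2) : Option (HeightOneSpectrum (𝓞 K)) → ℝ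
  | none => 2
  | some v => ‖algebraMap GaussianInt (v.adicCompletion K) (ppi h2 v)‖⁻¹

noncomputable instance instAlgKK : ∀ o, Algebra GaussianInt (KK K o)
  | none => GaussianInt.toComplex.toAlgebra
  | some v => inferInstanceAs (Algebra GaussianInt (v.adicCompletion K))

noncomputable instance instDecKK (o) : DecidableEq (KK K o) := Classical.decEq _

theorem exists_sigma : ∃ σ : K →+* ℂ, ∀ a, σ (algebraMap GaussianInt K a) = GaussianInt.toComplex a := by
  obtain ⟨σ⟩ : Nonempty (K →+* ℂ) := inferInstance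
  have h1 : σ (II K) ^ 2 = -1 := by
    rw [← map_pow, II_sq, map_neg, map_one]
  have h3 : (σ (II K) - Complex.I) * (σ (II K) + Complex.I) = 0 := by
    have : (σ (II K) - Complex.I) * (σ (II K) + Complex.I) = σ (II K) ^ 2 - Complex.I ^ 2 := by
      ring
    rw [this, h1, Complex.I_sq]; ring
  rcases mul_eq_zero.1 h3 with h | h
  · refine ⟨σ, fun a => ?_⟩
    obtain ⟨a, b⟩ := a
    rw [gi_map, map_add, map_mul, sub_eq_zero.1 h, GaussianInt.toComplex_def₂]
    apply Complex.ext <;> simp
  · refine ⟨(starRingEnd ℂ).comp σ, fun a => ?_⟩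
    obtain ⟨a, b⟩ := a
    rw [RingHom.comp_apply, gi_map, map_add, map_mul, eq_neg_of_add_eq_zero_left h,
      GaussianInt.toComplex_def₂]
    apply Complex.ext <;> simp

/-- the assembly -/
theorem density_of_local (h2 : finrank ℚ K = 2) (σ : K →+* ℂ)
    (hσ : ∀ a, σ (algebraMap GaussianInt K a) = GaussianInt.toComplex a)
    (hT : ∀ (L : Type) [NormedField L] [Algebra GaussianInt L] [NeZero (2 : L)] [DecidableEq L]
      (π : GaussianInt), LocHyp L π → ¬ π ∣ 2 →
        (KLD L ‖algebraMap GaussianInt L π‖⁻¹).TameAx π)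
    (hL : ∀ (L : Type) [NormedField L] [Algebra GaussianInt L] [NeZero (2 : L)] [DecidableEq L],
      LocHyp L lam → (KLD L ‖algebraMap GaussianInt L lam‖⁻¹).LamAx)
    (hI : letI : Algebra GaussianInt ℂ := GaussianInt.toComplex.toAlgebra
      ∀ [DecidableEq ℂ], (KLD ℂ 2).InfAx) :
    DenseRange (fun (u : Pt K) (o : Option (HeightOneSpectrum (𝓞 K))) => Pt.map (emb σ o) u) := by
  classical
  have hloc : ∀ v : HeightOneSpectrum (𝓞 K), LocHyp (v.adicCompletion K) (ppi h2 v) := fun v =>
    locHyp_adic v h2 (ppi_spec h2 v).1 (ppi_spec h2 v).2.1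
  have hc : ∀ o, 1 < cst h2 o := by
    rintro (_ | v)
    · exact one_lt_two
    · have h1 := (hloc v).norm_pi
      have h3 : 0 < ‖algebraMap GaussianInt (v.adicCompletion K) (ppi h2 v)‖ := by
        rw [norm_pos_iff, ne_eq, map_eq_zero_iff _ (by
          have := (hloc v).char0
          exact gi_inj)]
        exact (hloc v).prime.ne_zero
      exact (one_lt_inv₀ h3).2 h1
  have hnt : ∀ o, ∃ x : KK K o, 1 < ‖x‖ := by
    rintro (_ | v)
    · have h1 : 1 < ‖(2 : ℂ)‖ := by
        rw [show ‖(2 : ℂ)‖ = 2 by norm_num]; exact one_lt_two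
      exact ⟨(2 : ℂ), h1⟩
    · refine ⟨(algebraMap GaussianInt (v.adicCompletion K) (ppi h2 v))⁻¹, ?_⟩
      rw [norm_inv]
      exact hc (some v)
  have hφ : ∀ o a, emb σ o (algebraMap GaussianInt K a) = algebraMap GaussianInt (KK K o) a := by
    rintro (_ | v) a
    · exact hσ a
    · rfl
  apply dense_of_app (c := cst h2) hc
  intro A
  apply ind (fun o => KLD (KK K o) (cst h2 o)) (knd h2) ?_ ?_ ?_ ?_ A _
    (app_stable hnt hc hφ (weak_approx h2 σ A))
  · rintro (_ | v)
    · exact hI
    · unfold knd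
      dsimp only
      split_ifs with h
      · have h3 := (ppi_spec h2 v).2.2 h
        have h4 := hloc v
        have h5 : cst h2 (some v) = ‖algebraMap GaussianInt (v.adicCompletion K) (ppi h2 v)‖⁻¹ := rfl
        rw [h3] at h4 h5
        rw [h5]
        have := h4.char0
        exact hL (v.adicCompletion K) h4
      · haveI := (hloc v).char0
        refine hT (v.adicCompletion K) (ppi h2 v) (hloc v) ?_
        intro h3
        apply h
        have h4 : (2 : GaussianInt) = lam * lam * (-gi) := by decide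
        rw [h4] at h3
        rcases (ppi_spec h2 v).1.dvd_or_dvd h3 with h5 | h5
        · rcases (ppi_spec h2 v).1.dvd_or_dvd h5 with h6 | h6 <;> exact h6
        · exfalso
          apply (ppi_spec h2 v).1.not_isUnit
          apply isUnit_of_dvd_unit h5
          exact ⟨⟨-gi, gi, by decide, by decide⟩, rfl⟩
  · rintro (_ | v) (_ | w) π π' h3 h4 ha
    · rfl
    · simp [knd] at h3
    · simp [knd] at h4
    · unfold knd at h3 h4
      dsimp only at h3 h4
      split_ifs at h3 h4
      rw [Kind.tame.injEq] at h3 h4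
      subst h3 h4
      rw [pi_inj h2 (ppi_spec h2 v).2.1 (ppi_spec h2 w).2.1 ha]
  · rintro (_ | v) (_ | w) h3 h4
    · rfl
    · simp [knd] at h3
    · simp [knd] at h4
    · unfold knd at h3 h4
      dsimp only at h3 h4
      split_ifs at h3 h4 with h5 h6
      have h7 := (ppi_spec h2 v).2.2 h5
      have h8 := (ppi_spec h2 w).2.2 h6
      rw [pi_inj h2 (ppi_spec h2 v).2.1 (ppi_spec h2 w).2.1 (by rw [h7, h8])]
  · rintro (_ | v) (_ | w) h3 h4
    · rfl
    · exfalso
      unfold knd at h4
      dsimp only at h4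
      split_ifs at h4
    · exfalso
      unfold knd at h3
      dsimp only at h3
      split_ifs at h3
    · exfalso
      unfold knd at h3
      dsimp only at h3
      split_ifs at h3

end

end GWA
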