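import Pool.Agent.Helper22.GWA.DLIM
import Pool.Agent.Helper9.GWA.FINB

/-!
# The axioms `FinAx` at the finite places
-/

namespace GWA

variable {K : Type} [NormedField K] [Algebra GaussianInt K] [NeZero (2 : K)] [DecidableEq K]
  {π : GaussianInt}

theorem LocHyp.finAx_of_expo (h : LocHyp K π) (he : ∀ d : Kˣ, ∃ a : GaussianInt, a ≠ 0 ∧
    (∀ P : E (d : K), a • P ∈ nb π (d : K) 0) ∧
    ∀ π' : GaussianInt, Prime π' → ¬ π' ∣ 2 → π.norm.natAbs ≤ π'.norm.natAbs → ¬ π' ∣ a) :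
    (FLD K π).FinAx π where
  prime := h.prime
  nb_zero d n := zero_mem_nbh _ _ _
  nb_add d n P hP Q hQ := h.nb_add d.ne_zero n hP hQ
  nb_smul d n α P hP := h.nb_smul d n α hP
  nb_anti d n P hP := nbh_anti h.one_lt_inv.le _ (Nat.le_succ n) hP
  two_T d := by
    have h1 : (2 : GaussianInt) • T d.ne_zero = T d.ne_zero + T d.ne_zero := two_smul _ _
    exact h1.trans (T_add_T d.ne_zero)
  lev d n := h.nb_lev d.ne_zero n
  gen d n η hη hη' ξ hξ m := h.nb_gen d n hη hη' hξ m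
  pi_smul d n P hP := h.nb_pi_smul d n hP
  expo d := he d
  symm t t' hS := hS.symm
  dens t n := dens_of_infinite (fun d hd n => h.nb_infinite hd n) t n
  lim d Q n := h.lim_of (fun d P hP α hα h0 => h.nb_tf d hP hα h0) d Q n

end GWA
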