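import Pool.Agent.Helper9.GWA.GTopo

/-!
# Points of the surface over a complete normed field
-/

namespace GWA

open Topology Filter

variable {K : Type*} [NormedField K]

/-- square roots close to one -/
theorem sqrt_near_one [CompleteSpace K] [NeZero (2 : K)] (hnt : ∃ x : K, 1 < ‖x‖) {ε : ℝ}
    (hε : 0 < ε) : ∃ δ : ℝ, 0 < δ ∧ ∀ r : K, ‖r - 1‖ < δ → ∃ w : K, w ^ 2 = r ∧ ‖w - 1‖ < ε := by
  letI : NontriviallyNormedField K := { ‹NormedField K› with non_trivial := hnt }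
  have h : HasStrictDerivAt (fun w : K => w ^ 2) (2 : K) 1 := by
    have := hasStrictDerivAt_pow 2 (1 : K)
    simpa using this
  have h2 := h.map_nhds_eq two_ne_zero
  have h3 : (fun w : K => w ^ 2) '' (Metric.ball 1 ε) ∈ 𝓝 ((1 : K) ^ 2) := by
    rw [← h2]
    exact image_mem_map (Metric.ball_mem_nhds _ hε)
  rw [one_pow, Metric.mem_nhds_iff] at h3
  obtain ⟨δ, hδ, hsub⟩ := h3
  refine ⟨δ, hδ, fun r hr => ?_⟩
  obtain ⟨w, hw, hwr⟩ := hsub (mem_ball_iff_norm.2 hr)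
  exact ⟨w, hwr, mem_ball_iff_norm.1 hw⟩

theorem continuous_ptx : Continuous (fun u : Pt K => u.x) :=
  continuous_fst.comp continuous_subtype_val

theorem continuous_pty : Continuous (fun u : Pt K => u.y) :=
  (continuous_fst.comp continuous_snd).comp continuous_subtype_val

theorem continuous_ptz : Continuous (fun u : Pt K => u.z) :=
  (continuous_snd.comp continuous_snd).comp continuous_subtype_val

theorem continuous_ff : Continuous (ff : K → K) := by
  unfold ff; fun_prop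

/-- neighbourhoods in `Pt` -/
theorem pt_nhds {v : Pt K} {U : Set (Pt K)} (hU : U ∈ 𝓝 v) :
    ∃ ε : ℝ, 0 < ε ∧ ∀ u : Pt K, ‖u.x - v.x‖ < ε → ‖u.y - v.y‖ < ε → ‖u.z - v.z‖ < ε →
      u ∈ U := by
  obtain ⟨V, hV, hVU⟩ := mem_nhds_subtype _ _ _ |>.1 hU
  obtain ⟨ε, hε, hball⟩ := Metric.mem_nhds_iff.1 hV
  refine ⟨ε, hε, fun u h1 h2 h3 => hVU ?_⟩
  apply hball
  rw [Metric.mem_ball, Prod.dist_eq, Prod.dist_eq, max_lt_iff, max_lt_iff, dist_eq_norm,
    dist_eq_norm, dist_eq_norm]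
  exact ⟨h1, h2, h3⟩

/-- evaluation of a function continuous at a point of `K × K` -/
theorem cont_pair {g : K × K → K} {a b : K} (h : ContinuousAt g (a, b)) {ε : ℝ} (hε : 0 < ε) :
    ∃ δ : ℝ, 0 < δ ∧ ∀ a' b' : K, ‖a' - a‖ < δ → ‖b' - b‖ < δ → ‖g (a', b') - g (a, b)‖ < ε := by
  obtain ⟨δ, hδ, H⟩ := Metric.continuousAt_iff.1 h ε hε
  refine ⟨δ, hδ, fun a' b' h1 h2 => ?_⟩
  have := H (x := (a', b')) (by
    rw [Prod.dist_eq, max_lt_iff, dist_eq_norm, dist_eq_norm]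
    exact ⟨h1, h2⟩)
  rwa [dist_eq_norm] at this

variable [DecidableEq K]

/-- f2, local statement -/
theorem loc_f2 [CompleteSpace K] [NeZero (2 : K)] (hnt : ∃ x : K, 1 < ‖x‖) {v : Pt K} {d : K}
    {P Q : E d} (hrep : Rep v d P Q) (R : ℝ) :
    ∀ᶠ u : Pt K in 𝓝 v, ∃ c : K, c ≠ 0 ∧ ff u.x = d * c ^ 2 ∧
      ∀ A B : E d, A ≠ 0 → B ≠ 0 → xc A = d * u.x → yc A = d ^ 2 * c → xc B = d * u.y →
        yc B = d * u.z / c → Far R (A - P) ∧ Far R (B - Q) := by
  obtain ⟨hd, hP, hQ, hx, hy, hz⟩ := id hrep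
  obtain ⟨hyP, hyQ⟩ := hrep.yc_ne
  obtain ⟨ε₁, hε₁, H1⟩ := far_of_close hP hyP R
  obtain ⟨ε₂, hε₂, H2⟩ := far_of_close hQ hyQ R
  have hfx := hrep.ffx
  have hfv : ff v.x ≠ 0 := v.hfx
  have hdn : 0 < ‖d‖ := norm_pos_iff.2 hd
  have hyPn : 0 < ‖yc P‖ := norm_pos_iff.2 hyP
  -- `(w, z) ↦ d ^ 3 * z / (w * yc P)`
  let g : K × K → K := fun q => d ^ 3 * q.2 / (q.1 * yc P)
  have cg : ContinuousAt g (1, v.z) := by
    apply ContinuousAt.div
    · fun_prop
    · fun_prop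
    · simpa using hyP
  have vg : g (1, v.z) = yc Q := by
    simp only [g]
    field_simp
    linear_combination hz
  obtain ⟨δ, hδ, Hg⟩ := cont_pair cg hε₂
  -- the root
  obtain ⟨δ', hδ', Hs⟩ := sqrt_near_one hnt (ε := min (min δ 1) (ε₁ / ‖yc P‖))
    (lt_min (lt_min hδ one_pos) (by positivity))
  have c1 : Continuous (fun u : Pt K => ‖ff u.x / ff v.x - 1‖) := by
    have := (continuous_ff.comp (continuous_ptx (K := K)))
    exact ((this.div_const _).sub continuous_const).norm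
  have c2 : Continuous (fun u : Pt K => ‖d * u.x - xc P‖) :=
    ((continuous_const.mul continuous_ptx).sub continuous_const).norm
  have c3 : Continuous (fun u : Pt K => ‖d * u.y - xc Q‖) :=
    ((continuous_const.mul continuous_pty).sub continuous_const).norm
  have c4 : Continuous (fun u : Pt K => ‖u.z - v.z‖) :=
    (continuous_ptz.sub continuous_const).norm
  have z1 : ‖ff v.x / ff v.x - 1‖ = 0 := by rw [div_self hfv]; simp
  have z2 : ‖d * v.x - xc P‖ = 0 := by rw [← hx]; simp [mul_comm]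
  have z3 : ‖d * v.y - xc Q‖ = 0 := by rw [← hy]; simp [mul_comm]
  have z4 : ‖v.z - v.z‖ = 0 := by simp
  have e1 : ∀ᶠ u : Pt K in 𝓝 v, ‖ff u.x / ff v.x - 1‖ < δ' :=
    c1.continuousAt.eventually_lt continuousAt_const (by rw [z1]; exact hδ')
  have e2 : ∀ᶠ u : Pt K in 𝓝 v, ‖d * u.x - xc P‖ < ε₁ :=
    c2.continuousAt.eventually_lt continuousAt_const (by rw [z2]; exact hε₁)
  have e3 : ∀ᶠ u : Pt K in 𝓝 v, ‖d * u.y - xc Q‖ < ε₂ :=
    c3.continuousAt.eventually_lt continuousAt_const (by rw [z3]; exact hε₂)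
  have e4 : ∀ᶠ u : Pt K in 𝓝 v, ‖u.z - v.z‖ < δ :=
    c4.continuousAt.eventually_lt continuousAt_const (by rw [z4]; exact hδ)
  filter_upwards [e1, e2, e3, e4] with u h1 h2 h3 h4
  obtain ⟨w, hw, hw1⟩ := Hs _ h1
  have hwδ : ‖w - 1‖ < δ := lt_of_lt_of_le hw1 ((min_le_left _ _).trans (min_le_left _ _))
  have hw1' : ‖w - 1‖ < 1 := lt_of_lt_of_le hw1 ((min_le_left _ _).trans (min_le_right _ _))
  have hwε : ‖w - 1‖ < ε₁ / ‖yc P‖ := lt_of_lt_of_le hw1 (min_le_right _ _)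
  have hw0 : w ≠ 0 := by
    rintro rfl
    simp at hw1'
  refine ⟨w * yc P / d ^ 2, ?_, ?_, ?_⟩
  · exact div_ne_zero (mul_ne_zero hw0 hyP) (pow_ne_zero _ hd)
  · have : ff u.x = w ^ 2 * ff v.x := by rw [hw]; field_simp
    rw [this]
    have h6 : ff v.x = yc P ^ 2 / d ^ 3 := by
      rw [eq_div_iff (pow_ne_zero _ hd)]; linear_combination hfx
    rw [h6]; field_simp
  · intro A B hA hB xA yA xB yB
    constructor
    · apply H1 A hA
      · rw [xA]; exact h2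
      · rw [yA]
        have e : d ^ 2 * (w * yc P / d ^ 2) - yc P = (w - 1) * yc P := by field_simp
        rw [e, norm_mul]
        rwa [lt_div_iff₀ hyPn] at hwε
    · apply H2 B hB
      · rw [xB]; exact h3
      · have e : yc B = g (w, u.z) := by
          rw [yB]; simp only [g]; field_simp
        rw [e, ← vg]
        exact Hg w u.z hwδ h4

/-- f1, local statement -/
theorem loc_f1 {v : Pt K} {d : K} {P Q : E d} (hrep : Rep v d P Q)
    {U : Set (Pt K)} (hU : U ∈ 𝓝 v) :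
    ∃ R : ℝ, ∀ A B : E d, Far R (A - P) → Far R (B - Q) → A ≠ 0 ∧ B ≠ 0 ∧ yc A ≠ 0 ∧ yc B ≠ 0 ∧
      ∀ u : Pt K, Rep u d A B → u ∈ U := by
  obtain ⟨hd, hP, hQ, hx, hy, hz⟩ := id hrep
  obtain ⟨hyP, hyQ⟩ := hrep.yc_ne
  obtain ⟨ε, hε, H⟩ := pt_nhds hU
  have hdn : 0 < ‖d‖ := norm_pos_iff.2 hd
  have hyPn : 0 < ‖yc P‖ := norm_pos_iff.2 hyP
  have hyQn : 0 < ‖yc Q‖ := norm_pos_iff.2 hyQ
  let g : K × K → K := fun q => q.1 * q.2 / d ^ 3
  have cg : ContinuousAt g (yc P, yc Q) := by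
    apply Continuous.continuousAt
    fun_prop
  have vg : g (yc P, yc Q) = v.z := by
    simp only [g]
    rw [← hz]
    field_simp
  obtain ⟨δ, hδ, Hg⟩ := cont_pair cg hε
  set η : ℝ := min (min (ε * ‖d‖) δ) (min ‖yc P‖ ‖yc Q‖) with hη
  have hηpos : 0 < η := by
    apply lt_min
    · apply lt_min
      · positivity
      · exact hδ
    · exact lt_min hyPn hyQn
  obtain ⟨R₁, -, H1⟩ := close_of_far hP hηpos
  obtain ⟨R₂, -, H2⟩ := close_of_far hQ hηpos
  refine ⟨max R₁ R₂, ?_⟩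
  intro A B hA hB
  obtain ⟨a1, a2, a3⟩ := H1 (A - P) (hA.mono (le_max_left _ _))
  obtain ⟨b1, b2, b3⟩ := H2 (B - Q) (hB.mono (le_max_right _ _))
  rw [add_sub_cancel] at a1 a2 a3 b1 b2 b3
  have η1 : η ≤ ε * ‖d‖ := (min_le_left _ _).trans (min_le_left _ _)
  have η2 : η ≤ δ := (min_le_left _ _).trans (min_le_right _ _)
  have η3 : η ≤ ‖yc P‖ := (min_le_right _ _).trans (min_le_left _ _)
  have η4 : η ≤ ‖yc Q‖ := (min_le_right _ _).trans (min_le_right _ _)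
  refine ⟨a1, b1, ?_, ?_, ?_⟩
  · intro h0
    rw [h0, zero_sub, norm_neg] at a3
    exact absurd (lt_of_lt_of_le a3 η3) (lt_irrefl _)
  · intro h0
    rw [h0, zero_sub, norm_neg] at b3
    exact absurd (lt_of_lt_of_le b3 η4) (lt_irrefl _)
  intro u hu
  obtain ⟨-, -, -, ux, uy, uz⟩ := hu
  apply H
  · have e : u.x - v.x = (xc A - xc P) / d := by
      rw [← ux, ← hx]; field_simp
    rw [e, norm_div, div_lt_iff₀ hdn]
    exact lt_of_lt_of_le a2 η1
  · have e : u.y - v.y = (xc B - xc Q) / d := by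
      rw [← uy, ← hy]; field_simp
    rw [e, norm_div, div_lt_iff₀ hdn]
    exact lt_of_lt_of_le b2 η1
  · have e : u.z = g (yc A, yc B) := by
      simp only [g]
      rw [← uz]; field_simp
    rw [e, ← vg]
    exact Hg _ _ (lt_of_lt_of_le a3 η2) (lt_of_lt_of_le b3 η2)

/-! ### continuity of the involution -/

omit [DecidableEq K] in
theorem iota_nhds [NeZero (2 : K)] {w : Pt K} (hw : IOK w) {U : Set (Pt K)}
    (hU : U ∈ 𝓝 (iota w hw)) : ∀ᶠ u in 𝓝 w, ∃ h : IOK u, iota u h ∈ U := by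
  obtain ⟨ε, hε, H⟩ := pt_nhds hU
  have cx := continuous_ptx (K := K)
  have cy := continuous_pty (K := K)
  have cz := continuous_ptz (K := K)
  have cD : Continuous (fun u : Pt K => sD u.x u.y) := by
    unfold sD; fun_prop
  have cs : Continuous (fun u : Pt K => sS u.x u.y) := by
    unfold sS; fun_prop
  have cq : Continuous (fun u : Pt K => sQ u.x u.y) := by
    unfold sQ; fun_prop
  have e1 : ∀ᶠ u in 𝓝 w, sD u.x u.y ≠ 0 := cD.continuousAt.eventually_ne hw.1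
  have e2 : ∀ᶠ u in 𝓝 w, sS u.x u.y ≠ 0 := cs.continuousAt.eventually_ne hw.2.1
  have e3 : ∀ᶠ u in 𝓝 w, sQ u.x u.y ≠ 0 := cq.continuousAt.eventually_ne hw.2.2
  have crho : ContinuousAt (fun u : Pt K => rho u.x u.y) w := by
    unfold rho
    exact (continuous_const.mul cs).continuousAt.div cD.continuousAt hw.1
  have ckap : ContinuousAt (fun u : Pt K => kap u.x u.y) w := by
    unfold kap
    exact ((continuous_const.mul cs).mul cq).continuousAt.div (cD.pow 3).continuousAt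
      (pow_ne_zero _ hw.1)
  have csx : ContinuousAt (fun u : Pt K => sx u.x u.y) w := by
    unfold sx
    exact continuousAt_const.add (crho.mul (cx.sub continuous_const).continuousAt)
  have csy : ContinuousAt (fun u : Pt K => sy u.x u.y) w := by
    unfold sy
    exact continuousAt_const.add (crho.mul (cy.sub continuous_const).continuousAt)
  have f1 : ∀ᶠ u in 𝓝 w, ‖sx u.x u.y - sx w.x w.y‖ < ε := by
    have : ContinuousAt (fun u : Pt K => ‖sx u.x u.y - sx w.x w.y‖) w :=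
      (csx.sub continuousAt_const).norm
    exact this.eventually_lt continuousAt_const (by simpa using hε)
  have f2 : ∀ᶠ u in 𝓝 w, ‖sy u.x u.y - sy w.x w.y‖ < ε := by
    have : ContinuousAt (fun u : Pt K => ‖sy u.x u.y - sy w.x w.y‖) w :=
      (csy.sub continuousAt_const).norm
    exact this.eventually_lt continuousAt_const (by simpa using hε)
  have f3 : ∀ᶠ u in 𝓝 w, ‖kap u.x u.y * u.z - kap w.x w.y * w.z‖ < ε := by
    have : ContinuousAt (fun u : Pt K => ‖kap u.x u.y * u.z - kap w.x w.y * w.z‖) w :=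
      ((ckap.mul cz.continuousAt).sub continuousAt_const).norm
    exact this.eventually_lt continuousAt_const (by simpa using hε)
  filter_upwards [e1, e2, e3, f1, f2, f3] with u h1 h2 h3 g1 g2 g3
  exact ⟨⟨h1, h2, h3⟩, H _ g1 g2 g3⟩

/-! ### small points -/

omit [DecidableEq K] in
/-- arbitrarily small nonzero points -/
theorem exists_far [CompleteSpace K] [NeZero (2 : K)] (hnt : ∃ x : K, 1 < ‖x‖) {d : K}
    (hd : d ≠ 0) (R : ℝ) : ∃ F : E d, F ≠ 0 ∧ R ≤ ‖xc F‖ := by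
  obtain ⟨δ, hδ, Hs⟩ := sqrt_near_one (K := K) hnt one_pos
  obtain ⟨a, ha⟩ := hnt
  -- a large element
  obtain ⟨n, hn⟩ := pow_unbounded_of_one_lt (max R (max 1 (‖d‖ ^ 2 / δ))) ha
  set r := a ^ n with hr
  have hrn : ‖r‖ = ‖a‖ ^ n := by rw [hr, norm_pow]
  rw [← hrn] at hn
  have r1 : 1 < ‖r‖ := lt_of_le_of_lt ((le_max_left _ _).trans (le_max_right _ _)) hn
  have r2 : ‖d‖ ^ 2 / δ < ‖r‖ := lt_of_le_of_lt ((le_max_right _ _).trans (le_max_right _ _)) hn
  have r3 : R < ‖r‖ := lt_of_le_of_lt (le_max_left _ _) hn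
  have hr0 : r ≠ 0 := norm_pos_iff.1 (by linarith)
  obtain ⟨w, hw, -⟩ := Hs (1 - d ^ 2 / r ^ 4) (by
    have : 1 - d ^ 2 / r ^ 4 - 1 = - (d ^ 2 / r ^ 4) := by ring
    rw [this, norm_neg, norm_div, norm_pow, norm_pow, div_lt_iff₀ (by positivity)]
    rw [div_lt_iff₀ hδ] at r2
    refine lt_of_lt_of_le r2 ?_
    rw [mul_comm]
    have : ‖r‖ ≤ ‖r‖ ^ 4 := le_self_pow₀ r1.le (by norm_num)
    gcongr)
  have heq : (r ^ 3 * w) ^ 2 = (r ^ 2) ^ 3 - d ^ 2 * (r ^ 2) := by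
    rw [mul_pow, hw]
    field_simp
  refine ⟨mkP hd (r ^ 2) (r ^ 3 * w) heq, mkP_ne _ _ _ _, ?_⟩
  rw [xc_mkP, norm_pow]
  have : ‖r‖ ≤ ‖r‖ ^ 2 := le_self_pow₀ r1.le (by norm_num)
  linarith

end GWA
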