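import Pool.Agent.Helper15.WA.Conc

/-!
# Group closeness versus coordinate closeness over a general normed field
-/

namespace GWA

open Topology Filter

/-- `P` is far away, i.e. close to zero in the group -/
def Far {K : Type*} [NormedField K] {d : K} (R : ℝ) (P : E d) : Prop := P = 0 ∨ R ≤ ‖xc P‖

variable {K : Type*} [NormedField K]

theorem far_zero {d : K} (R : ℝ) : Far R (0 : E d) := Or.inl rfl

theorem Far.mono {d : K} {R R' : ℝ} (h : R ≤ R') {P : E d} (hP : Far R' P) : Far R P :=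
  hP.imp_right h.trans

theorem Far.neg {d : K} {R : ℝ} {P : E d} (hP : Far R P) : Far R (-P) := by
  rcases hP with h | h
  · left; rw [h]; rfl
  · right; rwa [xc_neg]

variable [DecidableEq K]

/-- the sum of two points close to zero is close to zero -/
theorem far_add [NeZero (2 : K)] (d : K) {R : ℝ} (hR : 0 < R) {P Q : E d}
    (hP : Far (32 * R + 2 * ‖d‖ + 1) P) (hQ : Far (32 * R + 2 * ‖d‖ + 1) Q) : Far R (P + Q) := by
  have nd := norm_nonneg d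
  have hle : R ≤ 32 * R + 2 * ‖d‖ + 1 := by linarith
  by_cases hP0 : P = 0
  · rw [hP0, zero_add]; exact hQ.mono hle
  by_cases hQ0 : Q = 0
  · rw [hQ0, add_zero]; exact hP.mono hle
  by_cases hPQ : P + Q = 0
  · left; exact hPQ
  have hP' := hP.resolve_left hP0
  have hQ' := hQ.resolve_left hQ0
  right
  by_cases hx : xc P = xc Q
  · -- doubling
    have hPQ' : P = Q := by
      rcases (xc_eq_iff hP0 hQ0).1 hx with h | h
      · exact h
      · exfalso; apply hPQ; rw [h]; exact neg_add_cancel Q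
    rw [← hPQ'] at hPQ ⊢
    have hy : yc P ≠ 0 := fun h => hPQ (add_self_of_yc h)
    obtain ⟨-, h1⟩ := xc_double hP0 hy
    have e := curve_eq P
    set a := xc P with ha
    set y := yc P with hyy
    set s := xc (P + P) with hs
    have A1 : 1 ≤ ‖a‖ := by linarith
    have hn := congrArg norm h1
    have f1 : ‖s * (4 * y ^ 2)‖ ≤ ‖s‖ * (4 * (2 * ‖a‖ ^ 3)) := by
      rw [norm_mul, norm_mul]
      have h4 : ‖(4 : K)‖ ≤ 4 := by
        have := Nat.norm_cast_le (α := K) 4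
        simpa using this
      have hy2 : ‖y ^ 2‖ ≤ 2 * ‖a‖ ^ 3 := by
        rw [e]
        refine (norm_sub_le _ _).trans ?_
        rw [norm_mul, norm_pow, norm_pow]
        have : ‖d‖ ^ 2 * ‖a‖ ≤ ‖a‖ ^ 3 := by
          have : ‖d‖ ^ 2 ≤ ‖a‖ ^ 2 := pow_le_pow_left₀ nd (by linarith) 2
          nlinarith
        linarith
      gcongr
    have f2 : (3 / 4 * ‖a‖ ^ 2) ^ 2 ≤ ‖(a ^ 2 + d ^ 2) ^ 2‖ := by
      rw [norm_pow]
      apply pow_le_pow_left₀ (by positivity)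
      have h3 : ‖a ^ 2‖ - ‖d ^ 2‖ ≤ ‖a ^ 2 + d ^ 2‖ := by
        have := norm_sub_norm_le (a ^ 2) (-d ^ 2)
        rw [norm_neg, sub_neg_eq_add] at this
        exact this
      rw [norm_pow, norm_pow] at h3
      have : (2 * ‖d‖) ^ 2 ≤ ‖a‖ ^ 2 := pow_le_pow_left₀ (by positivity) (by linarith) 2
      nlinarith
    rw [hn] at f1
    have f3 : (3 / 4 * ‖a‖ ^ 2) ^ 2 ≤ ‖s‖ * (4 * (2 * ‖a‖ ^ 3)) := f2.trans f1
    have ha3 : 0 < ‖a‖ ^ 3 := by positivity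
    have f4 : 9 / 16 * ‖a‖ ≤ 8 * ‖s‖ := by
      have : (9 / 16 * ‖a‖) * ‖a‖ ^ 3 ≤ (8 * ‖s‖) * ‖a‖ ^ 3 := by nlinarith
      exact le_of_mul_le_mul_right this ha3
    linarith
  · -- chord
    obtain ⟨-, h1⟩ := xc_add_mul hP0 hQ0 hx
    obtain ⟨-, h2⟩ := xc_sub_mul hP0 hQ0 hx
    have h3 := xc_add_sub hP0 hQ0 hx
    set a := xc P with ha
    set b := xc Q with hb
    set s := xc (P + Q) with hs
    set t := xc (P - Q) with ht
    by_contra hlt
    rw [not_le] at hlt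
    have key : s * (2 * (a * b - d ^ 2) * (a + b) - s * (a - b) ^ 2) = (a * b + d ^ 2) ^ 2 := by
      have h12 : t * (a - b) ^ 2 = 2 * (a * b - d ^ 2) * (a + b) - s * (a - b) ^ 2 := by
        linear_combination h1 + h2
      rw [← h12, ← h3]; ring
    have hn := congrArg norm key
    have A1 : 1 ≤ ‖a‖ := by linarith
    have B1 : 1 ≤ ‖b‖ := by linarith
    have hab0 : 0 < ‖a‖ * ‖b‖ := by positivity
    have hd2 : 4 * ‖d‖ ^ 2 ≤ ‖a‖ * ‖b‖ := by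
      have h5 : 2 * ‖d‖ ≤ ‖a‖ := by linarith
      have h6 : 2 * ‖d‖ ≤ ‖b‖ := by linarith
      have := mul_le_mul h5 h6 (by positivity) (by positivity)
      nlinarith
    have g1 : (3 / 4 * (‖a‖ * ‖b‖)) ^ 2 ≤ ‖(a * b + d ^ 2) ^ 2‖ := by
      rw [norm_pow]
      apply pow_le_pow_left₀ (by positivity)
      have h3 : ‖a * b‖ - ‖d ^ 2‖ ≤ ‖a * b + d ^ 2‖ := by
        have := norm_sub_norm_le (a * b) (-d ^ 2)
        rw [norm_neg, sub_neg_eq_add] at this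
        exact this
      rw [norm_mul, norm_pow] at h3
      nlinarith
    have g2 : ‖s * (2 * (a * b - d ^ 2) * (a + b) - s * (a - b) ^ 2)‖ ≤
        R * (2 * (5 / 4 * (‖a‖ * ‖b‖)) * (‖a‖ + ‖b‖) + R * (‖a‖ + ‖b‖) ^ 2) := by
      rw [norm_mul]
      have k1 : ‖2 * (a * b - d ^ 2) * (a + b)‖ ≤ 2 * (5 / 4 * (‖a‖ * ‖b‖)) * (‖a‖ + ‖b‖) := by
        rw [norm_mul, norm_mul]
        have h4 : ‖(2 : K)‖ ≤ 2 := by
          have := Nat.norm_cast_le (α := K) 2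
          simpa using this
        have h5 : ‖a * b - d ^ 2‖ ≤ 5 / 4 * (‖a‖ * ‖b‖) := by
          refine (norm_sub_le _ _).trans ?_
          rw [norm_mul, norm_pow]
          linarith
        have h6 := norm_add_le a b
        gcongr
      have k2 : ‖s * (a - b) ^ 2‖ ≤ R * (‖a‖ + ‖b‖) ^ 2 := by
        rw [norm_mul, norm_pow]
        have h6 := norm_sub_le a b
        gcongr
      have k3 := norm_sub_le (2 * (a * b - d ^ 2) * (a + b)) (s * (a - b) ^ 2)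
      have k4 : ‖2 * (a * b - d ^ 2) * (a + b) - s * (a - b) ^ 2‖ ≤
        2 * (5 / 4 * (‖a‖ * ‖b‖)) * (‖a‖ + ‖b‖) + R * (‖a‖ + ‖b‖) ^ 2 := by linarith
      gcongr
    rw [hn] at g2
    have g3 := g1.trans g2
    -- R (|a| + |b|) ≤ |a| |b| / 16
    have r1 : 32 * R ≤ ‖a‖ := by linarith
    have r2 : 32 * R ≤ ‖b‖ := by linarith
    have g4 : R * (‖a‖ + ‖b‖) ≤ 1 / 16 * (‖a‖ * ‖b‖) := by nlinarith
    have g5 : (R * (‖a‖ + ‖b‖)) ^ 2 ≤ (1 / 16 * (‖a‖ * ‖b‖)) ^ 2 :=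
      pow_le_pow_left₀ (by positivity) g4 2
    have g6 : 0 < (‖a‖ * ‖b‖) ^ 2 := by positivity
    have g7 : (‖a‖ * ‖b‖) * (R * (‖a‖ + ‖b‖)) ≤ (‖a‖ * ‖b‖) * (1 / 16 * (‖a‖ * ‖b‖)) := by
      gcongr
    nlinarith

omit [DecidableEq K] in
theorem far_iff_inv {d : K} {R : ℝ} (hR : 0 < R) {F : E d} (hF : Far R F) (hF0 : F ≠ 0) :
    xc F ≠ 0 ∧ ‖(xc F)⁻¹‖ ≤ R⁻¹ ∧ ‖yc F / xc F ^ 2‖ ^ 2 ≤ R⁻¹ + ‖d‖ ^ 2 * R⁻¹ ^ 3 := by
  have h := hF.resolve_left hF0
  have hX : 0 < ‖xc F‖ := lt_of_lt_of_le hR h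
  have hX0 : xc F ≠ 0 := norm_pos_iff.1 hX
  have hu : ‖(xc F)⁻¹‖ ≤ R⁻¹ := by rw [norm_inv]; gcongr
  refine ⟨hX0, hu, ?_⟩
  have e := curve_eq F
  have e1 : (yc F / xc F ^ 2) ^ 2 = (xc F)⁻¹ - d ^ 2 * (xc F)⁻¹ ^ 3 := by
    field_simp
    linear_combination e
  rw [← norm_pow, e1]
  refine (norm_sub_le _ _).trans ?_
  rw [norm_mul, norm_pow, norm_pow]
  gcongr

/-- group-close implies coordinate-close -/
theorem close_of_far {d : K} {P : E d} (hP : P ≠ 0) {ε : ℝ} (hε : 0 < ε) :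
    ∃ R : ℝ, 0 < R ∧ ∀ F : E d, Far R F →
      P + F ≠ 0 ∧ ‖xc (P + F) - xc P‖ < ε ∧ ‖yc (P + F) - yc P‖ < ε := by
  set x := xc P with hx
  set y := yc P with hy
  -- the coordinates of `P + F` as functions of `u = 1 / X`, `w = Y / X ^ 2`
  let gx : K × K → K := fun q => ((x - d ^ 2 * q.1) * (x * q.1 + 1) - 2 * y * q.2) /
    (x * q.1 - 1) ^ 2
  let gy : K × K → K := fun q => -y - (y * (3 * x ^ 2 * q.1 ^ 2 - d ^ 2 * x * q.1 ^ 3
    - d ^ 2 * q.1 ^ 2 - 2 * y * q.2 * q.1 - x ^ 3 * q.1 ^ 3) - (3 * x ^ 2 * q.2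
    - d ^ 2 * x * q.2 * q.1 - d ^ 2 * q.2 - 2 * y * (1 - d ^ 2 * q.1 ^ 2) - x ^ 3 * q.2 * q.1)) /
    (x * q.1 - 1) ^ 3
  have hden : ∀ k : ℕ, (x * ((0, 0) : K × K).1 - 1) ^ k ≠ 0 := fun k => by simp
  have cgx : ContinuousAt gx (0, 0) := by
    apply ContinuousAt.div
    · fun_prop
    · fun_prop
    · exact hden 2
  have cgy : ContinuousAt gy (0, 0) := by
    apply ContinuousAt.sub continuousAt_const
    apply ContinuousAt.div
    · fun_prop
    · fun_prop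
    · exact hden 3
  have vgx : gx (0, 0) = x := by simp [gx]
  have vgy : gy (0, 0) = y := by simp [gy]; ring
  have ev1 : ∀ᶠ q in 𝓝 ((0, 0) : K × K), ‖gx q - x‖ < ε := by
    have : ContinuousAt (fun q => ‖gx q - x‖) (0, 0) := (cgx.sub continuousAt_const).norm
    exact this.eventually_lt continuousAt_const (by simpa [vgx] using hε)
  have ev2 : ∀ᶠ q in 𝓝 ((0, 0) : K × K), ‖gy q - y‖ < ε := by
    have : ContinuousAt (fun q => ‖gy q - y‖) (0, 0) := (cgy.sub continuousAt_const).norm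
    exact this.eventually_lt continuousAt_const (by simpa [vgy] using hε)
  obtain ⟨δ, hδ, H⟩ := Metric.eventually_nhds_iff.1 (ev1.and ev2)
  -- choose `R`
  obtain ⟨R, hR0, hRx, hR1, hR2⟩ : ∃ R : ℝ, 0 < R ∧ ‖x‖ < R ∧ R⁻¹ < δ ∧
      R⁻¹ + ‖d‖ ^ 2 * R⁻¹ ^ 3 < δ ^ 2 := by
    have t1 : Tendsto (fun R : ℝ => R⁻¹) atTop (𝓝 0) := tendsto_inv_atTop_zero
    have t2 : Tendsto (fun R : ℝ => R⁻¹ + ‖d‖ ^ 2 * R⁻¹ ^ 3) atTop (𝓝 0) := by
      have := t1.add ((t1.pow 3).const_mul (‖d‖ ^ 2))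
      simpa using this
    have a1 := t1.eventually_lt_const hδ
    have a2 := t2.eventually_lt_const (by positivity : (0 : ℝ) < δ ^ 2)
    obtain ⟨R, h1, h2, h3, h4⟩ := (a1.and (a2.and ((eventually_gt_atTop 0).and
      (eventually_gt_atTop ‖x‖)))).exists
    exact ⟨R, h3, h4, h1, h2⟩
  refine ⟨R, hR0, fun F hF => ?_⟩
  by_cases hF0 : F = 0
  · rw [hF0, add_zero]
    exact ⟨hP, by simpa [x] using hε, by simpa [y] using hε⟩
  obtain ⟨hX0, hu, hw⟩ := far_iff_inv hR0 hF hF0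
  have hXR := hF.resolve_left hF0
  have hne : xc P ≠ xc F := by
    intro h
    rw [← h] at hXR
    exact absurd hXR (not_le.2 hRx)
  obtain ⟨g1, g2⟩ := xc_add_mul hP hF0 hne
  obtain ⟨L, c, l1, l2, l3, -, -, -⟩ := line_add hP hF0 g1
  set X := xc F with hXdef
  set Y := yc F with hYdef
  have e := curve_eq F
  rw [← hXdef, ← hYdef] at e
  have hw' : ‖Y / X ^ 2‖ < δ := by
    apply lt_of_pow_lt_pow_left₀ 2 hδ.le
    exact lt_of_le_of_lt hw hR2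
  obtain ⟨H1, H2⟩ := H (y := (X⁻¹, Y / X ^ 2)) (by
    rw [Prod.dist_eq, max_lt_iff, dist_eq_norm, dist_eq_norm, sub_zero, sub_zero]
    exact ⟨lt_of_le_of_lt hu hR1, hw'⟩)
  have hxX : x - X ≠ 0 := sub_ne_zero.2 hne
  have hden' : x * X⁻¹ - 1 ≠ 0 := by
    intro h
    apply hxX
    have : (x - X) * X⁻¹ = 0 := by rw [sub_mul, mul_inv_cancel₀ hX0]; exact h
    exact (mul_eq_zero.1 this).resolve_right (inv_ne_zero hX0)
  have ex : xc (P + F) = gx (X⁻¹, Y / X ^ 2) := by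
    have : xc (P + F) = ((x * X - d ^ 2) * (x + X) - 2 * y * Y) / (x - X) ^ 2 := by
      rw [eq_div_iff (pow_ne_zero 2 hxX)]; exact g2
    rw [this]
    simp only [gx]
    rw [div_eq_div_iff (pow_ne_zero 2 hxX) (pow_ne_zero 2 hden')]
    field_simp
  have ey : yc (P + F) = gy (X⁻¹, Y / X ^ 2) := by
    have hL : L * (x - X) = y - Y := by linear_combination l2 - l1
    have hyd : yc (P + F) = -y - (y - Y) * (3 * x ^ 2 * X - d ^ 2 * x - d ^ 2 * X - 2 * y * Y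
        - x ^ 3) / (x - X) ^ 3 := by
      have e1 : yc (P + F) = - y - L * (xc (P + F) - x) := by
        linear_combination l3 + l1
      have e2 : xc (P + F) - x = (3 * x ^ 2 * X - d ^ 2 * x - d ^ 2 * X - 2 * y * Y
        - x ^ 3) / (x - X) ^ 2 := by
        rw [eq_div_iff (pow_ne_zero 2 hxX)]
        linear_combination g2
      have e3 : L = (y - Y) / (x - X) := by rw [eq_div_iff hxX]; exact hL
      rw [e1, e2, e3]
      field_simp
    rw [hyd]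
    simp only [gy]
    congr 1
    rw [div_eq_div_iff (pow_ne_zero 3 hxX) (pow_ne_zero 3 hden')]
    field_simp
    linear_combination (2 * y) * e
  rw [ex, ey]
  exact ⟨g1, H1, H2⟩

/-- coordinate-close implies group-close -/
theorem far_of_close [NeZero (2 : K)] {d : K} {P : E d} (hP : P ≠ 0) (hy : yc P ≠ 0) (R : ℝ) :
    ∃ ε : ℝ, 0 < ε ∧ ∀ P' : E d, P' ≠ 0 → ‖xc P' - xc P‖ < ε → ‖yc P' - yc P‖ < ε →
      Far R (P' - P) := by
  set x := xc P with hx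
  set y := yc P with hyd
  let N : K × K → K := fun q => (q.1 * x - d ^ 2) * (q.1 + x) + 2 * q.2 * y
  have cN : Continuous N := by fun_prop
  have e := curve_eq P
  rw [← hx, ← hyd] at e
  have vN : N (x, y) = 2 ^ 2 * y ^ 2 := by
    simp only [N]; linear_combination (-2) * e
  have hNne : 0 < ‖(2 ^ 2 * y ^ 2 : K)‖ := by
    rw [norm_pos_iff]
    exact mul_ne_zero (pow_ne_zero _ two_ne_zero) (pow_ne_zero _ hy)
  have ev1 : ∀ᶠ q in 𝓝 ((x, y) : K × K), ‖(2 ^ 2 * y ^ 2 : K)‖ / 2 < ‖N q‖ := by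
    have : ContinuousAt (fun q => ‖N q‖) (x, y) := cN.norm.continuousAt
    apply continuousAt_const.eventually_lt this
    change ‖(2 ^ 2 * y ^ 2 : K)‖ / 2 < ‖N (x, y)‖
    rw [vN]
    exact half_lt_self hNne
  obtain ⟨δ, hδ, H⟩ := Metric.eventually_nhds_iff.1 ev1
  set R' : ℝ := max R 1 with hR'
  have hR'1 : 1 ≤ R' := le_max_right _ _
  have h2y : 0 < ‖2 * y‖ := norm_pos_iff.2 (mul_ne_zero two_ne_zero hy)
  obtain ⟨ε, hε, hε1, hε2, hε3⟩ : ∃ ε : ℝ, 0 < ε ∧ ε ≤ δ ∧ ε ≤ ‖2 * y‖ ∧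
      R' * ε ^ 2 ≤ ‖(2 ^ 2 * y ^ 2 : K)‖ / 2 := by
    set κ : ℝ := ‖(2 ^ 2 * y ^ 2 : K)‖ / 2 / R' with hκ
    have hκ0 : 0 < κ := by positivity
    refine ⟨min (min δ ‖2 * y‖) (min 1 κ), ?_, ?_, ?_, ?_⟩
    · refine lt_min (lt_min hδ h2y) (lt_min one_pos hκ0)
    · exact (min_le_left _ _).trans (min_le_left _ _)
    · exact (min_le_left _ _).trans (min_le_right _ _)
    · set ε := min (min δ ‖2 * y‖) (min 1 κ)
      have h1 : ε ≤ 1 := (min_le_right _ _).trans (min_le_left _ _)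
      have h2 : ε ≤ κ := (min_le_right _ _).trans (min_le_right _ _)
      have h3 : 0 < ε := lt_min (lt_min hδ h2y) (lt_min one_pos hκ0)
      have h4 : ε ^ 2 ≤ κ := by nlinarith
      calc R' * ε ^ 2 ≤ R' * κ := by gcongr
        _ = ‖(2 ^ 2 * y ^ 2 : K)‖ / 2 := by rw [hκ]; field_simp
  refine ⟨ε, hε, fun P' hP' hx' hy' => ?_⟩
  by_cases hxx : xc P' = xc P
  · rcases (xc_eq_iff hP' hP).1 hxx with h | h
    · left; rw [h, sub_self]
    · exfalso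
      rw [h, yc_neg] at hy'
      have : -yc P - y = -(2 * y) := by rw [hyd]; ring
      rw [this, norm_neg] at hy'
      exact absurd hy' (not_lt.2 hε2)
  · obtain ⟨h3, h4⟩ := xc_sub_mul hP' hP hxx
    right
    have hN := H (y := (xc P', yc P')) (by
      rw [Prod.dist_eq, max_lt_iff, dist_eq_norm, dist_eq_norm]
      exact ⟨lt_of_lt_of_le hx' hε1, lt_of_lt_of_le hy' hε1⟩)
    have hN' : ‖N (xc P', yc P')‖ = ‖xc (P' - P)‖ * ‖xc P' - xc P‖ ^ 2 := by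
      rw [← norm_pow, ← norm_mul, h4]
    rw [hN'] at hN
    have hpos : 0 < ‖xc P' - xc P‖ := norm_pos_iff.2 (sub_ne_zero.2 hxx)
    have h5 : R' * ‖xc P' - xc P‖ ^ 2 < ‖xc (P' - P)‖ * ‖xc P' - xc P‖ ^ 2 := by
      refine lt_of_le_of_lt ?_ hN
      refine le_trans ?_ hε3
      gcongr
    have h6 := lt_of_mul_lt_mul_right h5 (by positivity)
    exact (le_max_left _ _).trans h6.le

/-! ### the sets `nbh` -/

omit [DecidableEq K] in
theorem mem_nbh_far {c : ℝ} {d : K} {n : ℕ} {P : E d} :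
    P ∈ nbh c d n ↔ Far (c ^ (2 * n + 1) * ‖d‖) P := Iff.rfl

omit [DecidableEq K] in
/-- the sets `nbh` become arbitrarily small -/
theorem exists_nbh_far {c : ℝ} (hc : 1 < c) {d : K} (hd : d ≠ 0) (R : ℝ) :
    ∃ n : ℕ, ∀ m, n ≤ m → ∀ P ∈ nbh c d m, Far R P := by
  have hd' : 0 < ‖d‖ := norm_pos_iff.2 hd
  obtain ⟨n, hn⟩ := pow_unbounded_of_one_lt (R / ‖d‖) hc
  refine ⟨n, fun m hm P hP => ?_⟩
  apply Far.mono ?_ (mem_nbh_far.1 hP)
  rw [div_lt_iff₀ hd'] at hn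
  refine hn.le.trans ?_
  have : c ^ n ≤ c ^ (2 * m + 1) := pow_le_pow_right₀ hc.le (by omega)
  gcongr

omit [DecidableEq K] in
theorem nbh_of_far {c : ℝ} {d : K} (n : ℕ) : ∃ R : ℝ, ∀ P : E d, Far R P → P ∈ nbh c d n :=
  ⟨_, fun _ h => h⟩

omit [DecidableEq K] in
theorem nbh_anti' {c : ℝ} (hc : 1 < c) {d : K} {m n : ℕ} (h : m ≤ n) {P : E d}
    (hP : P ∈ nbh c d n) : P ∈ nbh c d m := by
  apply Far.mono ?_ (mem_nbh_far.1 hP)
  have : c ^ (2 * m + 1) ≤ c ^ (2 * n + 1) := pow_le_pow_right₀ hc.le (by omega)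
  gcongr

omit [DecidableEq K] in
theorem nbh_neg' {c : ℝ} {d : K} {n : ℕ} {P : E d} (hP : P ∈ nbh c d n) : -P ∈ nbh c d n :=
  Far.neg hP

/-- sums of elements of `nbh`, with a shift -/
theorem nbh_add_shift [NeZero (2 : K)] {c : ℝ} (hc : 1 < c) {d : K} (hd : d ≠ 0) (n : ℕ) :
    ∃ m : ℕ, n ≤ m ∧ ∀ P ∈ nbh c d m, ∀ Q ∈ nbh c d m, P + Q ∈ nbh c d n := by
  have hd' : 0 < ‖d‖ := norm_pos_iff.2 hd
  have hR : 0 < c ^ (2 * n + 1) * ‖d‖ := by positivity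
  obtain ⟨m, hm⟩ := exists_nbh_far hc hd (32 * (c ^ (2 * n + 1) * ‖d‖) + 2 * ‖d‖ + 1)
  refine ⟨max m n, le_max_right _ _, fun P hP Q hQ => ?_⟩
  exact far_add d hR (hm _ (le_max_left _ _) P hP) (hm _ (le_max_left _ _) Q hQ)

end GWA
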