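import Pool.Agent.Helper15.WA.L3
import Pool.Agent.Helper56.GWA.TRG
import Pool.Agent.Helper33.GWA.TRFcore
import Pool.Agent.Helper16.GWA.TRE
import Pool.Agent.Helper21.GWA.TRC

/-!
# Local transitivity at the places not above 2
-/

namespace GWA

variable {K : Type} [NormedField K] [Algebra GaussianInt K] [NeZero (2 : K)] [DecidableEq K]
  {π : GaussianInt} {A : Set (FLD K π).Sys}

theorem LocHyp.trans_tame (h : LocHyp K π) (hodd : ¬ π ∣ 2) (hA : (FLD K π).LStable A)
    (hNN : (FLD K π).NN ⊆ A) : A = Set.univ := by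
  apply h.univ_of_Rc hodd hA hNN
  rcases prime_cases h.prime hodd with hs | ⟨q, hq, hq4, hπq⟩
  · intro c hc
    obtain ⟨a, ha⟩ := h.res c hc
    obtain ⟨n, hn⟩ := hs a
    refine Rc_congr ?_ h (h.Rc_int hodd hA hNN n)
    have h1 : ‖algebraMap GaussianInt K (a - (n : GaussianInt))‖ < 1 := (h.norm_lt_one_iff _).2 hn
    rw [map_sub, map_intCast] at h1
    have e : (n : K) - c = -((c - algebraMap GaussianInt K a) + (algebraMap GaussianInt K a - n)) := by
      ring
    rw [e, norm_neg]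
    exact (h.ultra _ _).trans_lt (max_lt ha h1)
  · obtain ⟨c, hc, hcn, hR⟩ : ∃ c : K, ‖c‖ ≤ 1 ∧ (∀ n : ℤ, ‖c - n‖ = 1) ∧ Rc A c := by
      rcases (by have := hq.two_le; omega : q = 3 ∨ q = 7 ∨ 11 ≤ q) with rfl | rfl | h11
      · exact h.link_three hodd hA hNN (by exact_mod_cast hπq)
      · exact h.link_seven hodd hA hNN (by exact_mod_cast hπq)
      · exact h.link_ge_of hodd hA (h.Rc_int hodd hA hNN) (fun c c' hcc hR => Rc_congr hcc h hR)
          (fun d P hP hR => h.Cl_of_Rc hodd hA hP hR)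
          (fun d P hP h0 h1 h2 hC => h.Rc_of_Cl hodd hA hP h0 h1 h2 hC) hq hq4 hπq h11
    exact h.Rc_all_of_inert hodd hA hNN hq hq4 hπq hc hcn hR


end GWA
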